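import Pool.Agent.Work.MP_c99f5e_an.Periodic

/-!
# Descending to the torus; the measure of a periodic orbit
-/

set_option autoImplicit false

open Filter Topology Set MeasureTheory

namespace Pool.Agent.Work.MP_c99f5e_an

lemma isOpenQuotientMap_q : IsOpenQuotientMap q := by
  have h1 : IsOpenQuotientMap (Pi.map (fun (_ : Fin 2) (x : ℝ) => (x : UnitAddCircle))) :=
    IsOpenQuotientMap.piMap (fun _ => QuotientAddGroup.isOpenQuotientMap_mk)
  exact h1.comp (EuclideanSpace.equiv (Fin 2) ℝ).toHomeomorph.isOpenQuotientMap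

lemma isOpenQuotientMap_qid : IsOpenQuotientMap (fun z : E × E => (q z.1, z.2)) :=
  isOpenQuotientMap_q.prodMap .id

lemma continuous_q : Continuous q := isOpenQuotientMap_q.continuous

lemma q_surj (x : T2) : ∃ y : E, q y = x := isOpenQuotientMap_q.surjective x

/-- the function on the torus induced by a periodic function -/
noncomputable def desc {F : Type*} (G : E × E → F) (z : T2 × E) : F :=
  G (Function.surjInv isOpenQuotientMap_q.surjective z.1, z.2)

lemma desc_apply {F : Type*} {G : E × E → F} (hG : Per G) (x v : E) :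
    desc G (q x, v) = G (x, v) := by
  unfold desc
  have h1 := Function.surjInv_eq isOpenQuotientMap_q.surjective (q x)
  obtain ⟨k, hk⟩ := (q_eq_iff _ _).mp h1
  simp only
  rw [← hG k, ← hk]

lemma continuous_of_q {F : Type*} [TopologicalSpace F] {G : T2 × E → F}
    (h : Continuous (fun z : E × E => G (q z.1, z.2))) : Continuous G :=
  isOpenQuotientMap_qid.continuous_comp_iff.mp h

lemma continuous_desc {F : Type*} [TopologicalSpace F] {G : E × E → F} (hG : Continuous G)
    (hp : Per G) : Continuous (desc G) := by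
  apply continuous_of_q
  have : (fun z : E × E => desc G (q z.1, z.2)) = G := by
    funext z
    exact desc_apply hp z.1 z.2
  rw [this]
  exact hG

/-- the flow `φ` is the Euler-Lagrange flow of the lifted Lagrangian `f` -/
def Compat (f : E × E → ℝ) (φ : Flow ℝ (T2 × E)) : Prop :=
  ∀ x v : E, ∃ γ γ' : ℝ → E, γ 0 = x ∧ γ' 0 = v ∧ ELC f γ γ' ∧ ∀ t, φ t (q x, v) = (q (γ t), γ' t)

/-- an invariant probability measure integrating `g` -/
structure Inv (g : T2 × E → ℝ) (φ : Flow ℝ (T2 × E)) (μ : Measure (T2 × E)) : Prop where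
  prob : IsProbabilityMeasure μ
  inv : ∀ t, μ.map (φ t) = μ
  int : Integrable g μ

lemma periodic_measure (φ : Flow ℝ (T2 × E)) {g : T2 × E → ℝ} (hg : Continuous g)
    {z0 : T2 × E} {T : ℝ} (hT : 0 < T) (hper : φ T z0 = z0) :
    ∃ μ : Measure (T2 × E), Inv g φ μ ∧ ∫ z, g z ∂μ = T⁻¹ * ∫ t in (0 : ℝ)..T, g (φ t z0) := by
  have : Fact (0 < T) := ⟨hT⟩
  have hP : Function.Periodic (fun t => φ t z0) T := by
    intro t
    simp only
    rw [φ.map_add, hper]
  set F : AddCircle T → T2 × E := hP.lift with hF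
  have hFc : Continuous F := by
    have : Continuous (fun t : ℝ => φ t z0) := φ.continuous continuous_id continuous_const
    exact continuous_coinduced_dom.mpr this
  have hFa : ∀ t : ℝ, F (t : AddCircle T) = φ t z0 := fun t => hP.lift_coe t
  refine ⟨(AddCircle.haarAddCircle).map F, ⟨?_, ?_, ?_⟩, ?_⟩
  · exact Measure.isProbabilityMeasure_map hFc.aemeasurable
  · intro t
    have h1 : Measurable (φ t) := (φ.continuous continuous_const continuous_id).measurable
    rw [Measure.map_map h1 hFc.measurable]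
    have h2 : (φ t) ∘ F = F ∘ (fun s => (t : AddCircle T) + s) := by
      funext s
      induction s using QuotientAddGroup.induction_on with
      | H s =>
        simp only [Function.comp_apply]
        have : ((t : AddCircle T) + (s : AddCircle T)) = ((t + s : ℝ) : AddCircle T) := by
          rw [AddCircle.coe_add]
        erw [this]
        rw [hFa]
        erw [hFa]
        rw [φ.map_add]
    rw [h2, ← Measure.map_map hFc.measurable (measurable_const_add _)]
    rw [map_add_left_eq_self]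
  · rw [integrable_map_measure hg.aestronglyMeasurable hFc.aemeasurable]
    exact (hg.comp hFc).integrable_of_hasCompactSupport (HasCompactSupport.of_compactSpace _)
  · rw [integral_map hFc.aemeasurable hg.aestronglyMeasurable]
    have h3 := AddCircle.intervalIntegral_preimage T 0 (fun s => g (F s))
    rw [zero_add, AddCircle.volume_eq_smul_haarAddCircle, integral_smul_measure,
      ENNReal.toReal_ofReal hT.le, smul_eq_mul] at h3
    have h4 : ∫ t in (0 : ℝ)..T, g (φ t z0) = ∫ t in (0 : ℝ)..T, g (F (t : AddCircle T)) := by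
      congr 1
    rw [h4, h3, ← mul_assoc, inv_mul_cancel₀ hT.ne', one_mul]

/-- closed chains have nonnegative action -/
theorem closed_chain_nonneg {f : E × E → ℝ} (h : TL f) {φ : Flow ℝ (T2 × E)} (hφ : Compat f φ)
    (hN : ∀ μ, Inv (desc f) φ μ → 0 ≤ ∫ z, desc f z ∂μ) {T a V : ℝ} (hT : 0 < T)
    (k : Fin 2 → ℤ)
    (hch : ∀ δ > 0, ∃ (n : ℕ) (τ : Fin (n + 1) → ℝ) (Z : Fin (n + 1) → E), (∀ i, 0 < τ i) ∧
      (∀ i, τ i < δ) ∧ ∑ i, τ i = T ∧ (∀ i, ‖vel τ k Z i‖ ≤ V) ∧ dact f τ k Z ≤ a) : 0 ≤ a := by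
  by_contra hcon
  push Not at hcon
  obtain ⟨γ, γ', hγ, hP, hT1, hT2, hint⟩ := h.exists_periodic
    (P := fun γ γ' => ∀ t, φ t (q (γ 0), γ' 0) = (q (γ t), γ' t))
    (by
      intro x v
      obtain ⟨γ, γ', h0, h0', h1, h2⟩ := hφ x v
      exact ⟨γ, γ', h0, h0', h1, by rw [h0, h0']; exact h2⟩) hT hcon k hch
  have hper : φ T (q (γ 0), γ' 0) = (q (γ 0), γ' 0) := by
    rw [hP, hT1, hT2, q_add_ι]
  obtain ⟨μ, hμ, hμi⟩ := periodic_measure φ (continuous_desc h.continuous h.per) hT hper
  have h1 := hN μ hμ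
  rw [hμi] at h1
  have h2 : ∫ t in (0 : ℝ)..T, desc f (φ t (q (γ 0), γ' 0)) = ∫ t in (0 : ℝ)..T, f (γ t, γ' t) := by
    congr 1
    funext t
    rw [hP, desc_apply h.per]
  rw [h2] at h1
  have h3 : T⁻¹ * ∫ t in (0 : ℝ)..T, f (γ t, γ' t) < 0 :=
    mul_neg_of_pos_of_neg (inv_pos.mpr hT) (hint.trans_lt hcon)
  linarith

end Pool.Agent.Work.MP_c99f5e_an
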