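import Pool.Agent.Work.MP_c99f5e_an.Energy
import Pool.Agent.Work.MP_c99f5e_an.Lift

/-!
# Flow averages and the function `D`
-/

set_option autoImplicit false

open Filter Topology Set MeasureTheory

namespace Pool.Agent.Work.MP_c99f5e_an

lemma measurable_flow (φ : Flow ℝ (T2 × E)) (t : ℝ) : Measurable (φ t) :=
  (φ.continuous continuous_const continuous_id).measurable

/-- integral of a flow average -/
lemma flow_avg (φ : Flow ℝ (T2 × E)) {ν : Measure (T2 × E)} [IsFiniteMeasure ν]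
    (hinv : ∀ t, ν.map (φ t) = ν) {h : T2 × E → ℝ} (hc : Continuous h) (hi : Integrable h ν)
    {a b : ℝ} (hab : a ≤ b) : Integrable (fun z => ∫ s in a..b, h (φ s z)) ν ∧
      ∫ z, (∫ s in a..b, h (φ s z)) ∂ν = (b - a) * ∫ z, h z ∂ν := by
  have hcont : Continuous (fun p : ℝ × (T2 × E) => h (φ p.1 p.2)) :=
    hc.comp (φ.continuous continuous_fst continuous_snd)
  have hint : Integrable (fun p : ℝ × (T2 × E) => h (φ p.1 p.2))
      ((volume.restrict (Ioc a b)).prod ν) := by
    rw [integrable_prod_iff hcont.aestronglyMeasurable]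
    constructor
    · filter_upwards with s
      have h1 : Integrable h (ν.map (φ s)) := by rw [hinv]; exact hi
      exact h1.comp_measurable (measurable_flow φ s)
    · have h2 : (fun s : ℝ => ∫ y, ‖h (φ (s, y).1 (s, y).2)‖ ∂ν) = fun _ => ∫ y, ‖h y‖ ∂ν := by
        funext s
        have h3 : ∫ y, ‖h y‖ ∂(ν.map (φ s)) = ∫ y, ‖h (φ s y)‖ ∂ν :=
          integral_map (measurable_flow φ s).aemeasurable hc.norm.aestronglyMeasurable
        rw [hinv] at h3
        exact h3.symm
      rw [h2]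
      exact integrable_const _
  constructor
  · have h4 := hint.integral_prod_right
    refine h4.congr ?_
    filter_upwards with z
    rw [intervalIntegral.integral_of_le hab]
  · have h5 : ∫ z, (∫ s in a..b, h (φ s z)) ∂ν = ∫ z, (∫ s in Ioc a b, h (φ s z)) ∂ν := by
      congr 1
      funext z
      rw [intervalIntegral.integral_of_le hab]
    rw [h5, ← integral_integral_swap (f := fun s z => h (φ s z)) hint]
    have h6 : ∀ s : ℝ, ∫ z, h (φ s z) ∂ν = ∫ z, h z ∂ν := by
      intro s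
      have h3 : ∫ y, h y ∂(ν.map (φ s)) = ∫ y, h (φ s y) ∂ν :=
        integral_map (measurable_flow φ s).aemeasurable hc.aestronglyMeasurable
      rw [hinv] at h3
      exact h3.symm
    simp only [h6]
    rw [integral_const]
    simp [hab]

/-- data for the second half of the proof -/
structure Core (f : E × E → ℝ) (φ : Flow ℝ (T2 × E)) (u : E → ℝ) : Prop where
  tl : TL f
  compat : Compat f φ
  ucont : Continuous u
  uper : ∀ (k : Fin 2 → ℤ) (x : E), u (x + ι k) = u x
  dom : ∀ (c c' : ℝ → E) (s t : ℝ), s < t → (∀ r, HasDerivAt c (c' r) r) → Continuous c' →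
    u (c t) - u (c s) ≤ ∫ r in s..t, f (c r, c' r)

/-- `u` on the torus -/
noncomputable def ud (u : E → ℝ) (z : T2 × E) : ℝ := desc (fun z : E × E => u z.1) z

/-- the calibration defect -/
noncomputable def Dfun (f : E × E → ℝ) (φ : Flow ℝ (T2 × E)) (u : E → ℝ) (z : T2 × E) : ℝ :=
  (∫ s in (-1 : ℝ)..1, desc f (φ s z)) - ud u (φ 1 z) + ud u (φ (-1) z)

section

variable {f : E × E → ℝ} {φ : Flow ℝ (T2 × E)} {u : E → ℝ}

lemma Core.per_u (h : Core f φ u) : Per (fun z : E × E => u z.1) := fun k x _ => h.uper k x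

lemma Core.ud_apply (h : Core f φ u) (x v : E) : ud u (q x, v) = u x :=
  desc_apply h.per_u x v

lemma Core.continuous_ud (h : Core f φ u) : Continuous (ud u) :=
  continuous_desc (h.ucont.comp continuous_fst) h.per_u

lemma Core.continuous_g (h : Core f φ u) : Continuous (desc f) :=
  continuous_desc h.tl.continuous h.tl.per

lemma Core.continuous_D (h : Core f φ u) : Continuous (Dfun f φ u) := by
  unfold Dfun
  have h1 : Continuous (fun z : T2 × E => ∫ s in (-1 : ℝ)..1, desc f (φ s z)) := by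
    apply intervalIntegral.continuous_parametric_intervalIntegral_of_continuous'
    exact h.continuous_g.comp (φ.continuous continuous_snd continuous_fst)
  have h2 : Continuous (fun z : T2 × E => ud u (φ 1 z)) :=
    h.continuous_ud.comp (φ.continuous continuous_const continuous_id)
  have h3 : Continuous (fun z : T2 × E => ud u (φ (-1) z)) :=
    h.continuous_ud.comp (φ.continuous continuous_const continuous_id)
  exact (h1.sub h2).add h3

lemma Core.D_eq (h : Core f φ u) {γ γ' : ℝ → E} {z : T2 × E}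
    (hz : ∀ t, φ t z = (q (γ t), γ' t)) :
    Dfun f φ u z = (∫ s in (-1 : ℝ)..1, f (γ s, γ' s)) - u (γ 1) + u (γ (-1)) := by
  unfold Dfun
  rw [hz, hz, h.ud_apply, h.ud_apply]
  congr 3
  funext s
  rw [hz, desc_apply h.tl.per]

lemma Core.D_nonneg (h : Core f φ u) (z : T2 × E) : 0 ≤ Dfun f φ u z := by
  obtain ⟨x, v⟩ := z
  obtain ⟨x, rfl⟩ := q_surj x
  obtain ⟨γ, γ', h0, h0', hγ, hz⟩ := h.compat x v
  rw [h.D_eq hz]
  have := h.dom γ γ' (-1) 1 (by norm_num) hγ.vel hγ.cont
  linarith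

lemma Core.bounded_ud (h : Core f φ u) : ∃ C, ∀ z, ‖ud u z‖ ≤ C := by
  obtain ⟨C, _, hC⟩ := bounded_of_per (G := fun z : E × E => u z.1)
    (h.ucont.comp continuous_fst) h.per_u 0
  refine ⟨C, ?_⟩
  rintro ⟨x, v⟩
  obtain ⟨x, rfl⟩ := q_surj x
  rw [h.ud_apply]
  exact hC x 0 (by simp)

lemma Core.integrable_ud (h : Core f φ u) {ν : Measure (T2 × E)} [IsFiniteMeasure ν] (t : ℝ) :
    Integrable (fun z => ud u (φ t z)) ν := by
  obtain ⟨C, hC⟩ := h.bounded_ud
  have hc : Continuous (fun z => ud u (φ t z)) :=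
    h.continuous_ud.comp (φ.continuous continuous_const continuous_id)
  exact Integrable.of_bound hc.aestronglyMeasurable C (by filter_upwards with z; exact hC _)

lemma integral_flow (φ : Flow ℝ (T2 × E)) {ν : Measure (T2 × E)} (hinv : ∀ t, ν.map (φ t) = ν)
    {h : T2 × E → ℝ} (hc : Continuous h) (t : ℝ) : ∫ z, h (φ t z) ∂ν = ∫ z, h z ∂ν := by
  have h3 : ∫ y, h y ∂(ν.map (φ t)) = ∫ y, h (φ t y) ∂ν :=
    integral_map (measurable_flow φ t).aemeasurable hc.aestronglyMeasurable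
  rw [hinv] at h3
  exact h3.symm

lemma Core.integral_D (h : Core f φ u) {ν : Measure (T2 × E)} [IsFiniteMeasure ν]
    (hinv : ∀ t, ν.map (φ t) = ν) (hi : Integrable (desc f) ν) :
    Integrable (Dfun f φ u) ν ∧ ∫ z, Dfun f φ u z ∂ν = 2 * ∫ z, desc f z ∂ν := by
  obtain ⟨h1, h2⟩ := flow_avg φ hinv h.continuous_g hi (show (-1 : ℝ) ≤ 1 by norm_num)
  have h3 := h.integrable_ud (ν := ν) 1
  have h4 := h.integrable_ud (ν := ν) (-1)
  refine ⟨(h1.sub h3).add h4, ?_⟩
  have h5 : Integrable (fun z => (∫ s in (-1 : ℝ)..1, desc f (φ s z)) - ud u (φ 1 z)) ν :=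
    h1.sub h3
  unfold Dfun
  rw [integral_add h5 h4, integral_sub h1 h3, h2,
    integral_flow φ hinv h.continuous_ud, integral_flow φ hinv h.continuous_ud]
  ring

lemma TL.exists_e0 (h : TL f) : ∃ e0 R : ℝ, 0 ≤ R ∧
    (∀ x v : E, e0 < En f (x, v) → 1 ≤ ‖v‖ ∧ ‖v‖ ≤ f (x, v)) ∧
    (∀ x v : E, En f (x, v) ≤ e0 → ‖v‖ ≤ R) := by
  obtain ⟨C, hC0, hC⟩ := h.superlinear 2
  obtain ⟨e0, _, he0⟩ := bounded_of_per h.continuous_En (per_En h.per) (max 1 C)
  obtain ⟨R, hR1, hR⟩ := h.energy_large (e0 + 1)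
  refine ⟨e0, R, by linarith, ?_, ?_⟩
  · intro x v hxv
    by_cases hv : ‖v‖ ≤ max 1 C
    · have := he0 x v hv
      rw [Real.norm_eq_abs] at this
      have := (abs_le.mp this).2
      linarith
    · push Not at hv
      have h1 := (le_max_left 1 C).trans hv.le
      have h2 := (le_max_right 1 C).trans hv.le
      have := hC x v
      exact ⟨h1, by linarith⟩
  · intro x v hxv
    by_contra hcon
    push Not at hcon
    have := hR x v hcon.le
    linarith

/-- sublevel of the energy -/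
def Sset (f : E × E → ℝ) (e0 : ℝ) : Set (T2 × E) := {z | desc (En f) z ≤ e0}

lemma TL.isClosed_S (h : TL f) (e0 : ℝ) : IsClosed (Sset f e0) :=
  isClosed_le (continuous_desc h.continuous_En (per_En h.per)) continuous_const

lemma TL.mem_S (h : TL f) {e0 : ℝ} (x v : E) : (q x, v) ∈ Sset f e0 ↔ En f (x, v) ≤ e0 := by
  unfold Sset
  rw [mem_setOf_eq, desc_apply (per_En h.per)]

lemma Core.energy_flow (h : Core f φ u) (t : ℝ) (z : T2 × E) :
    desc (En f) (φ t z) = desc (En f) z := by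
  obtain ⟨x, v⟩ := z
  obtain ⟨x, rfl⟩ := q_surj x
  obtain ⟨γ, γ', h0, h0', hγ, hz⟩ := h.compat x v
  rw [hz, desc_apply (per_En h.tl.per), desc_apply (per_En h.tl.per), ← h0, ← h0']
  exact hγ.energy h.tl t 0

lemma Core.S_flow (h : Core f φ u) {e0 : ℝ} (t : ℝ) (z : T2 × E) :
    φ t z ∈ Sset f e0 ↔ z ∈ Sset f e0 := by
  unfold Sset
  rw [mem_setOf_eq, mem_setOf_eq, h.energy_flow]

lemma Core.restrict_inv (h : Core f φ u) {e0 : ℝ} {μ : Measure (T2 × E)}
    (hinv : ∀ t, μ.map (φ t) = μ) (t : ℝ) :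
    (μ.restrict (Sset f e0)).map (φ t) = μ.restrict (Sset f e0) := by
  have h1 : (φ t) ⁻¹' (Sset f e0) = Sset f e0 := by
    ext z
    exact h.S_flow t z
  have h2 := Measure.restrict_map (μ := μ) (measurable_flow φ t)
    (h.tl.isClosed_S e0).measurableSet
  rw [hinv, h1] at h2
  exact h2.symm

/-- the invariant set containing the Mather set -/
def Iset (f : E × E → ℝ) (φ : Flow ℝ (T2 × E)) (u : E → ℝ) (e0 : ℝ) : Set (T2 × E) :=
  Sset f e0 ∩ {z | Dfun f φ u z = 0}

lemma Core.isClosed_I (h : Core f φ u) (e0 : ℝ) : IsClosed (Iset f φ u e0) :=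
  (h.tl.isClosed_S e0).inter (isClosed_eq h.continuous_D continuous_const)

/-- measures of zero action live on `I` -/
lemma Core.support_subset (h : Core f φ u) {e0 : ℝ}
    (he0 : ∀ x v : E, e0 < En f (x, v) → 1 ≤ ‖v‖ ∧ ‖v‖ ≤ f (x, v)) {μ : Measure (T2 × E)}
    (hμ : Inv (desc f) φ μ) (h0 : ∫ z, desc f z ∂μ = 0) : μ.support ⊆ Iset f φ u e0 := by
  have := hμ.prob
  have hS := (h.tl.isClosed_S e0).measurableSet
  have hoff : ∀ z ∈ (Sset f e0)ᶜ, 1 ≤ desc f z := by
    rintro ⟨x, v⟩ hz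
    obtain ⟨x, rfl⟩ := q_surj x
    rw [mem_compl_iff, h.tl.mem_S, not_le] at hz
    rw [desc_apply h.tl.per]
    obtain ⟨h1, h2⟩ := he0 x v hz
    linarith
  obtain ⟨hDi, hD⟩ := h.integral_D (ν := μ.restrict (Sset f e0)) (h.restrict_inv hμ.inv)
    hμ.int.restrict
  have hDnn : 0 ≤ ∫ z in Sset f e0, Dfun f φ u z ∂μ := integral_nonneg (fun z => h.D_nonneg z)
  have hsplit := integral_add_compl hS hμ.int
  rw [h0] at hsplit
  have hcompl : μ.real (Sset f e0)ᶜ ≤ ∫ z in (Sset f e0)ᶜ, desc f z ∂μ := by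
    have h1 := setIntegral_mono_on (μ := μ) (s := (Sset f e0)ᶜ) (f := fun _ => (1 : ℝ))
      (g := desc f) (integrable_const _) hμ.int.restrict hS.compl hoff
    rw [setIntegral_const, smul_eq_mul, mul_one] at h1
    exact h1
  have hm0 : 0 ≤ μ.real (Sset f e0)ᶜ := measureReal_nonneg
  have hz1 : μ.real (Sset f e0)ᶜ = 0 := by linarith
  have hz2 : ∫ z in Sset f e0, Dfun f φ u z ∂μ = 0 := by linarith
  have hz3 : μ (Sset f e0)ᶜ = 0 := by
    rwa [measureReal_eq_zero_iff] at hz1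
  have hz4 : ∀ᵐ z ∂(μ.restrict (Sset f e0)), Dfun f φ u z = 0 := by
    have := (integral_eq_zero_iff_of_nonneg (fun z => h.D_nonneg z) hDi).mp hz2
    exact this
  have hz5 : Iset f φ u e0 ∈ ae μ := by
    rw [ae_restrict_iff' hS] at hz4
    have hz6 : ∀ᵐ z ∂μ, z ∈ Sset f e0 := by
      rw [ae_iff]
      exact hz3
    filter_upwards [hz4, hz6] with z h1 h2
    exact ⟨h2, h1 h2⟩
  exact Measure.support_subset_of_isClosed (h.isClosed_I e0) hz5

end

end Pool.Agent.Work.MP_c99f5e_an
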