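import Pool.Agent.Work.MP_c99f5e_an.Defs

/-!
# Elementary analysis of a periodic Tonelli Lagrangian on the universal cover
-/

set_option autoImplicit false

open Filter Topology Set

namespace Pool.Agent.Work.MP_c99f5e_an

/-- integer vectors in the plane -/
def ι (k : Fin 2 → ℤ) : E := WithLp.toLp 2 (fun i => (k i : ℝ))

@[simp] lemma ι_apply (k : Fin 2 → ℤ) (i : Fin 2) : ι k i = (k i : ℝ) := rfl

lemma ι_add (k l : Fin 2 → ℤ) : ι (k + l) = ι k + ι l := by
  ext i; simp

lemma ι_neg (k : Fin 2 → ℤ) : ι (-k) = -ι k := by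
  ext i; simp

lemma ι_zero : ι 0 = 0 := by
  ext i; simp

lemma q_add_ι (x : E) (k : Fin 2 → ℤ) : q (x + ι k) = q x := by
  funext i
  simp only [q, PiLp.add_apply, ι_apply, AddCircle.coe_add]
  have : ((k i : ℝ) : UnitAddCircle) = 0 := by
    rw [AddCircle.coe_eq_zero_iff]
    exact ⟨k i, by simp⟩
  rw [this, add_zero]

lemma q_eq_iff (x y : E) : q x = q y ↔ ∃ k : Fin 2 → ℤ, y = x + ι k := by
  constructor
  · intro h
    have h1 : ∀ i, ∃ n : ℤ, y i = x i + n := by
      intro i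
      have h2 : (x i : UnitAddCircle) = (y i : UnitAddCircle) := congrFun h i
      rw [eq_comm, ← sub_eq_zero, ← AddCircle.coe_sub, AddCircle.coe_eq_zero_iff] at h2
      obtain ⟨n, hn⟩ := h2
      refine ⟨n, ?_⟩
      have : (n : ℝ) = y i - x i := by simpa using hn
      rw [this]; ring
    choose k hk using h1
    exact ⟨k, by ext i; simp [hk]⟩
  · rintro ⟨k, rfl⟩
    exact (q_add_ι x k).symm

lemma exists_shift (x : E) : ∃ k : Fin 2 → ℤ, ‖x + ι k‖ ≤ 2 := by
  refine ⟨fun i => -⌊x i⌋, ?_⟩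
  have h : ∀ i, (x + ι (fun i => -⌊x i⌋)) i = Int.fract (x i) := by
    intro i
    simp only [PiLp.add_apply, ι_apply, Int.cast_neg]
    rw [← sub_eq_add_neg]
    rfl
  rw [EuclideanSpace.norm_eq]
  rw [Real.sqrt_le_left (by norm_num)]
  rw [Fin.sum_univ_two, h 0, h 1]
  have a0 := Int.fract_nonneg (x 0)
  have a1 := (Int.fract_lt_one (x 0)).le
  have b0 := Int.fract_nonneg (x 1)
  have b1 := (Int.fract_lt_one (x 1)).le
  rw [Real.norm_of_nonneg a0, Real.norm_of_nonneg b0]
  nlinarith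

/-- periodicity in the position variable -/
def Per {F : Type*} (G : E × E → F) : Prop := ∀ (k : Fin 2 → ℤ) (x v : E), G (x + ι k, v) = G (x, v)

lemma bounded_of_per {F : Type*} [NormedAddCommGroup F] {G : E × E → F} (hc : Continuous G)
    (hp : Per G) (R : ℝ) : ∃ C : ℝ, 0 ≤ C ∧ ∀ x v : E, ‖v‖ ≤ R → ‖G (x, v)‖ ≤ C := by
  have hK : IsCompact (Metric.closedBall (0 : E) 2 ×ˢ Metric.closedBall (0 : E) R) :=
    (isCompact_closedBall _ _).prod (isCompact_closedBall _ _)
  obtain ⟨C, hC⟩ := hK.exists_bound_of_continuousOn hc.continuousOn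
  refine ⟨max C 0, le_max_right _ _, ?_⟩
  intro x v hv
  obtain ⟨k, hk⟩ := exists_shift x
  rw [← hp k x v]
  exact (hC _ ⟨by simpa using hk, by simpa using hv⟩).trans (le_max_left _ _)

lemma per_fderiv {F : Type*} [NormedAddCommGroup F] [NormedSpace ℝ F] {G : E × E → F}
    (hp : Per G) : Per (fderiv ℝ G) := by
  intro k x v
  have h : (fun z : E × E => G (z + (ι k, 0))) = G := by
    funext z
    have e : z + (ι k, (0 : E)) = (z.1 + ι k, z.2) := by
      apply Prod.ext <;> simp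
    rw [e]
    exact hp k z.1 z.2
  have h2 := fderiv_comp_add_right (𝕜 := ℝ) (f := G) (x := (x, v)) (ι k, (0 : E))
  rw [h] at h2
  rw [h2]
  simp

lemma lipschitz_of_per {F : Type*} [NormedAddCommGroup F] [NormedSpace ℝ F] {G : E × E → F}
    (hG : ContDiff ℝ 1 G) (hp : Per G) (R : ℝ) : ∃ M : ℝ, 0 ≤ M ∧ ∀ z z' : E × E, ‖z.2‖ ≤ R →
      ‖z'.2‖ ≤ R → ‖G z' - G z‖ ≤ M * ‖z' - z‖ := by
  obtain ⟨M, hM0, hM⟩ := bounded_of_per (hG.continuous_fderiv (by norm_num)) (per_fderiv hp) R
  refine ⟨M, hM0, ?_⟩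
  intro z z' hz hz'
  have hconv : Convex ℝ {w : E × E | ‖w.2‖ ≤ R} := by
    have : {w : E × E | ‖w.2‖ ≤ R} = (LinearMap.snd ℝ E E) ⁻¹' (Metric.closedBall 0 R) := by
      ext w; simp
    rw [this]
    exact (convex_closedBall 0 R).linear_preimage _
  exact hconv.norm_image_sub_le_of_norm_fderiv_le
    (fun w _ => (hG.differentiable (by norm_num)) w) (fun w hw => hM w.1 w.2 hw) hz hz'

/-- partial derivative in the position -/
noncomputable def dx (f : E × E → ℝ) (z : E × E) : E →L[ℝ] ℝ :=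
  (fderiv ℝ f z).comp (ContinuousLinearMap.inl ℝ E E)

/-- partial derivative in the velocity -/
noncomputable def dv (f : E × E → ℝ) (z : E × E) : E →L[ℝ] ℝ :=
  (fderiv ℝ f z).comp (ContinuousLinearMap.inr ℝ E E)

/-- A Tonelli Lagrangian of the torus on the universal cover. -/
structure TL (f : E × E → ℝ) : Prop where
  smooth : ContDiff ℝ 2 f
  per : Per f
  pos : ∀ x v w : E, w ≠ 0 → 0 < fderiv ℝ (fderiv ℝ f) (x, v) (0, w) (0, w)
  sup : ∀ x : E, Tendsto (fun v : E => f (x, v) / ‖v‖) (Bornology.cobounded E) atTop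

lemma norm_inl_le : ‖ContinuousLinearMap.inl ℝ E E‖ ≤ 1 := ContinuousLinearMap.norm_inl_le_one ℝ E E

lemma norm_inr_le : ‖ContinuousLinearMap.inr ℝ E E‖ ≤ 1 := ContinuousLinearMap.norm_inr_le_one ℝ E E

lemma fderiv_eq_dx_add_dv (f : E × E → ℝ) (z : E × E) (a b : E) :
    fderiv ℝ f z (a, b) = dx f z a + dv f z b := by
  simp only [dx, dv, ContinuousLinearMap.comp_apply, ContinuousLinearMap.inl_apply,
    ContinuousLinearMap.inr_apply]
  rw [← map_add]
  simp

section TLlemmas

variable {f : E × E → ℝ}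

lemma TL.differentiable (h : TL f) : Differentiable ℝ f := h.smooth.differentiable (by norm_num)

lemma TL.continuous (h : TL f) : Continuous f := h.smooth.continuous

lemma TL.contDiff_fderiv (h : TL f) : ContDiff ℝ 1 (fderiv ℝ f) :=
  h.smooth.fderiv_right (by norm_num)

lemma TL.contDiff_dx (h : TL f) : ContDiff ℝ 1 (dx f) := by
  unfold dx
  exact h.contDiff_fderiv.clm_comp contDiff_const

lemma TL.contDiff_dv (h : TL f) : ContDiff ℝ 1 (dv f) := by
  unfold dv
  exact h.contDiff_fderiv.clm_comp contDiff_const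

lemma per_dx (h : Per f) : Per (dx f) := by
  intro k x v
  unfold dx
  rw [per_fderiv h k x v]

lemma per_dv (h : Per f) : Per (dv f) := by
  intro k x v
  unfold dv
  rw [per_fderiv h k x v]

lemma TL.continuous_dx (h : TL f) : Continuous (dx f) := h.contDiff_dx.continuous

lemma TL.continuous_dv (h : TL f) : Continuous (dv f) := h.contDiff_dv.continuous

/-- derivative along a vertical line -/
lemma TL.hasDerivAt_line (h : TL f) (x v w : E) (t : ℝ) :
    HasDerivAt (fun s : ℝ => f (x, v + s • w)) (dv f (x, v + t • w) w) t := by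
  have h1 : HasDerivAt (fun s : ℝ => ((x, v + s • w) : E × E)) ((0 : E), w) t := by
    have h2 : HasDerivAt (fun s : ℝ => v + s • w) w t := by
      simpa using ((hasDerivAt_id t).smul_const w).const_add v
    exact (hasDerivAt_const t x).prodMk h2
  exact (h.differentiable (x, v + t • w)).hasFDerivAt.comp_hasDerivAt t h1

/-- second derivative along a vertical line -/
lemma TL.hasDerivAt_line2 (h : TL f) (x v w : E) (t : ℝ) :
    HasDerivAt (fun s : ℝ => dv f (x, v + s • w) w)
      (fderiv ℝ (fderiv ℝ f) (x, v + t • w) (0, w) (0, w)) t := by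
  have h1 : HasDerivAt (fun s : ℝ => ((x, v + s • w) : E × E)) ((0 : E), w) t := by
    have h2 : HasDerivAt (fun s : ℝ => v + s • w) w t := by
      simpa using ((hasDerivAt_id t).smul_const w).const_add v
    exact (hasDerivAt_const t x).prodMk h2
  have h3 := ((h.contDiff_fderiv.differentiable (by norm_num)) (x, v + t • w)).hasFDerivAt.comp_hasDerivAt
    t h1
  have h4 := h3.clm_apply (hasDerivAt_const t ((0 : E), w))
  rw [map_zero, add_zero] at h4
  exact h4

/-- quantitative positivity of the fibre Hessian on bounded sets -/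
lemma TL.hess_lower (h : TL f) (R : ℝ) : ∃ l : ℝ, 0 < l ∧ ∀ x v w : E, ‖v‖ ≤ R →
    l * ‖w‖ ^ 2 ≤ fderiv ℝ (fderiv ℝ f) (x, v) (0, w) (0, w) := by
  by_cases hR : 0 ≤ R
  swap
  · refine ⟨1, one_pos, ?_⟩
    intro x v w hv
    exact absurd (le_trans (norm_nonneg v) hv) hR
  have hcont : Continuous (fun p : (E × E) × E =>
      fderiv ℝ (fderiv ℝ f) (p.1.1, p.1.2) (0, p.2) (0, p.2)) := by
    have h1 : Continuous (fderiv ℝ (fderiv ℝ f)) := h.contDiff_fderiv.continuous_fderiv (by norm_num)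
    have h2 : Continuous (fun p : (E × E) × E => fderiv ℝ (fderiv ℝ f) (p.1.1, p.1.2)) :=
      h1.comp (by fun_prop)
    have h3 : Continuous (fun p : (E × E) × E => (((0 : E), p.2) : E × E)) := by fun_prop
    exact (h2.clm_apply h3).clm_apply h3
  have hK : IsCompact ((Metric.closedBall (0 : E) 2 ×ˢ Metric.closedBall (0 : E) R) ×ˢ
      Metric.sphere (0 : E) 1) :=
    ((isCompact_closedBall _ _).prod (isCompact_closedBall _ _)).prod (isCompact_sphere _ _)
  have hne : ((Metric.closedBall (0 : E) 2 ×ˢ Metric.closedBall (0 : E) R) ×ˢ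
      Metric.sphere (0 : E) 1).Nonempty := by
    refine ⟨((0, 0), EuclideanSpace.single 0 1), ⟨⟨by simp, by simpa using hR⟩, by simp⟩⟩
  obtain ⟨p, hp, hmin⟩ := hK.exists_isMinOn hne hcont.continuousOn
  refine ⟨fderiv ℝ (fderiv ℝ f) (p.1.1, p.1.2) (0, p.2) (0, p.2), ?_, ?_⟩
  · apply h.pos
    intro h0
    have := hp.2
    rw [h0] at this
    simp at this
  · intro x v w hv
    by_cases hw : w = 0
    · subst hw
      have e0 : ((0 : E), (0 : E)) = 0 := rfl
      rw [e0, map_zero]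
      simp
    obtain ⟨k, hk⟩ := exists_shift x
    have hn : ‖w‖ ≠ 0 := by simpa using hw
    have h1 : (((x + ι k, v), ‖w‖⁻¹ • w) : (E × E) × E) ∈
        ((Metric.closedBall (0 : E) 2 ×ˢ Metric.closedBall (0 : E) R) ×ˢ
        Metric.sphere (0 : E) 1) := by
      refine ⟨⟨by simpa using hk, by simpa using hv⟩, ?_⟩
      simp [norm_smul, hn]
    have h2 := hmin h1
    simp only at h2
    have h3 : fderiv ℝ (fderiv ℝ f) (x + ι k, v) = fderiv ℝ (fderiv ℝ f) (x, v) :=
      per_fderiv (per_fderiv h.per) k x v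
    have h4 : ((0 : E), ‖w‖⁻¹ • w) = ‖w‖⁻¹ • ((0 : E), w) := by simp
    have h2' : fderiv ℝ (fderiv ℝ f) (p.1.1, p.1.2) (0, p.2) (0, p.2) ≤
        fderiv ℝ (fderiv ℝ f) (x + ι k, v) (0, ‖w‖⁻¹ • w) (0, ‖w‖⁻¹ • w) := h2
    rw [h3, h4] at h2'
    simp only [map_smul, smul_apply, smul_eq_mul] at h2'
    have h5 : 0 < ‖w‖ ^ 2 := by positivity
    calc fderiv ℝ (fderiv ℝ f) (p.1.1, p.1.2) (0, p.2) (0, p.2) * ‖w‖ ^ 2
        ≤ (‖w‖⁻¹ * (‖w‖⁻¹ * fderiv ℝ (fderiv ℝ f) (x, v) (0, w) (0, w))) * ‖w‖ ^ 2 :=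
          mul_le_mul_of_nonneg_right h2' h5.le
      _ = fderiv ℝ (fderiv ℝ f) (x, v) (0, w) (0, w) := by field_simp

/-- strong monotonicity of the fibre derivative on bounded sets -/
lemma TL.strong_mono (h : TL f) (R : ℝ) : ∃ l : ℝ, 0 < l ∧ ∀ x v v' : E, ‖v‖ ≤ R → ‖v'‖ ≤ R →
    l * ‖v' - v‖ ^ 2 ≤ (dv f (x, v') - dv f (x, v)) (v' - v) := by
  obtain ⟨l, hl, hH⟩ := h.hess_lower R
  refine ⟨l, hl, ?_⟩
  intro x v v' hv hv'
  have hline : ∀ t ∈ Icc (0 : ℝ) 1, ‖v + t • (v' - v)‖ ≤ R := by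
    intro t ht
    have : v + t • (v' - v) = (1 - t) • v + t • v' := by
      rw [smul_sub, sub_smul, one_smul]; abel
    rw [this]
    calc ‖(1 - t) • v + t • v'‖ ≤ ‖(1 - t) • v‖ + ‖t • v'‖ := norm_add_le _ _
      _ = (1 - t) * ‖v‖ + t * ‖v'‖ := by
          rw [norm_smul, norm_smul, Real.norm_of_nonneg (by linarith [ht.2]),
            Real.norm_of_nonneg ht.1]
      _ ≤ (1 - t) * R + t * R := by
          apply add_le_add
          · exact mul_le_mul_of_nonneg_left hv (by linarith [ht.2])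
          · exact mul_le_mul_of_nonneg_left hv' ht.1
      _ = R := by ring
  have hd := fun t : ℝ => h.hasDerivAt_line2 x v (v' - v) t
  have key := (convex_Icc (0 : ℝ) 1).mul_sub_le_image_sub_of_le_deriv
    (f := fun s : ℝ => dv f (x, v + s • (v' - v)) (v' - v)) (C := l * ‖v' - v‖ ^ 2)
    (fun t _ => (hd t).continuousAt.continuousWithinAt)
    (fun t _ => (hd t).differentiableAt.differentiableWithinAt)
    (by
      intro t ht
      rw [interior_Icc] at ht
      rw [(hd t).deriv]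
      exact hH _ _ _ (hline t (Ioo_subset_Icc_self ht)))
    0 (by simp) 1 (by simp) (by norm_num)
  simpa using key

/-- monotonicity of the fibre derivative -/
lemma TL.mono (h : TL f) (x v v' : E) : 0 ≤ (dv f (x, v') - dv f (x, v)) (v' - v) := by
  obtain ⟨l, hl, hm⟩ := h.strong_mono (max ‖v‖ ‖v'‖)
  exact le_trans (by positivity) (hm x v v' (le_max_left _ _) (le_max_right _ _))

/-- tangent inequality -/
lemma TL.tangent (h : TL f) (x v v' : E) : f (x, v) + dv f (x, v) (v' - v) ≤ f (x, v') := by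
  have hd := fun t : ℝ => h.hasDerivAt_line x v (v' - v) t
  have key := (convex_Icc (0 : ℝ) 1).mul_sub_le_image_sub_of_le_deriv
    (f := fun s : ℝ => f (x, v + s • (v' - v))) (C := dv f (x, v) (v' - v))
    (fun t _ => (hd t).continuousAt.continuousWithinAt)
    (fun t _ => (hd t).differentiableAt.differentiableWithinAt)
    (by
      intro t ht
      rw [interior_Icc] at ht
      rw [(hd t).deriv]
      have h1 := h.mono x v (v + t • (v' - v))
      rw [add_sub_cancel_left, map_smul, smul_eq_mul] at h1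
      have h2 := nonneg_of_mul_nonneg_right h1 ht.1
      rw [sub_apply] at h2
      linarith)
    0 (by simp) 1 (by simp) (by norm_num)
  simp only [one_smul, zero_smul, add_zero, add_sub_cancel, sub_zero, mul_one] at key
  linarith

lemma TL.convexOn (h : TL f) (x : E) : ConvexOn ℝ univ (fun v => f (x, v)) := by
  refine ⟨convex_univ, ?_⟩
  intro v _ w _ a b ha hb hab
  have h1 := h.tangent x (a • v + b • w) v
  have h2 := h.tangent x (a • v + b • w) w
  have h3 : a • (v - (a • v + b • w)) + b • (w - (a • v + b • w)) = 0 := by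
    have : a • v + b • w - (a + b) • (a • v + b • w) = 0 := by rw [hab, one_smul, sub_self]
    rw [← this, add_smul, smul_sub, smul_sub]
    abel
  have h4 : a * dv f (x, a • v + b • w) (v - (a • v + b • w)) +
      b * dv f (x, a • v + b • w) (w - (a • v + b • w)) = 0 := by
    rw [← smul_eq_mul, ← smul_eq_mul, ← map_smul, ← map_smul, ← map_add, h3, map_zero]
  simp only [smul_eq_mul]
  have h5 := mul_le_mul_of_nonneg_left h1 ha
  have h6 := mul_le_mul_of_nonneg_left h2 hb
  calc f (x, a • v + b • w) = (a + b) * f (x, a • v + b • w) := by rw [hab, one_mul]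
    _ ≤ a * f (x, v) + b * f (x, w) := by nlinarith

/-- uniform superlinearity -/
lemma TL.superlinear (h : TL f) (A : ℝ) : ∃ C : ℝ, 0 ≤ C ∧ ∀ x v : E, A * ‖v‖ - C ≤ f (x, v) := by
  by_contra hcon
  push Not at hcon
  have h1 : ∀ n : ℕ, ∃ x v : E, ‖x‖ ≤ 2 ∧ f (x, v) < A * ‖v‖ - n := by
    intro n
    obtain ⟨x, v, hxv⟩ := hcon n (Nat.cast_nonneg n)
    obtain ⟨k, hk⟩ := exists_shift x
    exact ⟨x + ι k, v, hk, by rw [h.per k x v]; exact hxv⟩
  choose x v hx hxv using h1
  -- the velocities tend to infinity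
  have hv : Tendsto (fun n => ‖v n‖) atTop atTop := by
    rw [tendsto_atTop]
    intro B
    obtain ⟨C, hC0, hC⟩ := bounded_of_per h.continuous h.per B
    obtain ⟨N, hN⟩ := exists_nat_gt (|A| * |B| + C)
    filter_upwards [eventually_ge_atTop N] with n hn
    by_contra hlt
    push Not at hlt
    have h2 := hC (x n) (v n) hlt.le
    have h3 := hxv n
    rw [Real.norm_eq_abs] at h2
    have h4 := (abs_le.mp h2).1
    have h5 : A * ‖v n‖ ≤ |A| * |B| := by
      calc A * ‖v n‖ ≤ |A| * ‖v n‖ := mul_le_mul_of_nonneg_right (le_abs_self A) (norm_nonneg _)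
        _ ≤ |A| * |B| := mul_le_mul_of_nonneg_left (hlt.le.trans (le_abs_self B)) (abs_nonneg A)
    have h6 : (N : ℝ) ≤ n := by exact_mod_cast hn
    linarith
  -- directions
  set e : ℕ → E := fun n => ‖v n‖⁻¹ • v n with he
  have hK : IsCompact (Metric.closedBall (0 : E) 2 ×ˢ Metric.closedBall (0 : E) 1) :=
    (isCompact_closedBall _ _).prod (isCompact_closedBall _ _)
  have hmem : ∀ n, ((x n, e n) : E × E) ∈ Metric.closedBall (0 : E) 2 ×ˢ Metric.closedBall (0 : E) 1 := by
    intro n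
    refine ⟨by simpa using hx n, ?_⟩
    simp only [he, mem_closedBall_zero_iff, norm_smul, norm_inv, norm_norm]
    by_cases h0 : ‖v n‖ = 0
    · simp [h0]
    · rw [inv_mul_cancel₀ h0]
  obtain ⟨⟨x0, e0⟩, -, φ, hφ, hlim⟩ := hK.tendsto_subseq hmem
  obtain ⟨C0, hC00, hC0⟩ := bounded_of_per h.continuous h.per 0
  have hkey : ∀ r : ℝ, 0 < r → f (x0, r • e0) ≤ C0 + |A| * r := by
    intro r hr
    have h2 : Tendsto (fun n => f (x (φ n), r • e (φ n))) atTop (𝓝 (f (x0, r • e0))) := by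
      have : Continuous (fun p : E × E => f (p.1, r • p.2)) := h.continuous.comp (by fun_prop)
      exact (this.tendsto (x0, e0)).comp hlim
    apply le_of_tendsto h2
    have hv2 := hv.comp hφ.tendsto_atTop
    filter_upwards [hv2.eventually_ge_atTop (max r 1)] with n hn
    have hn' : max r 1 ≤ ‖v (φ n)‖ := hn
    have hr1 : r ≤ ‖v (φ n)‖ := (le_max_left _ _).trans hn'
    have hr2 : 0 < ‖v (φ n)‖ := lt_of_lt_of_le one_pos ((le_max_right _ _).trans hn')
    set s : ℝ := r / ‖v (φ n)‖ with hs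
    have hs0 : 0 ≤ s := div_nonneg hr.le hr2.le
    have hs1 : s ≤ 1 := (div_le_one hr2).mpr hr1
    have hconv := (h.convexOn (x (φ n))).2 (mem_univ (0 : E)) (mem_univ (v (φ n)))
      (show 0 ≤ 1 - s by linarith) hs0 (by ring)
    have h3 : (1 - s) • (0 : E) + s • v (φ n) = r • e (φ n) := by
      simp only [he, smul_zero, zero_add, smul_smul, hs]
      congr 1
    simp only [h3, smul_eq_mul] at hconv
    have h4 := hxv (φ n)
    have h5 := hC0 (x (φ n)) 0 (by simp)
    rw [Real.norm_eq_abs] at h5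
    have h6 := (abs_le.mp h5).2
    have h7 : f (x (φ n), v (φ n)) ≤ |A| * ‖v (φ n)‖ := by
      have : A * ‖v (φ n)‖ ≤ |A| * ‖v (φ n)‖ :=
        mul_le_mul_of_nonneg_right (le_abs_self A) hr2.le
      have h8 : (0 : ℝ) ≤ (φ n : ℕ) := Nat.cast_nonneg _
      linarith
    calc f (x (φ n), r • e (φ n)) ≤ (1 - s) * f (x (φ n), 0) + s * f (x (φ n), v (φ n)) := hconv
      _ ≤ (1 - s) * C0 + s * (|A| * ‖v (φ n)‖) := by
          apply add_le_add
          · exact mul_le_mul_of_nonneg_left h6 (by linarith)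
          · exact mul_le_mul_of_nonneg_left h7 hs0
      _ ≤ C0 + |A| * r := by
          have h9 : s * (|A| * ‖v (φ n)‖) = |A| * r := by
            rw [hs]; field_simp
          rw [h9]
          nlinarith
  -- contradiction with superlinearity at x0
  have hne : e0 ≠ 0 := by
    intro h0
    have hsnd : Tendsto (fun n => e (φ n)) atTop (𝓝 e0) :=
      (continuous_snd.tendsto (x0, e0)).comp hlim
    have hlim2 : Tendsto (fun n => ‖e (φ n)‖) atTop (𝓝 ‖e0‖) := hsnd.norm
    have hv2 := hv.comp hφ.tendsto_atTop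
    have hev : ∀ᶠ n in atTop, ‖e (φ n)‖ = 1 := by
      filter_upwards [hv2.eventually_gt_atTop 0] with n hn
      have hn' : 0 < ‖v (φ n)‖ := hn
      simp only [he, norm_smul, norm_inv, norm_norm]
      rw [inv_mul_cancel₀ hn'.ne']
    have hone : Tendsto (fun n => ‖e (φ n)‖) atTop (𝓝 1) :=
      Tendsto.congr' (hev.mono (fun n hn => hn.symm)) tendsto_const_nhds
    have huniq := tendsto_nhds_unique hlim2 hone
    rw [h0, norm_zero] at huniq
    exact zero_ne_one huniq
  have hnorm : 0 < ‖e0‖ := norm_pos_iff.mpr hne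
  have hsup := h.sup x0
  have hray : Tendsto (fun r : ℝ => r • e0) atTop (Bornology.cobounded E) := by
    rw [← tendsto_norm_atTop_iff_cobounded]
    have : (fun r : ℝ => ‖r • e0‖) = fun r : ℝ => |r| * ‖e0‖ := by
      funext r; rw [norm_smul, Real.norm_eq_abs]
    rw [this]
    exact tendsto_abs_atTop_atTop.atTop_mul_const hnorm
  have h10 := hsup.comp hray
  have h11 := h10.eventually_gt_atTop ((C0 + |A|) / ‖e0‖)
  obtain ⟨r, hr1, hr2⟩ := (h11.and (eventually_ge_atTop 1)).exists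
  have h12 := hkey r (by linarith)
  have hr0 : 0 < r := by linarith
  have h13 : ‖r • e0‖ = r * ‖e0‖ := by rw [norm_smul, Real.norm_of_nonneg hr0.le]
  simp only [Function.comp_apply, h13] at hr1
  rw [div_lt_div_iff₀ hnorm (by positivity)] at hr1
  have h14 : (C0 + |A|) * (r * ‖e0‖) < f (x0, r • e0) * ‖e0‖ := hr1
  have h15 : (C0 + |A|) * r < f (x0, r • e0) := by
    have h16 : (C0 + |A|) * (r * ‖e0‖) = ((C0 + |A|) * r) * ‖e0‖ := by ring
    rw [h16] at h14
    exact lt_of_mul_lt_mul_right h14 hnorm.le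
  nlinarith [abs_nonneg A]

/-- energy -/
noncomputable def En (f : E × E → ℝ) (z : E × E) : ℝ := dv f z z.2 - f z

lemma TL.continuous_En (h : TL f) : Continuous (En f) := by
  unfold En
  exact (h.continuous_dv.clm_apply continuous_snd).sub h.continuous

lemma per_En (h : Per f) : Per (En f) := by
  intro k x v
  unfold En
  rw [per_dv h k x v, h k x v]

lemma TL.energy_large (h : TL f) (B : ℝ) : ∃ R : ℝ, 1 ≤ R ∧ ∀ x v : E, R ≤ ‖v‖ →
    B ≤ En f (x, v) := by
  obtain ⟨C1, hC10, hC1⟩ := bounded_of_per h.continuous h.per 1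
  obtain ⟨C, hC0, hC⟩ := h.superlinear (|B| + 1 + C1)
  refine ⟨max 1 (C + C1), le_max_left _ _, ?_⟩
  intro x v hv
  set r := ‖v‖ with hr
  have hr1 : 1 ≤ r := (le_max_left _ _).trans hv
  have hr2 : C + C1 ≤ r := (le_max_right _ _).trans hv
  have hr0 : 0 < r := by linarith
  have t1 := h.tangent x v (r⁻¹ • v)
  have t2 := h.tangent x v 0
  have hb1 := hC1 x (r⁻¹ • v) (by
    rw [norm_smul, norm_inv, Real.norm_of_nonneg hr0.le, ← hr, inv_mul_cancel₀ hr0.ne'])
  have hb0 := hC1 x 0 (by simp)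
  rw [Real.norm_eq_abs, abs_le] at hb1 hb0
  have hsup := hC x v
  have e1 : r⁻¹ • v - v = (r⁻¹ - 1) • v := by rw [sub_smul, one_smul]
  rw [e1, map_smul, smul_eq_mul] at t1
  rw [zero_sub, map_neg] at t2
  set p := dv f (x, v) v with hp
  have hEn : En f (x, v) = p - f (x, v) := rfl
  -- p / r ≥ (f (x,v) - f (x,0)) / r
  have h1 : r⁻¹ * p ≥ |B| + C1 := by
    have h2 : p ≥ (|B| + 1 + C1) * r - C - C1 := by linarith
    have h3 : p ≥ (|B| + C1) * r := by nlinarith
    calc r⁻¹ * p ≥ r⁻¹ * ((|B| + C1) * r) := mul_le_mul_of_nonneg_left h3 (by positivity)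
      _ = |B| + C1 := by field_simp
  rw [hEn]
  have h4 : p - f (x, v) ≥ r⁻¹ * p - f (x, r⁻¹ • v) := by nlinarith
  have h5 := le_abs_self B
  linarith [hb1.2]

/-- Taylor estimate -/
lemma TL.taylor (h : TL f) (R : ℝ) : ∃ M : ℝ, 0 ≤ M ∧ ∀ z z' : E × E, ‖z.2‖ ≤ R → ‖z'.2‖ ≤ R →
    |f z' - f z - (dx f z (z'.1 - z.1) + dv f z (z'.2 - z.2))| ≤ M * ‖z' - z‖ ^ 2 := by
  obtain ⟨M, hM0, hM⟩ := lipschitz_of_per h.contDiff_fderiv (per_fderiv h.per) R
  refine ⟨M, hM0, ?_⟩
  intro z z' hz hz'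
  have hseg : ∀ w ∈ segment ℝ z z', ‖w.2‖ ≤ R := by
    have hconv : Convex ℝ {w : E × E | ‖w.2‖ ≤ R} := by
      have : {w : E × E | ‖w.2‖ ≤ R} = (LinearMap.snd ℝ E E) ⁻¹' (Metric.closedBall 0 R) := by
        ext w; simp
      rw [this]
      exact (convex_closedBall 0 R).linear_preimage _
    intro w hw
    exact hconv.segment_subset hz hz' hw
  have key := (convex_segment z z').norm_image_sub_le_of_norm_fderiv_le'
    (f := f) (φ := fderiv ℝ f z) (C := M * ‖z' - z‖)
    (fun w _ => h.differentiable w)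
    (by
      intro w hw
      refine (hM z w hz (hseg w hw)).trans ?_
      apply mul_le_mul_of_nonneg_left _ hM0
      have := norm_sub_le_of_mem_segment hw
      exact this)
    (left_mem_segment ℝ z z') (right_mem_segment ℝ z z')
  have e : fderiv ℝ f z (z' - z) = dx f z (z'.1 - z.1) + dv f z (z'.2 - z.2) := by
    rw [← fderiv_eq_dx_add_dv]
    rfl
  rw [e, Real.norm_eq_abs] at key
  calc _ ≤ M * ‖z' - z‖ * ‖z' - z‖ := key
    _ = M * ‖z' - z‖ ^ 2 := by ring

end TLlemmas

end Pool.Agent.Work.MP_c99f5e_an
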