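import Pool.Agent.Work.MP_c99f5e_an.Basic

/-!
# Comparison of discrete Euler-Lagrange chains with Euler-Lagrange curves
-/

set_option autoImplicit false

open Filter Topology Set

namespace Pool.Agent.Work.MP_c99f5e_an

/-- Euler-Lagrange curves on the universal cover. -/
structure ELC (f : E × E → ℝ) (γ γ' : ℝ → E) : Prop where
  vel : ∀ t, HasDerivAt γ (γ' t) t
  el : ∀ t, HasDerivAt (fun s => dv f (γ s, γ' s)) (dx f (γ t, γ' t)) t
  cont : Continuous γ'

lemma ELC.continuous {f : E × E → ℝ} {γ γ' : ℝ → E} (h : ELC f γ γ') : Continuous γ :=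
  continuous_iff_continuousAt.mpr (fun t => (h.vel t).continuousAt)

lemma ELC.continuous_pair {f : E × E → ℝ} {γ γ' : ℝ → E} (h : ELC f γ γ') :
    Continuous (fun t => (γ t, γ' t)) := h.continuous.prodMk h.cont

lemma taylor1 {F : Type*} [NormedAddCommGroup F] [NormedSpace ℝ F] {c c' : ℝ → F}
    (hc : ∀ r, HasDerivAt c (c' r) r) {t τ ε : ℝ} (hτ : 0 ≤ τ)
    (hb : ∀ r ∈ Icc t (t + τ), ‖c' r - c' t‖ ≤ ε) :
    ‖c (t + τ) - c t - τ • c' t‖ ≤ ε * τ := by
  have h1 : ∀ r ∈ Icc t (t + τ), HasDerivWithinAt (fun s => c s - s • c' t) (c' r - c' t)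
      (Icc t (t + τ)) r := by
    intro r _
    have := (hc r).sub ((hasDerivAt_id r).smul_const (c' t))
    rw [one_smul] at this
    exact this.hasDerivWithinAt
  have h2 := (convex_Icc t (t + τ)).norm_image_sub_le_of_norm_hasDerivWithin_le h1 hb
    (left_mem_Icc.mpr (by linarith)) (right_mem_Icc.mpr (by linarith))
  have e : c (t + τ) - (t + τ) • c' t - (c t - t • c' t) = c (t + τ) - c t - τ • c' t := by
    module
  simp only [e] at h2
  rw [add_sub_cancel_left, Real.norm_of_nonneg hτ] at h2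
  exact h2

/-- a linear recursion -/
lemma gronwall_lin {e τ : ℕ → ℝ} {A b : ℝ} (hA : 0 ≤ A) (hb : 0 ≤ b) (N : ℕ)
    (hτ : ∀ m < N, 0 ≤ τ m) (he0 : 0 ≤ e 0)
    (hrec : ∀ m < N, e (m + 1) ≤ (1 + A * τ m) * e m + b * τ m) :
    ∀ m ≤ N, e m ≤ (e 0 + b * ∑ j ∈ Finset.range m, τ j) *
      Real.exp (A * ∑ j ∈ Finset.range m, τ j) := by
  intro m
  induction m with
  | zero => intro _; simp
  | succ m ih =>
    intro hm
    have h1 := ih (by omega)
    have h2 := hrec m (by omega)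
    have h3 := hτ m (by omega)
    have hs : 0 ≤ ∑ j ∈ Finset.range m, τ j :=
      Finset.sum_nonneg (fun j hj => hτ j (by have := Finset.mem_range.mp hj; omega))
    rw [Finset.sum_range_succ]
    set s := ∑ j ∈ Finset.range m, τ j with hsdef
    have h4 : 1 + A * τ m ≤ Real.exp (A * τ m) := by
      have := Real.add_one_le_exp (A * τ m); linarith
    have h5 : 1 ≤ Real.exp (A * (s + τ m)) := Real.one_le_exp (by positivity)
    have h6 : 0 ≤ (e 0 + b * s) * Real.exp (A * s) := by positivity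
    calc e (m + 1) ≤ (1 + A * τ m) * e m + b * τ m := h2
      _ ≤ (1 + A * τ m) * ((e 0 + b * s) * Real.exp (A * s)) + b * τ m := by
          have : 0 ≤ 1 + A * τ m := by positivity
          have := mul_le_mul_of_nonneg_left h1 this
          linarith
      _ ≤ Real.exp (A * τ m) * ((e 0 + b * s) * Real.exp (A * s)) + b * τ m := by
          have := mul_le_mul_of_nonneg_right h4 h6
          linarith
      _ = (e 0 + b * s) * Real.exp (A * (s + τ m)) + b * τ m := by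
          rw [mul_add A, Real.exp_add]; ring
      _ ≤ (e 0 + b * s) * Real.exp (A * (s + τ m)) + (b * τ m) * Real.exp (A * (s + τ m)) := by
          have : 0 ≤ b * τ m := by positivity
          nlinarith
      _ = (e 0 + b * (s + τ m)) * Real.exp (A * (s + τ m)) := by ring

/-- velocity difference from momentum difference -/
lemma vel_from_mom {f : E × E → ℝ} {R lam M : ℝ} (hlam : 0 < lam)
    (hsm : ∀ x v v' : E, ‖v‖ ≤ R → ‖v'‖ ≤ R →
      lam * ‖v' - v‖ ^ 2 ≤ (dv f (x, v') - dv f (x, v)) (v' - v))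
    (hLip : ∀ z z' : E × E, ‖z.2‖ ≤ R → ‖z'.2‖ ≤ R → ‖dv f z' - dv f z‖ ≤ M * ‖z' - z‖)
    {x y v w : E} (hv : ‖v‖ ≤ R) (hw : ‖w‖ ≤ R) :
    lam * ‖v - w‖ ≤ M * ‖x - y‖ + ‖dv f (x, v) - dv f (y, w)‖ := by
  have h1 : ‖dv f (y, v) - dv f (y, w)‖ ≤ M * ‖x - y‖ + ‖dv f (x, v) - dv f (y, w)‖ := by
    have e : dv f (y, v) - dv f (y, w) =
        (dv f (y, v) - dv f (x, v)) + (dv f (x, v) - dv f (y, w)) := by abel
    rw [e]
    refine (norm_add_le _ _).trans ?_
    gcongr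
    refine (hLip (x, v) (y, v) hv hv).trans ?_
    have : ((y, v) : E × E) - (x, v) = (y - x, 0) := by simp
    rw [this, Prod.norm_def]
    simp only [norm_zero]
    rw [max_eq_left (norm_nonneg _), norm_sub_rev]
  by_cases h0 : ‖v - w‖ = 0
  · rw [h0, mul_zero]
    exact (norm_nonneg _).trans h1
  · have hpos : 0 < ‖v - w‖ := lt_of_le_of_ne (norm_nonneg _) (Ne.symm h0)
    have h2 := hsm y w v hw hv
    have h3 : (dv f (y, v) - dv f (y, w)) (v - w) ≤ ‖dv f (y, v) - dv f (y, w)‖ * ‖v - w‖ :=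
      (Real.le_norm_self _).trans (ContinuousLinearMap.le_opNorm _ _)
    have h4 : (lam * ‖v - w‖) * ‖v - w‖ ≤ ‖dv f (y, v) - dv f (y, w)‖ * ‖v - w‖ := by nlinarith
    exact (le_of_mul_le_mul_right h4 hpos).trans h1

/-- **Comparison lemma.** -/
lemma TL.compare {f : E × E → ℝ} (h : TL f) {γ γ' : ℝ → E} (hγ : ELC f γ γ') {T : ℝ} (hT : 0 < T)
    (R' : ℝ) {ε : ℝ} (hε : 0 < ε) : ∃ δ₁ : ℝ, 0 < δ₁ ∧ ∀ (N : ℕ) (X v : ℕ → E) (τ : ℕ → ℝ),
      (∀ m ≤ N, 0 < τ m) → (∀ m ≤ N, τ m < δ₁) → ∑ m ∈ Finset.range N, τ m = T →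
      (∀ m, ‖v m‖ ≤ R') → (∀ m < N, X (m + 1) = X m + τ m • v m) →
      (∀ m < N, dv f (X (m + 1), v (m + 1)) - dv f (X m, v m) =
        τ (m + 1) • dx f (X (m + 1), v (m + 1))) →
      ‖X 0 - γ 0‖ < δ₁ → ‖v 0 - γ' 0‖ < δ₁ →
      ‖X N - γ T‖ < ε ∧ ‖dv f (X N, v N) - dv f (γ T, γ' T)‖ < ε ∧
        |∑ m ∈ Finset.range N, τ m * f (X m, v m) - ∫ t in (0 : ℝ)..T, f (γ t, γ' t)| < ε := by
  -- velocity bound for the curve
  obtain ⟨B0, hB0⟩ := (isCompact_Icc (a := (0 : ℝ)) (b := T)).exists_bound_of_continuousOn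
    hγ.cont.continuousOn
  set R := max R' B0 with hR
  have hR'R : R' ≤ R := le_max_left _ _
  have hγR : ∀ t ∈ Icc (0 : ℝ) T, ‖γ' t‖ ≤ R := fun t ht => (hB0 t ht).trans (le_max_right _ _)
  obtain ⟨lam, hlam, hsm⟩ := h.strong_mono R
  obtain ⟨M1, hM10, hLip1⟩ := lipschitz_of_per h.contDiff_dv (per_dv h.per) R
  obtain ⟨M2, hM20, hLip2⟩ := lipschitz_of_per h.contDiff_dx (per_dx h.per) R
  obtain ⟨M3, hM30, hLip3⟩ := lipschitz_of_per (h.smooth.of_le (by norm_num)) h.per R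
  obtain ⟨Cx, hCx0, hCx⟩ := bounded_of_per h.continuous_dx (per_dx h.per) R
  set P : ℝ → E →L[ℝ] ℝ := fun s => dv f (γ s, γ' s) with hP
  set W : ℝ → ℝ := fun r => ∫ t in (0 : ℝ)..r, f (γ t, γ' t) with hW
  have hfc : Continuous (fun t => f (γ t, γ' t)) := h.continuous.comp hγ.continuous_pair
  have hWd : ∀ r, HasDerivAt W (f (γ r, γ' r)) r := fun r =>
    intervalIntegral.integral_hasDerivAt_right (hfc.intervalIntegrable _ _)
      hfc.stronglyMeasurable.stronglyMeasurableAtFilter hfc.continuousAt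
  -- constants
  set A : ℝ := (M1 + 1) / lam + M2 * (1 + (M1 + 1) / lam) with hA
  have hA0 : 0 ≤ A := by positivity
  set B : ℝ := Cx / lam + M2 * (Cx / lam) + 2 with hB
  have hBnn : 0 ≤ B := by positivity
  set C6 : ℝ := ((1 + M1 + Cx) + B * T) * Real.exp (A * T) with hC6
  have hC60 : 0 ≤ C6 := by positivity
  set C7 : ℝ := T * (M3 * (C6 + ((M1 + 1) * C6 + Cx) / lam) + 1) with hC7
  have hC70 : 0 ≤ C7 := by positivity
  obtain ⟨κ, hκ0, hκ1⟩ : ∃ κ : ℝ, 0 < κ ∧ (C6 + Cx + C7 + 1) * κ < ε := by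
    refine ⟨ε / (2 * (C6 + Cx + C7 + 1)), by positivity, ?_⟩
    have : 0 < C6 + Cx + C7 + 1 := by positivity
    field_simp
    linarith
  -- uniform continuity
  have hF : Continuous (fun r : ℝ => (γ' r, (dx f (γ r, γ' r), f (γ r, γ' r)))) :=
    hγ.cont.prodMk ((h.continuous_dx.comp hγ.continuous_pair).prodMk hfc)
  have huc := (isCompact_Icc (a := (0 : ℝ)) (b := T)).uniformContinuousOn_of_continuous
    hF.continuousOn
  rw [Metric.uniformContinuousOn_iff] at huc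
  obtain ⟨δ2, hδ20, hδ2⟩ := huc κ hκ0
  have huc1 : ∀ r ∈ Icc (0 : ℝ) T, ∀ r' ∈ Icc (0 : ℝ) T, |r - r'| < δ2 →
      ‖γ' r - γ' r'‖ ≤ κ ∧ ‖dx f (γ r, γ' r) - dx f (γ r', γ' r')‖ ≤ κ ∧
        ‖f (γ r, γ' r) - f (γ r', γ' r')‖ ≤ κ := by
    intro r hr r' hr' hrr
    have h1 := hδ2 r hr r' hr' (by rwa [Real.dist_eq])
    rw [Prod.dist_eq, Prod.dist_eq, max_lt_iff, max_lt_iff] at h1
    refine ⟨?_, ?_, ?_⟩
    · rw [← dist_eq_norm]; exact h1.1.le
    · rw [← dist_eq_norm]; exact h1.2.1.le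
    · rw [← dist_eq_norm]; exact h1.2.2.le
  refine ⟨min κ δ2, lt_min hκ0 hδ20, ?_⟩
  intro N X v τ hτ0 hτδ hτT hvR' hX hEL hX0 hv0
  have hvR : ∀ m, ‖v m‖ ≤ R := fun m => (hvR' m).trans hR'R
  have hτκ : ∀ m ≤ N, τ m < κ := fun m hm => (hτδ m hm).trans_le (min_le_left _ _)
  have hτδ2 : ∀ m ≤ N, τ m < δ2 := fun m hm => (hτδ m hm).trans_le (min_le_right _ _)
  set t : ℕ → ℝ := fun m => ∑ j ∈ Finset.range m, τ j with ht
  have ht0 : t 0 = 0 := by simp [ht]
  have htN : t N = T := hτT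
  have hts : ∀ m, t (m + 1) = t m + τ m := fun m => Finset.sum_range_succ _ _
  have htnn : ∀ m ≤ N, 0 ≤ t m := by
    intro m hm
    exact Finset.sum_nonneg (fun j hj => (hτ0 j (by have := Finset.mem_range.mp hj; omega)).le)
  have htle : ∀ m ≤ N, t m ≤ T := by
    intro m hm
    rw [← htN]
    apply Finset.sum_le_sum_of_subset_of_nonneg
    · intro j hj
      rw [Finset.mem_range] at hj ⊢
      omega
    · intro j hj _
      rw [Finset.mem_range] at hj
      exact (hτ0 j (by omega)).le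
  have htI : ∀ m ≤ N, t m ∈ Icc (0 : ℝ) T := fun m hm => ⟨htnn m hm, htle m hm⟩
  have hseg : ∀ m < N, ∀ r ∈ Icc (t m) (t m + τ m), r ∈ Icc (0 : ℝ) T ∧ |r - t m| < δ2 := by
    intro m hm r hr
    have h1 := htle (m + 1) (by omega)
    rw [hts] at h1
    refine ⟨⟨(htnn m hm.le).trans hr.1, hr.2.trans h1⟩, ?_⟩
    rw [abs_of_nonneg (by linarith [hr.1])]
    have := hτδ2 m hm.le
    linarith [hr.2]
  -- Taylor estimates along the curve
  have tay1 : ∀ m < N, ‖γ (t (m + 1)) - γ (t m) - τ m • γ' (t m)‖ ≤ κ * τ m := by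
    intro m hm
    rw [hts]
    apply taylor1 hγ.vel (hτ0 m hm.le).le
    intro r hr
    obtain ⟨a1, a2⟩ := hseg m hm r hr
    exact (huc1 r a1 (t m) (htI m hm.le) a2).1
  have tay2 : ∀ m < N, ‖P (t (m + 1)) - P (t m) - τ m • dx f (γ (t m), γ' (t m))‖ ≤ κ * τ m := by
    intro m hm
    rw [hts]
    apply taylor1 (c := P) (c' := fun s => dx f (γ s, γ' s)) hγ.el (hτ0 m hm.le).le
    intro r hr
    obtain ⟨a1, a2⟩ := hseg m hm r hr
    exact (huc1 r a1 (t m) (htI m hm.le) a2).2.1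
  have tay3 : ∀ m < N, ‖W (t (m + 1)) - W (t m) - τ m • f (γ (t m), γ' (t m))‖ ≤ κ * τ m := by
    intro m hm
    rw [hts]
    apply taylor1 (c := W) (c' := fun s => f (γ s, γ' s)) hWd (hτ0 m hm.le).le
    intro r hr
    obtain ⟨a1, a2⟩ := hseg m hm r hr
    exact (huc1 r a1 (t m) (htI m hm.le) a2).2.2
  -- errors
  set Ph : ℕ → E →L[ℝ] ℝ := fun m => dv f (X m, v m) - τ m • dx f (X m, v m) with hPh
  set e : ℕ → ℝ := fun m => ‖X m - γ (t m)‖ + ‖Ph m - P (t m)‖ with he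
  have henn : ∀ m, 0 ≤ e m := fun m => by positivity
  have hdxn : ∀ m, ‖dx f (X m, v m)‖ ≤ Cx := fun m => hCx _ _ (hvR m)
  have hmom : ∀ m ≤ N, ‖dv f (X m, v m) - P (t m)‖ ≤ ‖Ph m - P (t m)‖ + Cx * κ := by
    intro m hm
    have e1 : dv f (X m, v m) - P (t m) = (Ph m - P (t m)) + τ m • dx f (X m, v m) := by
      simp only [hPh]; abel
    rw [e1]
    refine (norm_add_le _ _).trans ?_
    gcongr
    rw [norm_smul, Real.norm_of_nonneg (hτ0 m hm).le, mul_comm]
    exact mul_le_mul (hdxn m) (hτκ m hm).le (hτ0 m hm).le hCx0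
  have hvel : ∀ m ≤ N, ‖v m - γ' (t m)‖ ≤ ((M1 + 1) * e m + Cx * κ) / lam := by
    intro m hm
    rw [le_div_iff₀ hlam, mul_comm]
    refine (vel_from_mom hlam hsm hLip1 (x := X m) (y := γ (t m)) (hvR m)
      (hγR _ (htI m hm))).trans ?_
    have a1 := hmom m hm
    have a2 : M1 * ‖X m - γ (t m)‖ ≤ M1 * e m := by
      apply mul_le_mul_of_nonneg_left _ hM10
      simp only [he]
      linarith [norm_nonneg (Ph m - P (t m))]
    have a3 : ‖Ph m - P (t m)‖ ≤ e m := by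
      simp only [he]
      linarith [norm_nonneg (X m - γ (t m))]
    have a4 : dv f (X m, v m) - dv f (γ (t m), γ' (t m)) = dv f (X m, v m) - P (t m) := rfl
    rw [a4]
    linarith
  have hpair : ∀ m ≤ N, ‖((X m, v m) : E × E) - (γ (t m), γ' (t m))‖ ≤
      e m + ((M1 + 1) * e m + Cx * κ) / lam := by
    intro m hm
    have e1 : ((X m, v m) : E × E) - (γ (t m), γ' (t m)) = (X m - γ (t m), v m - γ' (t m)) := rfl
    rw [e1, Prod.norm_def]
    have a1 := hvel m hm
    have a2 : ‖X m - γ (t m)‖ ≤ e m := by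
      simp only [he]
      linarith [norm_nonneg (Ph m - P (t m))]
    have a3 : 0 ≤ ((M1 + 1) * e m + Cx * κ) / lam := by
      have := henn m
      positivity
    apply max_le
    · simp only; linarith
    · simp only; linarith [henn m]
  have hrec : ∀ m < N, e (m + 1) ≤ (1 + A * τ m) * e m + (B * κ) * τ m := by
    intro m hm
    have hτm := hτ0 m hm.le
    have b1 : ‖X (m + 1) - γ (t (m + 1))‖ ≤ ‖X m - γ (t m)‖ +
        τ m * ‖v m - γ' (t m)‖ + κ * τ m := by
      have e1 : X (m + 1) - γ (t (m + 1)) = (X m - γ (t m)) + τ m • (v m - γ' (t m)) -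
          (γ (t (m + 1)) - γ (t m) - τ m • γ' (t m)) := by
        rw [hX m hm]; module
      rw [e1]
      refine (norm_sub_le _ _).trans ?_
      refine add_le_add ((norm_add_le _ _).trans ?_) (tay1 m hm)
      rw [norm_smul, Real.norm_of_nonneg hτm.le]
    have b2 : ‖Ph (m + 1) - P (t (m + 1))‖ ≤ ‖Ph m - P (t m)‖ +
        τ m * ‖dx f (X m, v m) - dx f (γ (t m), γ' (t m))‖ + κ * τ m := by
      have e0 : Ph (m + 1) = dv f (X m, v m) := by
        simp only [hPh]
        rw [← hEL m hm]; abel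
      have e1 : Ph (m + 1) - P (t (m + 1)) = (Ph m - P (t m)) +
          τ m • (dx f (X m, v m) - dx f (γ (t m), γ' (t m))) -
          (P (t (m + 1)) - P (t m) - τ m • dx f (γ (t m), γ' (t m))) := by
        rw [e0]
        simp only [hPh]
        rw [smul_sub]
        abel
      rw [e1]
      refine (norm_sub_le _ _).trans ?_
      refine add_le_add ((norm_add_le _ _).trans ?_) (tay2 m hm)
      rw [norm_smul, Real.norm_of_nonneg hτm.le]
    have b3 : ‖dx f (X m, v m) - dx f (γ (t m), γ' (t m))‖ ≤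
        M2 * (e m + ((M1 + 1) * e m + Cx * κ) / lam) := by
      refine (hLip2 (γ (t m), γ' (t m)) (X m, v m) (hγR _ (htI m hm.le)) (hvR m)).trans ?_
      exact mul_le_mul_of_nonneg_left (hpair m hm.le) hM20
    have b4 := hvel m hm.le
    have b5 : e (m + 1) ≤ e m + τ m * (((M1 + 1) * e m + Cx * κ) / lam) +
        τ m * (M2 * (e m + ((M1 + 1) * e m + Cx * κ) / lam)) + 2 * (κ * τ m) := by
      have c1 := mul_le_mul_of_nonneg_left b3 hτm.le
      have c2 := mul_le_mul_of_nonneg_left b4 hτm.le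
      simp only [he] at c1 c2 ⊢
      linarith
    refine b5.trans (le_of_eq ?_)
    simp only [hA, hB]
    field_simp
    ring
  have hgr := gronwall_lin hA0 (by positivity : 0 ≤ B * κ) N (fun m hm => (hτ0 m hm.le).le)
    (henn 0) hrec
  -- initial error
  have he0 : e 0 ≤ (1 + M1 + Cx) * κ := by
    have a1 : ‖X 0 - γ 0‖ ≤ κ := (hX0.trans_le (min_le_left _ _)).le
    have a2 : ‖v 0 - γ' 0‖ ≤ κ := (hv0.trans_le (min_le_left _ _)).le
    have hγ0 : ‖γ' 0‖ ≤ R := hγR 0 ⟨le_refl _, hT.le⟩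
    have a3 : ‖dv f (X 0, v 0) - dv f (γ 0, γ' 0)‖ ≤ M1 * κ := by
      refine (hLip1 (γ 0, γ' 0) (X 0, v 0) hγ0 (hvR 0)).trans ?_
      apply mul_le_mul_of_nonneg_left _ hM10
      have e1 : ((X 0, v 0) : E × E) - (γ 0, γ' 0) = (X 0 - γ 0, v 0 - γ' 0) := rfl
      rw [e1, Prod.norm_def]
      exact max_le a1 a2
    have a4 : ‖Ph 0 - P (t 0)‖ ≤ M1 * κ + Cx * κ := by
      have e1 : Ph 0 - P (t 0) = (dv f (X 0, v 0) - dv f (γ 0, γ' 0)) -
          τ 0 • dx f (X 0, v 0) := by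
        simp only [hPh, hP, ht0]; abel
      rw [e1]
      refine (norm_sub_le _ _).trans (add_le_add a3 ?_)
      rw [norm_smul, Real.norm_of_nonneg (hτ0 0 (Nat.zero_le _)).le, mul_comm]
      exact mul_le_mul (hdxn 0) (hτκ 0 (Nat.zero_le _)).le (hτ0 0 (Nat.zero_le _)).le hCx0
    simp only [he, ht0]
    rw [ht0] at a4
    linarith
  have heall : ∀ m ≤ N, e m ≤ C6 * κ := by
    intro m hm
    refine (hgr m hm).trans ?_
    have a1 : ∑ j ∈ Finset.range m, τ j ≤ T := htle m hm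
    have a2 : 0 ≤ ∑ j ∈ Finset.range m, τ j := htnn m hm
    have a3 : e 0 + B * κ * ∑ j ∈ Finset.range m, τ j ≤ ((1 + M1 + Cx) + B * T) * κ := by
      have : B * κ * ∑ j ∈ Finset.range m, τ j ≤ B * κ * T :=
        mul_le_mul_of_nonneg_left a1 (by positivity)
      linarith
    have a4 : Real.exp (A * ∑ j ∈ Finset.range m, τ j) ≤ Real.exp (A * T) :=
      Real.exp_le_exp.mpr (mul_le_mul_of_nonneg_left a1 hA0)
    calc _ ≤ (((1 + M1 + Cx) + B * T) * κ) * Real.exp (A * T) :=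
          mul_le_mul a3 a4 (Real.exp_pos _).le (by positivity)
      _ = C6 * κ := by rw [hC6]; ring
  have hfin1 : ‖X N - γ T‖ ≤ C6 * κ := by
    have a1 := heall N le_rfl
    simp only [he, htN] at a1
    linarith [norm_nonneg (Ph N - P T)]
  have hfin2 : ‖dv f (X N, v N) - dv f (γ T, γ' T)‖ ≤ C6 * κ + Cx * κ := by
    have a0 := hmom N le_rfl
    have a1 := heall N le_rfl
    simp only [he] at a1
    rw [htN] at a0 a1
    have a2 : dv f (X N, v N) - dv f (γ T, γ' T) = dv f (X N, v N) - P T := rfl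
    rw [a2]
    linarith [norm_nonneg (X N - γ T)]
  -- the action
  set c8 : ℝ := M3 * (C6 * κ + ((M1 + 1) * (C6 * κ) + Cx * κ) / lam) + κ with hc8
  have hact : ∀ m ≤ N, |∑ j ∈ Finset.range m, τ j * f (X j, v j) - W (t m)| ≤ c8 * t m := by
    intro m
    induction m with
    | zero => intro _; simp [hW, ht0]
    | succ m ih =>
      intro hm
      have hm' : m < N := by omega
      have a1 := ih hm'.le
      have a2 := tay3 m hm'
      rw [Real.norm_eq_abs, smul_eq_mul] at a2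
      have a3 : |f (X m, v m) - f (γ (t m), γ' (t m))| ≤
          M3 * (C6 * κ + ((M1 + 1) * (C6 * κ) + Cx * κ) / lam) := by
        rw [← Real.norm_eq_abs]
        refine (hLip3 (γ (t m), γ' (t m)) (X m, v m) (hγR _ (htI m hm'.le)) (hvR m)).trans ?_
        apply mul_le_mul_of_nonneg_left _ hM30
        refine (hpair m hm'.le).trans ?_
        have := heall m hm'.le
        gcongr
      rw [Finset.sum_range_succ, hts]
      rw [hts] at a2
      have hτm := (hτ0 m hm'.le).le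
      have a4 := mul_le_mul_of_nonneg_left a3 hτm
      rw [← abs_of_nonneg hτm, ← abs_mul, abs_of_nonneg hτm] at a4
      have e1 : ∑ j ∈ Finset.range m, τ j * f (X j, v j) + τ m * f (X m, v m) - W (t m + τ m) =
          (∑ j ∈ Finset.range m, τ j * f (X j, v j) - W (t m)) +
          τ m * (f (X m, v m) - f (γ (t m), γ' (t m))) -
          (W (t m + τ m) - W (t m) - τ m * f (γ (t m), γ' (t m))) := by ring
      rw [e1]
      have b1 := abs_sub ((∑ j ∈ Finset.range m, τ j * f (X j, v j) - W (t m)) +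
          τ m * (f (X m, v m) - f (γ (t m), γ' (t m))))
          (W (t m + τ m) - W (t m) - τ m * f (γ (t m), γ' (t m)))
      have b2 := abs_add_le (∑ j ∈ Finset.range m, τ j * f (X j, v j) - W (t m))
          (τ m * (f (X m, v m) - f (γ (t m), γ' (t m))))
      rw [hc8] at a1 ⊢
      nlinarith
  have hfin3 : |∑ m ∈ Finset.range N, τ m * f (X m, v m) - ∫ t in (0 : ℝ)..T, f (γ t, γ' t)| ≤
      C7 * κ := by
    have a1 := hact N le_rfl
    rw [htN] at a1
    refine a1.trans (le_of_eq ?_)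
    rw [hc8, hC7]
    field_simp
  have k1 : 0 ≤ C6 * κ := by positivity
  have k2 : 0 ≤ Cx * κ := by positivity
  have k3 : 0 ≤ C7 * κ := by positivity
  refine ⟨?_, ?_, ?_⟩
  · nlinarith
  · nlinarith
  · nlinarith

end Pool.Agent.Work.MP_c99f5e_an
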