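import Pool.Agent.Work.MP_c99f5e_an.Form

/-!
# A closed form that is nonnegative along the graph and positive at a recurrent point
-/

set_option autoImplicit false

open Filter Topology Set MeasureTheory

namespace Pool.Agent.Work.MP_c99f5e_an

/-- sign computation on the long piece -/
lemma sign_piece1 {s0 θe B m0 : ℝ} {g d : E} (hs0 : s0 * s0 = 1) (hθ0 : 0 < θe) (hθ1 : θe ≤ 1)
    (hm0 : 0 < m0) (hm : m0 ≤ ‖g‖) (hB : ‖g‖ ≤ B) (hd : 2 * B * ‖d‖ ≤ θe * m0 ^ 2 / 2) :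
    0 < s0 * detL (g + (s0 * θe) • J g) (g + d) := by
  have e : s0 * detL (g + (s0 * θe) • J g) (g + d) =
      s0 * detL g d + (s0 * s0) * θe * (‖g‖ ^ 2 + detL (J g) d) := by
    rw [← detL_J g]
    simp only [add_apply, smul_apply, smul_eq_mul, map_add, map_smul, detL_self]
    ring
  rw [e, hs0, one_mul]
  have h1 := abs_detL_le g d
  have h2 := abs_detL_le (J g) d
  rw [norm_J] at h2
  have hs1 : |s0| = 1 := by
    have : |s0| * |s0| = 1 := by rw [← abs_mul, hs0, abs_one]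
    nlinarith [abs_nonneg s0]
  have h3 : -(‖g‖ * ‖d‖) ≤ s0 * detL g d := by
    have : |s0 * detL g d| ≤ ‖g‖ * ‖d‖ := by rw [abs_mul, hs1, one_mul]; exact h1
    exact (abs_le.mp this).1
  have h4 := (abs_le.mp h2).1
  have h5 : ‖g‖ * ‖d‖ ≤ B * ‖d‖ := mul_le_mul_of_nonneg_right hB (norm_nonneg _)
  have h6 : θe * (-(‖g‖ * ‖d‖)) ≤ θe * detL (J g) d := mul_le_mul_of_nonneg_left h4 hθ0.le
  have h7 : θe * (‖g‖ * ‖d‖) ≤ B * ‖d‖ := by
    calc θe * (‖g‖ * ‖d‖) ≤ 1 * (‖g‖ * ‖d‖) :=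
          mul_le_mul_of_nonneg_right hθ1 (by positivity)
      _ ≤ B * ‖d‖ := by rw [one_mul]; exact h5
  have h8 : θe * m0 ^ 2 ≤ θe * ‖g‖ ^ 2 := by gcongr
  have h9 : 0 < θe * m0 ^ 2 := by positivity
  nlinarith

/-- sign computation on the short piece -/
lemma sign_piece2 {s0 σ : ℝ} {v I d : E} (hs1 : |s0| = 1) (hsσ : s0 * σ = -|σ|) (hσ : σ ≠ 0)
    (hv : v ≠ 0) (hI : ‖I‖ ≤ |σ| * ‖v‖ / 8) (hd : ‖d‖ ≤ ‖v‖ / 8) :
    0 < s0 * detL (-(σ • J v) - I) (v + d) := by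
  have hn : 0 < ‖v‖ := norm_pos_iff.mpr hv
  have hσ' : 0 < |σ| := abs_pos.mpr hσ
  have e : s0 * detL (-(σ • J v) - I) (v + d) =
      -(s0 * σ) * (‖v‖ ^ 2 + detL (J v) d) - s0 * detL I (v + d) := by
    rw [← detL_J v]
    simp only [map_sub, map_neg, map_smul, sub_apply, smul_apply, neg_apply,
      smul_eq_mul, map_add]
    ring
  rw [e, hsσ, neg_neg]
  have h2 := abs_detL_le (J v) d
  rw [norm_J] at h2
  have h4 := (abs_le.mp h2).1
  have h5 : |s0 * detL I (v + d)| ≤ ‖I‖ * ‖v + d‖ := by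
    rw [abs_mul, hs1, one_mul]; exact abs_detL_le _ _
  have h6 := (abs_le.mp h5).2
  have h7 : ‖v + d‖ ≤ 9 / 8 * ‖v‖ := (norm_add_le _ _).trans (by linarith)
  have h8 : ‖I‖ * ‖v + d‖ ≤ (|σ| * ‖v‖ / 8) * (9 / 8 * ‖v‖) :=
    mul_le_mul hI h7 (norm_nonneg _) (by positivity)
  have h9 : ‖v‖ * ‖d‖ ≤ ‖v‖ * (‖v‖ / 8) := mul_le_mul_of_nonneg_left hd hn.le
  have h10 : |σ| * (7 / 8 * ‖v‖ ^ 2) ≤ |σ| * (‖v‖ ^ 2 + detL (J v) d) := by
    apply mul_le_mul_of_nonneg_left _ hσ'.le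
    nlinarith
  have h11 : 0 < |σ| * ‖v‖ ^ 2 := by positivity
  nlinarith

theorem exists_form {P : E → E → Prop} (hPper : ∀ (k : Fin 2 → ℤ) x w, P x w → P (x + ι k) w)
    {V : E → E} {Λ : ℝ} (hΛ : 0 ≤ Λ) (hV : ∀ x y, ‖V x - V y‖ ≤ Λ * ‖x - y‖)
    (hPV : ∀ x w, P x w → V x = w)
    {γ γ' : ℝ → E} (hγ : ∀ t, HasDerivAt γ (γ' t) t) (hγ' : Continuous γ')
    (hPγ : ∀ t, P (γ t) (γ' t)) (hne : ∀ t, γ' t ≠ 0)
    {T : ℝ} (hT : 0 < T) {k : Fin 2 → ℤ} {σ : ℝ} (hσ : σ ≠ 0)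
    (hclose : γ T = γ 0 + ι k + σ • J (γ' 0)) (hσs : Λ * |σ| ≤ 1 / 32)
    (hrec : ∀ ε > 0, ∃ t ≥ (1 : ℝ), ∃ k : Fin 2 → ℤ, ‖γ t - γ 0 - ι k‖ < ε) :
    ∃ (ω : E → E →L[ℝ] ℝ) (F : E → ℝ) (c : E) (δ : ℝ), 0 < δ ∧ Continuous ω ∧
      (∀ (k : Fin 2 → ℤ) x, ω (x + ι k) = ω x) ∧ (∀ x, HasFDerivAt F (ω x) x) ∧
      (∀ (k : Fin 2 → ℤ) x, F (x + ι k) = F x + inner ℝ c (ι k)) ∧ c ≠ 0 ∧
      ∀ x w x' w', P x' w' → ‖x - x'‖ ≤ δ → ‖w - w'‖ ≤ δ → 0 ≤ ω x w := by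
  have hγc : Continuous γ := continuous_iff_continuousAt.mpr (fun s => (hγ s).continuousAt)
  -- constants
  have hI0 : (0 : ℝ) ∈ Icc (0 : ℝ) T := ⟨le_rfl, hT.le⟩
  obtain ⟨B, hB⟩ := (isCompact_Icc (a := (0 : ℝ)) (b := T)).exists_bound_of_continuousOn
    hγ'.continuousOn
  obtain ⟨sm, hsm, hmin⟩ := (isCompact_Icc (a := (0 : ℝ)) (b := T)).exists_isMinOn ⟨0, hI0⟩
    hγ'.norm.continuousOn
  set m0 := ‖γ' sm‖ with hm0def
  have hm0 : 0 < m0 := norm_pos_iff.mpr (hne sm)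
  have hm : ∀ s ∈ Icc (0 : ℝ) T, m0 ≤ ‖γ' s‖ := fun s hs => hmin hs
  set n0 := ‖γ' 0‖ with hn0def
  have hn0 : 0 < n0 := norm_pos_iff.mpr (hne 0)
  have hB0 : 0 < B := lt_of_lt_of_le hn0 (hB 0 hI0)
  obtain ⟨s0, hs0, hsσ⟩ : ∃ s0 : ℝ, s0 * s0 = 1 ∧ s0 * σ = -|σ| := by
    rcases lt_or_gt_of_ne hσ with h | h
    · exact ⟨1, by norm_num, by rw [abs_of_neg h]; ring⟩
    · exact ⟨-1, by norm_num, by rw [abs_of_pos h]; ring⟩
  have hs1 : |s0| = 1 := by
    have : |s0| * |s0| = 1 := by rw [← abs_mul, hs0, abs_one]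
    nlinarith [abs_nonneg s0]
  have hσ' : 0 < |σ| := abs_pos.mpr hσ
  set C := 8 * B ^ 2 * Λ / m0 ^ 2 + 1 with hC
  have hC1 : 0 < C := by positivity
  have hC2 : 2 * B ^ 2 * Λ / C ≤ m0 ^ 2 / 4 := by
    rw [div_le_div_iff₀ hC1 (by norm_num)]
    have : m0 ^ 2 * C = 8 * B ^ 2 * Λ + m0 ^ 2 := by
      rw [hC]; field_simp
    rw [this]
    have : 0 ≤ m0 ^ 2 := by positivity
    linarith
  obtain ⟨θ, hθ0, hθ1, hθ2⟩ : ∃ θ : ℝ, 0 < θ ∧ θ * Real.exp (C * T) ≤ 1 ∧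
      θ * B * Real.exp (C * T) / C ≤ |σ| * n0 / 8 := by
    have hE : 0 < Real.exp (C * T) := Real.exp_pos _
    refine ⟨min (Real.exp (C * T))⁻¹ (|σ| * n0 / 8 * C / B / Real.exp (C * T)),
      lt_min (by positivity) (by positivity), ?_, ?_⟩
    · calc _ ≤ (Real.exp (C * T))⁻¹ * Real.exp (C * T) :=
            mul_le_mul_of_nonneg_right (min_le_left _ _) hE.le
        _ = 1 := inv_mul_cancel₀ hE.ne'
    · calc _ ≤ (|σ| * n0 / 8 * C / B / Real.exp (C * T)) * B * Real.exp (C * T) / C := by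
            gcongr
            exact min_le_right _ _
        _ = |σ| * n0 / 8 := by field_simp
  -- the perturbed curve
  set g : ℝ → E := fun r => (s0 * (θ * Real.exp (C * r))) • J (γ' r) with hg
  have hgc : Continuous g := by
    have h1 : Continuous (fun r : ℝ => s0 * (θ * Real.exp (C * r))) := by fun_prop
    exact h1.smul (continuous_J.comp hγ')
  set I : ℝ → E := fun s => ∫ r in (0 : ℝ)..s, g r with hI
  have hId : ∀ s, HasDerivAt I (g s) s := fun s =>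
    intervalIntegral.integral_hasDerivAt_right (hgc.intervalIntegrable _ _)
      hgc.stronglyMeasurable.stronglyMeasurableAtFilter hgc.continuousAt
  have hIz : I 0 = 0 := by simp [hI]
  have hIb : ∀ s ∈ Icc (0 : ℝ) T, ‖I s‖ ≤ θ * Real.exp (C * s) * B / C := by
    intro s hs
    have hgb : ∀ r ∈ Icc (0 : ℝ) s, ‖g r‖ ≤ θ * B * Real.exp (C * r) := by
      intro r hr
      simp only [hg]
      rw [norm_smul, norm_J, Real.norm_eq_abs, abs_mul, hs1, one_mul,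
        abs_of_pos (by positivity)]
      have := hB r ⟨hr.1, hr.2.trans hs.2⟩
      have h2 : 0 < θ * Real.exp (C * r) := by positivity
      nlinarith
    have hec : Continuous (fun r : ℝ => θ * B * Real.exp (C * r)) := by fun_prop
    have h1 : ‖I s‖ ≤ ∫ r in (0 : ℝ)..s, θ * B * Real.exp (C * r) := by
      apply intervalIntegral.norm_integral_le_of_norm_le hs.1 _ (hec.intervalIntegrable _ _)
      exact Eventually.of_forall (fun r hr => hgb r (Ioc_subset_Icc_self hr))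
    have h2 : ∀ r : ℝ, HasDerivAt (fun r => θ * B / C * Real.exp (C * r))
        (θ * B * Real.exp (C * r)) r := by
      intro r
      have h3 : HasDerivAt (fun r : ℝ => C * r) C r := by
        have := (hasDerivAt_id r).const_mul C
        rw [mul_one] at this
        exact this
      have h4 := (h3.exp).const_mul (θ * B / C)
      have e : θ * B / C * (Real.exp (C * r) * C) = θ * B * Real.exp (C * r) := by
        field_simp
      rw [e] at h4
      exact h4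
    rw [intervalIntegral.integral_eq_sub_of_hasDerivAt (fun r _ => h2 r)
      (hec.intervalIntegrable _ _)] at h1
    refine h1.trans ?_
    have h5 : 0 < θ * B / C * Real.exp (C * 0) := by positivity
    have e : θ * Real.exp (C * s) * B / C = θ * B / C * Real.exp (C * s) := by ring
    rw [e]
    linarith
  set Γ : ℝ → E := fun s => γ s + I s with hΓ
  set Γ' : ℝ → E := fun s => γ' s + g s with hΓ'
  have hΓd : ∀ s, HasDerivAt Γ (Γ' s) s := fun s => (hγ s).add (hId s)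
  have hΓ'c : Continuous Γ' := hγ'.add hgc
  have hΓ0 : Γ 0 = γ 0 := by simp only [hΓ, hIz, add_zero]
  set ξ : E := γ 0 + ι k - Γ T with hξ
  have hcl : Γ T + ξ = Γ 0 + ι k := by rw [hξ, hΓ0]; abel
  have hξe : ξ = -(σ • J (γ' 0)) - I T := by
    simp only [hξ, hΓ, hclose]; abel
  have hIT : ‖I T‖ ≤ |σ| * n0 / 8 := by
    have := hIb T ⟨hT.le, le_rfl⟩
    refine this.trans (le_trans (le_of_eq ?_) hθ2)
    ring
  have hξn : ‖ξ‖ ≤ 9 / 8 * (|σ| * n0) := by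
    rw [hξe]
    refine (norm_sub_le _ _).trans ?_
    rw [norm_neg, norm_smul, norm_J, Real.norm_eq_abs]
    linarith
  -- delta
  obtain ⟨δ, hδ0, hδ1, hδ2⟩ : ∃ δ : ℝ, 0 < δ ∧ 2 * B * ((1 + 2 * Λ) * δ) ≤ θ * m0 ^ 2 / 4 ∧
      (1 + 2 * Λ) * δ ≤ n0 / 16 := by
    have hL : 0 < 1 + 2 * Λ := by linarith
    refine ⟨min (θ * m0 ^ 2 / 4 / (2 * B) / (1 + 2 * Λ)) (n0 / 16 / (1 + 2 * Λ)),
      lt_min (by positivity) (by positivity), ?_, ?_⟩
    · calc _ ≤ 2 * B * ((1 + 2 * Λ) * (θ * m0 ^ 2 / 4 / (2 * B) / (1 + 2 * Λ))) := by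
            gcongr
            exact min_le_left _ _
        _ = θ * m0 ^ 2 / 4 := by field_simp
    · calc _ ≤ (1 + 2 * Λ) * (n0 / 16 / (1 + 2 * Λ)) := by
            gcongr
            exact min_le_right _ _
        _ = n0 / 16 := by field_simp
  -- sign on piece 1
  have sgn1 : ∀ s ∈ Icc (0 : ℝ) T, ∀ w : E,
      ‖w - γ' s‖ ≤ (1 + 2 * Λ) * δ + Λ * (θ * Real.exp (C * s) * B / C) →
      0 < s0 * detL (Γ' s) w := by
    intro s hs w hw
    set θe := θ * Real.exp (C * s) with hθe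
    have hθe0 : 0 < θe := by positivity
    have hexp1 : 1 ≤ Real.exp (C * s) := Real.one_le_exp (mul_nonneg hC1.le hs.1)
    have hexp2 : Real.exp (C * s) ≤ Real.exp (C * T) :=
      Real.exp_le_exp.mpr (mul_le_mul_of_nonneg_left hs.2 hC1.le)
    have hθe1 : θe ≤ 1 := (mul_le_mul_of_nonneg_left hexp2 hθ0.le).trans hθ1
    have hθθe : θ ≤ θe := le_mul_of_one_le_right hθ0.le hexp1
    have key := sign_piece1 (g := γ' s) (d := w - γ' s) (B := B) hs0 hθe0 hθe1 hm0 (hm s hs)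
      (hB s hs) (by
        have h1 : 2 * B * ‖w - γ' s‖ ≤ 2 * B * ((1 + 2 * Λ) * δ + Λ * (θe * B / C)) :=
          mul_le_mul_of_nonneg_left hw (by positivity)
        have h2 : 2 * B * (Λ * (θe * B / C)) = θe * (2 * B ^ 2 * Λ / C) := by ring
        have h3 : θe * (2 * B ^ 2 * Λ / C) ≤ θe * (m0 ^ 2 / 4) :=
          mul_le_mul_of_nonneg_left hC2 hθe0.le
        have h4 : θ * m0 ^ 2 / 4 ≤ θe * m0 ^ 2 / 4 := by gcongr
        rw [mul_add, h2] at h1
        linarith)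
    have e1 : γ' s + (w - γ' s) = w := by abel
    rw [e1] at key
    exact key
  -- sign on piece 2
  have sgn2 : ∀ w : E, ‖w - γ' 0‖ ≤ n0 / 8 → 0 < s0 * detL ξ w := by
    intro w hw
    have key := sign_piece2 (v := γ' 0) (I := I T) (d := w - γ' 0) hs1 hsσ hσ (hne 0) hIT hw
    have e1 : γ' 0 + (w - γ' 0) = w := by abel
    rw [e1, ← hξe] at key
    exact key
  -- the form
  have hρ : 0 < 8 * δ ^ 2 := by positivity
  obtain ⟨ω, F, c, hωc, hωp, hF, hFp, hωe⟩ := exists_closed_form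
    ((contDiff_bump (8 * δ ^ 2)).of_le (by norm_num)) (bump_per (8 * δ ^ 2)) hΓd hΓ'c hcl s0
  have hshift : ∀ x w x' w' y : E, P x' w' → ‖x - x'‖ ≤ δ → ‖w - w'‖ ≤ δ →
      bump (8 * δ ^ 2) (x - y) ≠ 0 → ∃ x'', V x'' = w' ∧ ‖x'' - y‖ ≤ 2 * δ := by
    intro x w x' w' y hP hx hw hb
    obtain ⟨m, hm'⟩ := bump_supp hδ0 hb
    refine ⟨x' + ι (-m), hPV _ _ (hPper _ _ _ hP), ?_⟩
    have e : x' + ι (-m) - y = (x - y - ι m) - (x - x') := by rw [ι_neg]; abel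
    rw [e]
    exact (norm_sub_le _ _).trans (by linarith)
  have hpos1 : ∀ x w x' w', P x' w' → ‖x - x'‖ ≤ δ → ‖w - w'‖ ≤ δ → ∀ s ∈ Icc (0 : ℝ) T,
      0 ≤ bump (8 * δ ^ 2) (x - Γ s) * (s0 * detL (Γ' s) w) := by
    intro x w x' w' hP hx hw s hs
    by_cases hb : bump (8 * δ ^ 2) (x - Γ s) = 0
    · rw [hb, zero_mul]
    apply mul_nonneg (bump_nonneg _ _)
    obtain ⟨x'', h1, h2⟩ := hshift x w x' w' (Γ s) hP hx hw hb
    apply (sgn1 s hs w _).le
    have h3 : V (γ s) = γ' s := hPV _ _ (hPγ s)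
    have e : w - γ' s = (w - w') + (V x'' - V (γ s)) := by rw [h1, h3]; abel
    rw [e]
    refine (norm_add_le _ _).trans ?_
    have h4 : ‖x'' - γ s‖ ≤ 2 * δ + θ * Real.exp (C * s) * B / C := by
      have e2 : x'' - γ s = (x'' - Γ s) + I s := by simp only [hΓ]; abel
      rw [e2]
      exact (norm_add_le _ _).trans (add_le_add h2 (hIb s hs))
    have h5 := (hV x'' (γ s)).trans (mul_le_mul_of_nonneg_left h4 hΛ)
    linarith
  have hpos2 : ∀ x w x' w', P x' w' → ‖x - x'‖ ≤ δ → ‖w - w'‖ ≤ δ → ∀ s ∈ Icc (0 : ℝ) 1,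
      0 ≤ bump (8 * δ ^ 2) (x - (Γ T + s • ξ)) * (s0 * detL ξ w) := by
    intro x w x' w' hP hx hw s hs
    by_cases hb : bump (8 * δ ^ 2) (x - (Γ T + s • ξ)) = 0
    · rw [hb, zero_mul]
    apply mul_nonneg (bump_nonneg _ _)
    obtain ⟨x'', h1, h2⟩ := hshift x w x' w' _ hP hx hw hb
    apply (sgn2 w _).le
    have h3 : V (γ 0 + ι k) = γ' 0 := hPV _ _ (hPper _ _ _ (hPγ 0))
    have e : w - γ' 0 = (w - w') + (V x'' - V (γ 0 + ι k)) := by rw [h1, h3]; abel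
    rw [e]
    refine (norm_add_le _ _).trans ?_
    have h4 : ‖x'' - (γ 0 + ι k)‖ ≤ 2 * δ + 9 / 8 * (|σ| * n0) := by
      have e2 : x'' - (γ 0 + ι k) = (x'' - (Γ T + s • ξ)) - (1 - s) • ξ := by
        have : γ 0 + ι k = Γ T + ξ := by rw [hcl, hΓ0]
        rw [this, sub_smul, one_smul]; abel
      rw [e2]
      refine (norm_sub_le _ _).trans (add_le_add h2 ?_)
      rw [norm_smul, Real.norm_of_nonneg (by linarith [hs.2])]
      calc (1 - s) * ‖ξ‖ ≤ 1 * ‖ξ‖ :=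
            mul_le_mul_of_nonneg_right (by linarith [hs.1]) (norm_nonneg _)
        _ ≤ _ := by rw [one_mul]; exact hξn
    have h5 := (hV x'' (γ 0 + ι k)).trans (mul_le_mul_of_nonneg_left h4 hΛ)
    have h6 : Λ * (9 / 8 * (|σ| * n0)) = 9 / 8 * ((Λ * |σ|) * n0) := by ring
    have h7 : (Λ * |σ|) * n0 ≤ 1 / 32 * n0 := mul_le_mul_of_nonneg_right hσs hn0.le
    rw [mul_add] at h5
    linarith
  have hnn : ∀ x w x' w', P x' w' → ‖x - x'‖ ≤ δ → ‖w - w'‖ ≤ δ → 0 ≤ ω x w := by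
    intro x w x' w' hP hx hw
    rw [hωe]
    apply add_nonneg
    · exact intervalIntegral.integral_nonneg hT.le (hpos1 x w x' w' hP hx hw)
    · exact intervalIntegral.integral_nonneg zero_le_one (hpos2 x w x' w' hP hx hw)
  have hnnγ : ∀ t, 0 ≤ ω (γ t) (γ' t) := fun t =>
    hnn _ _ _ _ (hPγ t) (by simp [hδ0.le]) (by simp [hδ0.le])
  have hposγ : 0 < ω (γ 0) (γ' 0) := by
    rw [hωe]
    have hΓc : Continuous Γ := continuous_iff_continuousAt.mpr (fun s => (hΓd s).continuousAt)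
    have hbc : Continuous (bump (8 * δ ^ 2)) := (contDiff_bump _).continuous
    apply add_pos_of_pos_of_nonneg
    · apply intervalIntegral.integral_pos hT
      · apply Continuous.continuousOn
        have h1 : Continuous (fun s => bump (8 * δ ^ 2) (γ 0 - Γ s)) :=
          hbc.comp (continuous_const.sub hΓc)
        have h2 : Continuous (fun s => detL (Γ' s) (γ' 0)) :=
          (detL.continuous.comp hΓ'c).clm_apply continuous_const
        exact h1.mul (continuous_const.mul h2)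
      · intro s hs
        exact hpos1 _ _ _ _ (hPγ 0) (by simp [hδ0.le]) (by simp [hδ0.le]) s (Ioc_subset_Icc_self hs)
      · refine ⟨0, hI0, ?_⟩
        rw [hΓ0, sub_self]
        apply mul_pos (bump_zero_pos hρ)
        apply sgn1 0 hI0
        rw [sub_self, norm_zero]
        have : 0 ≤ θ * Real.exp (C * 0) * B / C := by positivity
        positivity
    · exact intervalIntegral.integral_nonneg zero_le_one
        (hpos2 _ _ _ _ (hPγ 0) (by simp [hδ0.le]) (by simp [hδ0.le]))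
  refine ⟨ω, F, c, δ, hδ0, hωc, hωp, hF, hFp, ?_, hnn⟩
  -- the class is nontrivial
  intro hc
  have hFper : ∀ (k : Fin 2 → ℤ) x, F (x + ι k) = F x := by
    intro k x
    rw [hFp, hc, inner_zero_left, add_zero]
  have hFc : Continuous F := continuous_iff_continuousAt.mpr (fun x => (hF x).continuousAt)
  have hcomp : ∀ t, HasDerivAt (fun t => F (γ t)) (ω (γ t) (γ' t)) t := fun t =>
    (hF (γ t)).comp_hasDerivAt t (hγ t)
  have hωγc : Continuous (fun t => ω (γ t) (γ' t)) := (hωc.comp hγc).clm_apply hγ'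
  have hmono : Monotone (fun t => F (γ t)) :=
    monotone_of_hasDerivAt_nonneg hcomp hnnγ
  have hint : 0 < F (γ 1) - F (γ 0) := by
    rw [← intervalIntegral.integral_eq_sub_of_hasDerivAt (fun t _ => hcomp t)
      (hωγc.intervalIntegrable 0 1)]
    exact intervalIntegral.integral_pos one_pos hωγc.continuousOn (fun t _ => hnnγ t)
      ⟨0, ⟨le_rfl, zero_le_one⟩, hposγ⟩
  obtain ⟨ε, hε, hε2⟩ := (Metric.continuous_iff.mp hFc) (γ 0) _ hint
  obtain ⟨t, ht, m, hm2⟩ := hrec ε hε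
  have h1 := hε2 (γ t - ι m) (by
    rw [dist_eq_norm]
    have : γ t - ι m - γ 0 = γ t - γ 0 - ι m := by abel
    rw [this]; exact hm2)
  have h2 : F (γ t - ι m) = F (γ t) := by
    have : γ t - ι m = γ t + ι (-m) := by rw [ι_neg]; abel
    rw [this, hFper]
  rw [h2, Real.dist_eq] at h1
  have h3 : F (γ 1) ≤ F (γ t) := hmono ht
  have h4 := (abs_lt.mp h1).2
  linarith

end Pool.Agent.Work.MP_c99f5e_an
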