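import Mathlib

/-!
# MP_c99f5e: definitions (autonomous Tonelli Lagrangians on the two-torus, Mather theory)
-/

set_option autoImplicit false

open MeasureTheory Filter Topology

namespace Pool.Agent.Work.MP_c99f5e_an

/-- The plane `ℝ²` with its Euclidean norm. -/
abbrev E : Type := EuclideanSpace ℝ (Fin 2)

/-- The two-torus `𝕋² = ℝ²/ℤ²`. -/
abbrev T2 : Type := Fin 2 → UnitAddCircle

/-- The covering projection `ℝ² → 𝕋²`. -/
def q (x : E) : T2 := fun i => (x i : UnitAddCircle)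

/-- `L : T𝕋² = 𝕋² × ℝ² → ℝ` is an autonomous Tonelli Lagrangian: it is `C²`, its fibre Hessian is
positive definite, and it is fibrewise superlinear. -/
structure IsTonelli (L : T2 → E → ℝ) : Prop where
  smooth : ContDiff ℝ 2 (fun z : E × E => L (q z.1) z.2)
  convex : ∀ (x : T2) (v w : E), w ≠ 0 → 0 < fderiv ℝ (fderiv ℝ (L x)) v w w
  superlinear : ∀ x : T2, Tendsto (fun v : E => L x v / ‖v‖) (Bornology.cobounded E) atTop

/-- `γ : ℝ → ℝ²` (a curve on the torus, seen in the universal cover) with velocity `γ'` solves the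
Euler-Lagrange equation `d/dt (∂L/∂v) (γ, γ') = (∂L/∂x) (γ, γ')`. -/
structure IsELCurve (L : T2 → E → ℝ) (γ γ' : ℝ → E) : Prop where
  velocity : ∀ t, HasDerivAt γ (γ' t) t
  eulerLagrange : ∀ t, HasDerivAt (fun s => fderiv ℝ (L (q (γ s))) (γ' s))
    (fderiv ℝ (fun y : E => L (q y) (γ' t)) (γ t)) t

/-- `φ` is the Euler-Lagrange flow of `L` on `T𝕋² = 𝕋² × ℝ²`: the orbit of every `(q x, v)` is
`t ↦ (q (γ t), γ' t)` for a solution `γ` of the Euler-Lagrange equation with `γ 0 = x` and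
`γ' 0 = v`. -/
def IsELFlow (L : T2 → E → ℝ) (φ : Flow ℝ (T2 × E)) : Prop :=
  ∀ x v : E, ∃ γ γ' : ℝ → E, γ 0 = x ∧ γ' 0 = v ∧ IsELCurve L γ γ' ∧
    ∀ t, φ t (q x, v) = (q (γ t), γ' t)

/-- `μ` is a probability measure on `T𝕋²` invariant under the flow `φ` and of finite `L`-action
(`L` is bounded below, so this means that `L` is integrable). -/
structure IsInvProb (L : T2 → E → ℝ) (φ : Flow ℝ (T2 × E)) (μ : Measure (T2 × E)) : Prop where
  prob : IsProbabilityMeasure μ
  invariant : ∀ t, μ.map (φ t) = μ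
  finiteAction : Integrable (fun z : T2 × E => L z.1 z.2) μ

/-- The rotation vector of `μ` in `H₁(𝕋², ℝ) = ℝ²`: its pairing with the class of a constant form
`⟨c, ·⟩` is `∫ ⟨c, v⟩ dμ(x, v)`. -/
noncomputable def rotation (μ : Measure (T2 × E)) : E := ∫ z, z.2 ∂μ

/-- `β` is the minimal average action of `L` (Mather's beta-function): `β h` is the minimum of
`∫ L dμ` over the invariant probability measures with rotation vector `h`. -/
def IsBeta (L : T2 → E → ℝ) (φ : Flow ℝ (T2 × E)) (β : E → ℝ) : Prop :=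
  ∀ h : E, IsLeast {a : ℝ | ∃ μ, IsInvProb L φ μ ∧ rotation μ = h ∧ ∫ z, L z.1 z.2 ∂μ = a} (β h)

/-- `μ` is a `c`-minimising measure, `c ∈ H¹(𝕋², ℝ) = ℝ²` (constant forms): it minimises
`∫ (L - ⟨c, v⟩) dμ` among all invariant probability measures. -/
def IsMinimizing (L : T2 → E → ℝ) (φ : Flow ℝ (T2 × E)) (c : E) (μ : Measure (T2 × E)) : Prop :=
  IsInvProb L φ μ ∧ ∀ ν, IsInvProb L φ ν →
    ∫ z, (L z.1 z.2 - inner ℝ c z.2) ∂μ ≤ ∫ z, (L z.1 z.2 - inner ℝ c z.2) ∂ν

/-- The Mather set of cohomology class `c`: the closure of the union of the supports of the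
`c`-minimising measures. -/
def matherSet (L : T2 → E → ℝ) (φ : Flow ℝ (T2 × E)) (c : E) : Set (T2 × E) :=
  closure (⋃ μ ∈ {μ : Measure (T2 × E) | IsMinimizing L φ c μ}, μ.support)

end Pool.Agent.Work.MP_c99f5e_an
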