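import Pool.Agent.Work.MP_c99f5e_an.Modify

/-!
# Discrete closed chains: existence of minimisers and their Euler-Lagrange equations
-/

set_option autoImplicit false

open Filter Topology Set

namespace Pool.Agent.Work.MP_c99f5e_an

section chains

variable {n : ℕ}

/-- the jump of a closed chain at its end -/
noncomputable def kap (k : Fin 2 → ℤ) (i : Fin (n + 1)) : Fin 2 → ℤ := if i = Fin.last n then k else 0

/-- velocity of the `i`-th step of a closed chain -/
noncomputable def vel (τ : Fin (n + 1) → ℝ) (k : Fin 2 → ℤ) (Y : Fin (n + 1) → E)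
    (i : Fin (n + 1)) : E :=
  (τ i)⁻¹ • (Y (i + 1) + ι (kap k i) - Y i)

/-- discrete action -/
noncomputable def dact (g : E × E → ℝ) (τ : Fin (n + 1) → ℝ) (k : Fin 2 → ℤ)
    (Y : Fin (n + 1) → E) : ℝ :=
  ∑ i, τ i * g (Y i, vel τ k Y i)

lemma continuous_vel (τ : Fin (n + 1) → ℝ) (k : Fin 2 → ℤ) (i : Fin (n + 1)) :
    Continuous (fun Y : Fin (n + 1) → E => vel τ k Y i) := by
  unfold vel
  fun_prop

lemma continuous_dact {g : E × E → ℝ} (hg : Continuous g) (τ : Fin (n + 1) → ℝ)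
    (k : Fin 2 → ℤ) : Continuous (dact g τ k) := by
  unfold dact
  apply continuous_finsetSum
  intro i _
  exact continuous_const.mul (hg.comp ((continuous_apply i).prodMk (continuous_vel τ k i)))

lemma vel_translate (τ : Fin (n + 1) → ℝ) (k : Fin 2 → ℤ) (Y : Fin (n + 1) → E) (a : E)
    (i : Fin (n + 1)) : vel τ k (fun j => Y j + a) i = vel τ k Y i := by
  unfold vel
  congr 1
  module

lemma dact_translate {g : E × E → ℝ} (hg : Per g) (τ : Fin (n + 1) → ℝ)
    (k l : Fin 2 → ℤ) (Y : Fin (n + 1) → E) :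
    dact g τ k (fun j => Y j + ι l) = dact g τ k Y := by
  unfold dact
  apply Finset.sum_congr rfl
  intro i _
  rw [vel_translate, hg]

lemma norm_step {τ : Fin (n + 1) → ℝ} (hτ : ∀ i, 0 < τ i) (k : Fin 2 → ℤ)
    (Y : Fin (n + 1) → E) (i : Fin (n + 1)) :
    ‖Y (i + 1) + ι (kap k i) - Y i‖ = τ i * ‖vel τ k Y i‖ := by
  unfold vel
  rw [norm_smul, norm_inv, Real.norm_of_nonneg (hτ i).le]
  field_simp [(hτ i).ne']

lemma sum_steps_le {g : E × E → ℝ} {C1 : ℝ} (hC1 : ∀ x v : E, ‖v‖ - C1 ≤ g (x, v))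
    {τ : Fin (n + 1) → ℝ} (hτ : ∀ i, 0 < τ i) (k : Fin 2 → ℤ) (Y : Fin (n + 1) → E)
    (i : Fin (n + 1)) :
    ‖Y (i + 1) + ι (kap k i) - Y i‖ ≤ dact g τ k Y + C1 * ∑ i, τ i := by
  have h1 : ∀ j, ‖Y (j + 1) + ι (kap k j) - Y j‖ ≤ τ j * g (Y j, vel τ k Y j) + C1 * τ j := by
    intro j
    rw [norm_step hτ k Y j]
    have := mul_le_mul_of_nonneg_left (hC1 (Y j) (vel τ k Y j)) (hτ j).le
    linarith
  have h2 : ∑ j, ‖Y (j + 1) + ι (kap k j) - Y j‖ ≤ dact g τ k Y + C1 * ∑ i, τ i := by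
    unfold dact
    rw [Finset.mul_sum, ← Finset.sum_add_distrib]
    exact Finset.sum_le_sum (fun j _ => h1 j)
  exact (Finset.single_le_sum (f := fun j => ‖Y (j + 1) + ι (kap k j) - Y j‖)
    (fun j _ => norm_nonneg _) (Finset.mem_univ i)).trans h2

/-- existence of a minimiser of the discrete action among closed chains -/
lemma exists_minimizer {g : E × E → ℝ} (hgc : Continuous g) (hgp : Per g) {C1 : ℝ}
    (hC1 : ∀ x v : E, ‖v‖ - C1 ≤ g (x, v)) {τ : Fin (n + 1) → ℝ} (hτ : ∀ i, 0 < τ i)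
    (k : Fin 2 → ℤ) : ∃ Y : Fin (n + 1) → E, ‖Y 0‖ ≤ 2 ∧ ∀ Z, dact g τ k Y ≤ dact g τ k Z := by
  set S0 : ℝ := dact g τ k (fun _ => 0) with hS0
  set K : Set (Fin (n + 1) → E) := {Y | ‖Y 0‖ ≤ 2 ∧ dact g τ k Y ≤ S0} with hK
  set B : ℝ := S0 + C1 * ∑ i, τ i with hB
  have hbdd : ∀ Y ∈ K, ∀ i : Fin (n + 1), ‖Y i‖ ≤ 2 + (i : ℕ) * B := by
    rintro Y ⟨hY0, hYS⟩ i
    induction i using Fin.induction with
    | zero => simpa using hY0
    | succ i ih =>
      have h1 := sum_steps_le hC1 hτ k Y i.castSucc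
      have h2 : kap k i.castSucc = 0 := by
        unfold kap
        rw [if_neg (ne_of_lt (Fin.castSucc_lt_last i))]
      rw [h2, ι_zero, add_zero, Fin.coeSucc_eq_succ] at h1
      have h3 : ‖Y i.succ‖ ≤ ‖Y i.castSucc‖ + ‖Y i.succ - Y i.castSucc‖ := by
        calc ‖Y i.succ‖ = ‖Y i.castSucc + (Y i.succ - Y i.castSucc)‖ := by congr 1; abel
          _ ≤ _ := norm_add_le _ _
      have h4 : ((i.succ : Fin (n + 1)) : ℕ) = (i.castSucc : ℕ) + 1 := by simp
      rw [h4]
      push_cast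
      have h5 : ‖Y i.succ - Y i.castSucc‖ ≤ B := by linarith
      linarith
  have hBnn : K.Nonempty → 0 ≤ B := by
    rintro ⟨Y, hY⟩
    have h1 := sum_steps_le hC1 hτ k Y 0
    have h2 : 0 ≤ ‖Y (0 + 1) + ι (kap k (0 : Fin (n + 1))) - Y 0‖ := norm_nonneg _
    linarith [hY.2]
  have hKne : K.Nonempty := ⟨fun _ => 0, by simp, le_refl _⟩
  have hB0 := hBnn hKne
  have hKcl : IsClosed K := by
    have h1 : IsClosed {Y : Fin (n + 1) → E | ‖Y 0‖ ≤ 2} :=
      isClosed_le ((continuous_apply 0).norm) continuous_const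
    have h2 : IsClosed {Y : Fin (n + 1) → E | dact g τ k Y ≤ S0} :=
      isClosed_le (continuous_dact hgc τ k) continuous_const
    exact h1.inter h2
  have hKb : K ⊆ Metric.closedBall 0 (2 + (n + 1) * B) := by
    intro Y hY
    rw [mem_closedBall_zero_iff, pi_norm_le_iff_of_nonneg (by positivity)]
    intro i
    refine (hbdd Y hY i).trans ?_
    have : ((i : ℕ) : ℝ) ≤ n + 1 := by exact_mod_cast i.2.le
    nlinarith
  have hKc : IsCompact K := (isCompact_closedBall _ _).of_isClosed_subset hKcl hKb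
  obtain ⟨Y, hY, hmin⟩ := hKc.exists_isMinOn hKne (continuous_dact hgc τ k).continuousOn
  refine ⟨Y, hY.1, ?_⟩
  intro Z
  obtain ⟨l, hl⟩ := exists_shift (Z 0)
  rw [← dact_translate hgp τ k l Z]
  by_cases h1 : dact g τ k (fun j => Z j + ι l) ≤ S0
  · exact hmin (show (fun j => Z j + ι l) ∈ K from ⟨hl, h1⟩)
  · push Not at h1
    exact hY.2.trans h1.le

/-- Euler-Lagrange equations of a minimising closed chain -/
lemma minimizer_eq {g : E × E → ℝ} (hg : Differentiable ℝ g) {τ : Fin (n + 1) → ℝ}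
    (hτ : ∀ i, 0 < τ i) (k : Fin 2 → ℤ) {Y : Fin (n + 1) → E}
    (hY : ∀ Z, dact g τ k Y ≤ dact g τ k Z) (j : Fin (n + 1)) :
    dv g (Y (j + 1), vel τ k Y (j + 1)) - dv g (Y j, vel τ k Y j) =
      τ (j + 1) • dx g (Y (j + 1), vel τ k Y (j + 1)) := by
  -- it suffices to prove the shifted form
  have key : ∀ j : Fin (n + 1), ∀ ζ : E,
      (τ j • dx g (Y j, vel τ k Y j) - dv g (Y j, vel τ k Y j)
        + dv g (Y (j - 1), vel τ k Y (j - 1))) ζ = 0 := by
    intro j ζ
    set H : Fin (n + 1) → E := Pi.single j ζ with hH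
    have hvel : ∀ (s : ℝ) (i : Fin (n + 1)), vel τ k (fun l => Y l + s • H l) i =
        vel τ k Y i + s • ((τ i)⁻¹ • (H (i + 1) - H i)) := by
      intro s i
      unfold vel
      rw [smul_comm s, ← smul_add]
      congr 1
      module
    have hd : ∀ i : Fin (n + 1), HasDerivAt
        (fun s : ℝ => τ i * g (Y i + s • H i, vel τ k (fun l => Y l + s • H l) i))
        (τ i * (dx g (Y i, vel τ k Y i) (H i) +
          dv g (Y i, vel τ k Y i) ((τ i)⁻¹ • (H (i + 1) - H i)))) 0 := by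
      intro i
      apply HasDerivAt.const_mul
      have h1 : HasDerivAt (fun s : ℝ => Y i + s • H i) (H i) 0 := by
        simpa using ((hasDerivAt_id (0 : ℝ)).smul_const (H i)).const_add (Y i)
      have h2 : HasDerivAt (fun s : ℝ => vel τ k (fun l => Y l + s • H l) i)
          ((τ i)⁻¹ • (H (i + 1) - H i)) 0 := by
        have e : (fun s : ℝ => vel τ k (fun l => Y l + s • H l) i) =
            fun s : ℝ => vel τ k Y i + s • ((τ i)⁻¹ • (H (i + 1) - H i)) := by
          funext s; exact hvel s i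
        rw [e]
        simpa using ((hasDerivAt_id (0 : ℝ)).smul_const
          ((τ i)⁻¹ • (H (i + 1) - H i))).const_add (vel τ k Y i)
      have h3 := h1.prodMk h2
      have h4 : ((Y i + (0 : ℝ) • H i, vel τ k (fun l => Y l + (0 : ℝ) • H l) i) : E × E) =
          (Y i, vel τ k Y i) := by simp
      have h5 : HasFDerivAt g (fderiv ℝ g (Y i, vel τ k Y i))
          (Y i + (0 : ℝ) • H i, vel τ k (fun l => Y l + (0 : ℝ) • H l) i) := by
        rw [h4]; exact (hg _).hasFDerivAt
      have h6 := h5.comp_hasDerivAt (0 : ℝ) h3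
      rw [fderiv_eq_dx_add_dv] at h6
      exact h6
    have hsum : HasDerivAt (fun s : ℝ => dact g τ k (fun l => Y l + s • H l))
        (∑ i, τ i * (dx g (Y i, vel τ k Y i) (H i) +
          dv g (Y i, vel τ k Y i) ((τ i)⁻¹ • (H (i + 1) - H i)))) 0 := by
      unfold dact
      exact HasDerivAt.fun_sum (fun i _ => hd i)
    have hmin : IsLocalMin (fun s : ℝ => dact g τ k (fun l => Y l + s • H l)) 0 := by
      apply Filter.Eventually.of_forall
      intro s
      simp only [zero_smul, add_zero]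
      exact hY _
    have h0 := hmin.hasDerivAt_eq_zero hsum
    have h1 : ∀ i : Fin (n + 1), τ i * (dx g (Y i, vel τ k Y i) (H i) +
          dv g (Y i, vel τ k Y i) ((τ i)⁻¹ • (H (i + 1) - H i))) =
        (τ i * dx g (Y i, vel τ k Y i) (H i) - dv g (Y i, vel τ k Y i) (H i)) +
          dv g (Y i, vel τ k Y i) (H (i + 1)) := by
      intro i
      rw [map_smul, map_sub, smul_eq_mul]
      have := (hτ i).ne'
      field_simp
      ring
    simp only [h1] at h0
    rw [Finset.sum_add_distrib] at h0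
    have h2 : ∑ i, dv g (Y i, vel τ k Y i) (H (i + 1)) =
        ∑ i, dv g (Y (i - 1), vel τ k Y (i - 1)) (H i) := by
      rw [← Equiv.sum_comp (Equiv.addRight (1 : Fin (n + 1)))
        (fun i => dv g (Y (i - 1), vel τ k Y (i - 1)) (H i))]
      apply Finset.sum_congr rfl
      intro i _
      simp only [Equiv.coe_addRight, add_sub_cancel_right]
    rw [h2, ← Finset.sum_add_distrib] at h0
    have h3 : ∀ i : Fin (n + 1), i ≠ j →
        (τ i * dx g (Y i, vel τ k Y i) (H i) - dv g (Y i, vel τ k Y i) (H i)) +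
          dv g (Y (i - 1), vel τ k Y (i - 1)) (H i) = 0 := by
      intro i hij
      have : H i = 0 := by
        rw [hH]; simp [Pi.single_apply, hij]
      rw [this]
      simp
    rw [Finset.sum_eq_single j (fun i _ hij => h3 i hij) (fun h => absurd (Finset.mem_univ j) h)]
      at h0
    have h4 : H j = ζ := by rw [hH]; simp
    rw [h4] at h0
    simpa using h0
  have h1 := key (j + 1)
  rw [add_sub_cancel_right] at h1
  ext ζ
  have h2 := h1 ζ
  simp only [add_apply, sub_apply, smul_apply, smul_eq_mul] at h2 ⊢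
  linarith

end chains

end Pool.Agent.Work.MP_c99f5e_an
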