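import Pool.Agent.Work.MP_c99f5e_an.Compare

/-!
# Energy conservation
-/

set_option autoImplicit false

open Filter Topology Set MeasureTheory

namespace Pool.Agent.Work.MP_c99f5e_an

lemma tendsto_slope_right {F : Type*} [NormedAddCommGroup F] [NormedSpace ℝ F] {c : ℝ → F} {c' : F}
    {t : ℝ} (hc : HasDerivAt c c' t) :
    Tendsto (fun s => (s - t)⁻¹ • (c s - c t)) (𝓝[≠] t) (𝓝 c') := by
  have := hasDerivAt_iff_tendsto_slope.mp hc
  exact this

/-- conservation of energy -/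
theorem ELC.energy {f : E × E → ℝ} (h : TL f) {γ γ' : ℝ → E} (hγ : ELC f γ γ') (s t : ℝ) :
    En f (γ s, γ' s) = En f (γ t, γ' t) := by
  have key : ∀ t, HasDerivAt (fun s => En f (γ s, γ' s)) 0 t := by
    intro t
    -- local bound for velocities
    obtain ⟨B, hB⟩ := (isCompact_Icc (a := t - 1) (b := t + 1)).exists_bound_of_continuousOn
      hγ.cont.continuousOn
    obtain ⟨lam, hlam, hsm⟩ := h.strong_mono B
    obtain ⟨M1, hM10, hLip1⟩ := lipschitz_of_per h.contDiff_dv (per_dv h.per) B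
    obtain ⟨M, hM0, hTay⟩ := h.taylor B
    have htI : t ∈ Icc (t - 1) (t + 1) := ⟨by linarith, by linarith⟩
    have hnear : ∀ᶠ s in 𝓝[≠] t, s ∈ Icc (t - 1) (t + 1) :=
      nhdsWithin_le_nhds (Icc_mem_nhds (by linarith) (by linarith))
    set p : ℝ → E →L[ℝ] ℝ := fun s => dv f (γ s, γ' s) with hp
    set p' : E →L[ℝ] ℝ := dx f (γ t, γ' t) with hp'
    have s1 : Tendsto (fun s => (s - t)⁻¹ • (γ s - γ t)) (𝓝[≠] t) (𝓝 (γ' t)) :=
      tendsto_slope_right (hγ.vel t)
    have s2 : Tendsto (fun s => (s - t)⁻¹ • (p s - p t)) (𝓝[≠] t) (𝓝 p') :=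
      tendsto_slope_right (hγ.el t)
    have s3 : Tendsto (fun s => ‖((γ s, γ' s) : E × E) - (γ t, γ' t)‖) (𝓝[≠] t) (𝓝 0) := by
      have : Tendsto (fun s => ((γ s, γ' s) : E × E)) (𝓝[≠] t) (𝓝 (γ t, γ' t)) :=
        (hγ.continuous_pair.tendsto t).mono_left nhdsWithin_le_nhds
      exact tendsto_iff_norm_sub_tendsto_zero.mp this
    -- difference quotient of the pair is bounded
    have b1 : ∀ᶠ s in 𝓝[≠] t, ‖((γ s, γ' s) : E × E) - (γ t, γ' t)‖ ≤
        |s - t| * ((‖γ' t‖ + 1) + (M1 * (‖γ' t‖ + 1) + (‖p'‖ + 1)) / lam) := by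
      have e1 := s1.norm.eventually_le_const (show ‖γ' t‖ < ‖γ' t‖ + 1 by linarith)
      have e2 := s2.norm.eventually_le_const (show ‖p'‖ < ‖p'‖ + 1 by linarith)
      filter_upwards [e1, e2, hnear, self_mem_nhdsWithin] with s h1 h2 h3 h4
      have hst : s - t ≠ 0 := sub_ne_zero.mpr h4
      have hst' : 0 < |s - t| := abs_pos.mpr hst
      rw [norm_smul, norm_inv, Real.norm_eq_abs, inv_mul_le_iff₀ hst'] at h1 h2
      have h5 := vel_from_mom hlam hsm hLip1 (x := γ s) (y := γ t) (hB s h3) (hB t htI)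
      have h6 : ‖γ' s - γ' t‖ ≤ |s - t| * ((M1 * (‖γ' t‖ + 1) + (‖p'‖ + 1)) / lam) := by
        rw [mul_div_assoc', le_div_iff₀ hlam]
        have h7 : M1 * ‖γ s - γ t‖ ≤ M1 * (|s - t| * (‖γ' t‖ + 1)) :=
          mul_le_mul_of_nonneg_left h1 hM10
        have h8 : ‖dv f (γ s, γ' s) - dv f (γ t, γ' t)‖ ≤ |s - t| * (‖p'‖ + 1) := h2
        nlinarith
      rw [Prod.mk_sub_mk, Prod.norm_def]
      apply max_le
      · refine h1.trans ?_
        apply mul_le_mul_of_nonneg_left _ hst'.le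
        have : 0 ≤ (M1 * (‖γ' t‖ + 1) + (‖p'‖ + 1)) / lam := by positivity
        linarith
      · refine h6.trans ?_
        apply mul_le_mul_of_nonneg_left _ hst'.le
        have : 0 ≤ ‖γ' t‖ + 1 := by positivity
        linarith
    set Q := (‖γ' t‖ + 1) + (M1 * (‖γ' t‖ + 1) + (‖p'‖ + 1)) / lam with hQ
    -- remainder
    set rem : ℝ → ℝ := fun s => f (γ s, γ' s) - f (γ t, γ' t) -
      (p' (γ s - γ t) + p t (γ' s - γ' t)) with hrem
    have s4 : Tendsto (fun s => (s - t)⁻¹ • rem s) (𝓝[≠] t) (𝓝 0) := by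
      apply squeeze_zero_norm' (a := fun s => M * Q * ‖((γ s, γ' s) : E × E) - (γ t, γ' t)‖)
      · filter_upwards [b1, hnear, self_mem_nhdsWithin] with s h1 h3 h4
        have hst : s - t ≠ 0 := sub_ne_zero.mpr h4
        have hst' : 0 < |s - t| := abs_pos.mpr hst
        rw [norm_smul, norm_inv, Real.norm_eq_abs, Real.norm_eq_abs, inv_mul_le_iff₀ hst']
        have h5 := hTay (γ t, γ' t) (γ s, γ' s) (hB t htI) (hB s h3)
        refine h5.trans ?_
        set n := ‖((γ s, γ' s) : E × E) - (γ t, γ' t)‖ with hn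
        have hn0 : 0 ≤ n := norm_nonneg _
        calc M * n ^ 2 = (M * n) * n := by ring
          _ ≤ (M * n) * (|s - t| * Q) := mul_le_mul_of_nonneg_left h1 (by positivity)
          _ = |s - t| * (M * Q * n) := by ring
      · have := s3.const_mul (M * Q)
        rwa [mul_zero] at this
    rw [hasDerivAt_iff_tendsto_slope]
    have s5 : Tendsto (fun s => ((s - t)⁻¹ • (p s - p t)) (γ' s)) (𝓝[≠] t) (𝓝 (p' (γ' t))) := by
      have hc : Tendsto γ' (𝓝[≠] t) (𝓝 (γ' t)) := (hγ.cont.tendsto t).mono_left nhdsWithin_le_nhds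
      have hb : Continuous (fun z : (E →L[ℝ] ℝ) × E => z.1 z.2) :=
        isBoundedBilinearMap_apply.continuous
      exact (hb.tendsto (p', γ' t)).comp (s2.prodMk_nhds hc)
    have s6 : Tendsto (fun s => p' ((s - t)⁻¹ • (γ s - γ t))) (𝓝[≠] t) (𝓝 (p' (γ' t))) :=
      (p'.continuous.tendsto _).comp s1
    have s7 := (s5.sub s6).sub s4
    rw [sub_self, sub_zero] at s7
    refine s7.congr ?_
    intro s
    simp only [slope, vsub_eq_sub, En, hrem, hp, smul_apply, sub_apply, map_smul, map_sub,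
      smul_eq_mul]
    ring
  have hd : Differentiable ℝ (fun s => En f (γ s, γ' s)) := fun t => (key t).differentiableAt
  exact is_const_of_deriv_eq_zero hd (fun t => (key t).deriv) s t

end Pool.Agent.Work.MP_c99f5e_an
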