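import Pool.Agent.Work.MP_c99f5e_an.Modify

/-!
# Bump functions on the torus and flux forms
-/

set_option autoImplicit false

open Filter Topology Set MeasureTheory

namespace Pool.Agent.Work.MP_c99f5e_an

/-- the determinant -/
noncomputable def detL : E →L[ℝ] E →L[ℝ] ℝ :=
  (EuclideanSpace.proj 0 : E →L[ℝ] ℝ).smulRight (EuclideanSpace.proj 1 : E →L[ℝ] ℝ) -
    (EuclideanSpace.proj 1 : E →L[ℝ] ℝ).smulRight (EuclideanSpace.proj 0 : E →L[ℝ] ℝ)

lemma detL_apply (a b : E) : detL a b = a 0 * b 1 - a 1 * b 0 := by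
  simp [detL]

lemma clm_expand (l : E →L[ℝ] ℝ) (x : E) : l x = x 0 * l (EuclideanSpace.single 0 1) +
    x 1 * l (EuclideanSpace.single 1 1) := by
  have h : x = x 0 • EuclideanSpace.single 0 (1 : ℝ) + x 1 • EuclideanSpace.single 1 (1 : ℝ) := by
    ext i
    fin_cases i <;> simp
  conv_lhs => rw [h]
  rw [map_add, map_smul, map_smul, smul_eq_mul, smul_eq_mul]

lemma detL_three (l : E →L[ℝ] ℝ) (a b g : E) :
    l a * detL g b - l b * detL g a = l g * detL a b := by
  rw [clm_expand l a, clm_expand l b, clm_expand l g]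
  simp only [detL_apply]
  ring

lemma abs_detL_le (a b : E) : |detL a b| ≤ ‖a‖ * ‖b‖ := by
  rw [detL_apply]
  apply abs_le_of_sq_le_sq _ (by positivity)
  rw [mul_pow, EuclideanSpace.norm_eq, EuclideanSpace.norm_eq, Real.sq_sqrt (by positivity),
    Real.sq_sqrt (by positivity), Fin.sum_univ_two, Fin.sum_univ_two]
  simp only [Real.norm_eq_abs, sq_abs]
  nlinarith [sq_nonneg (a 0 * b 0 + a 1 * b 1)]

/-- rotation by a right angle -/
noncomputable def J (v : E) : E := WithLp.toLp 2 ![v 1, -v 0]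

@[simp] lemma J_zero_apply (v : E) : J v 0 = v 1 := rfl
@[simp] lemma J_one_apply (v : E) : J v 1 = -v 0 := rfl

lemma norm_J (v : E) : ‖J v‖ = ‖v‖ := by
  rw [EuclideanSpace.norm_eq, EuclideanSpace.norm_eq, Fin.sum_univ_two, Fin.sum_univ_two]
  simp [add_comm]

lemma norm_sq_E (v : E) : ‖v‖ ^ 2 = v 0 ^ 2 + v 1 ^ 2 := by
  rw [EuclideanSpace.norm_eq, Real.sq_sqrt (by positivity), Fin.sum_univ_two]
  simp

lemma detL_J (v : E) : detL (J v) v = ‖v‖ ^ 2 := by
  rw [detL_apply, norm_sq_E]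
  simp
  ring

lemma detL_self (v : E) : detL v v = 0 := by
  rw [detL_apply]; ring

lemma continuous_J : Continuous J := by
  unfold J
  apply (PiLp.continuous_toLp 2 _).comp
  apply continuous_pi
  intro i
  fin_cases i
  · simp only [Fin.zero_eta, Matrix.cons_val_zero]; fun_prop
  · simp only [Fin.mk_one, Matrix.cons_val_one]; fun_prop

/-- periodic bump function -/
noncomputable def bump (ρ : ℝ) (x : E) : ℝ :=
  (max (Real.cos (2 * Real.pi * x 0) + Real.cos (2 * Real.pi * x 1) - 2 + ρ) 0) ^ 3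

lemma contDiff_bump (ρ : ℝ) : ContDiff ℝ 2 (bump ρ) := by
  unfold bump
  have h0 : ContDiff ℝ 2 (fun x : E => x 0) := contDiff_piLp_apply 2
  have h1 : ContDiff ℝ 2 (fun x : E => x 1) := contDiff_piLp_apply 2
  have h2 : ContDiff ℝ 2 (fun x : E =>
      Real.cos (2 * Real.pi * x 0) + Real.cos (2 * Real.pi * x 1) - 2 + ρ) :=
    (((Real.contDiff_cos.comp (contDiff_const.mul h0)).add
      (Real.contDiff_cos.comp (contDiff_const.mul h1))).sub contDiff_const).add contDiff_const
  exact contDiff_maxcube.comp h2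

lemma bump_per (ρ : ℝ) (k : Fin 2 → ℤ) (x : E) : bump ρ (x + ι k) = bump ρ x := by
  unfold bump
  have h : ∀ i, Real.cos (2 * Real.pi * (x + ι k) i) = Real.cos (2 * Real.pi * x i) := by
    intro i
    have : 2 * Real.pi * (x + ι k) i = 2 * Real.pi * x i + k i * (2 * Real.pi) := by
      simp; ring
    rw [this, Real.cos_add_int_mul_two_pi]
  rw [h 0, h 1]

lemma bump_nonneg (ρ : ℝ) (x : E) : 0 ≤ bump ρ x := by
  unfold bump
  positivity

lemma bump_zero_pos {ρ : ℝ} (hρ : 0 < ρ) : 0 < bump ρ 0 := by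
  unfold bump
  have : Real.cos (2 * Real.pi * (0 : E) 0) + Real.cos (2 * Real.pi * (0 : E) 1) - 2 + ρ = ρ := by
    simp
    ring
  rw [this]
  positivity

lemma bump_supp {r : ℝ} (hr : 0 < r) {x : E} (hx : bump (8 * r ^ 2) x ≠ 0) :
    ∃ k : Fin 2 → ℤ, ‖x - ι k‖ < r := by
  have h0 : 0 < Real.cos (2 * Real.pi * x 0) + Real.cos (2 * Real.pi * x 1) - 2 + 8 * r ^ 2 := by
    by_contra hcon
    push Not at hcon
    apply hx
    unfold bump
    rw [max_eq_right hcon]
    norm_num
  refine ⟨fun i => round (x i), ?_⟩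
  set y : E := x - ι (fun i => round (x i)) with hy
  have hyi : ∀ i, y i = x i - round (x i) := by
    intro i
    simp [hy]
  have hcos : ∀ i, Real.cos (2 * Real.pi * x i) ≤ 1 - 8 * (y i) ^ 2 := by
    intro i
    have e : 2 * Real.pi * x i = 2 * Real.pi * y i + (round (x i) : ℤ) * (2 * Real.pi) := by
      rw [hyi]; ring
    rw [e, Real.cos_add_int_mul_two_pi]
    have h1 : |y i| ≤ 1 / 2 := by
      rw [hyi]
      exact abs_sub_round (x i)
    have h2 : |2 * Real.pi * y i| ≤ Real.pi := by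
      rw [abs_mul, abs_of_pos (by positivity)]
      nlinarith [Real.pi_pos]
    have h3 := Real.cos_le_one_sub_mul_cos_sq h2
    refine h3.trans (le_of_eq ?_)
    field_simp
    ring
  have h1 := hcos 0
  have h2 := hcos 1
  have h3 : ‖y‖ ^ 2 < r ^ 2 := by
    rw [norm_sq_E]
    linarith
  exact lt_of_pow_lt_pow_left₀ 2 hr.le h3

/-- flux form of a curve -/
noncomputable def flux (χ : E → ℝ) (Γ Γ' : ℝ → E) (a b : ℝ) (x : E) : E →L[ℝ] ℝ :=
  ∫ s in a..b, χ (x - Γ s) • detL (Γ' s)

section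

variable {χ : E → ℝ} {Γ Γ' : ℝ → E}

lemma continuous_flux_integrand (hχ : Continuous χ) (hΓ : Continuous Γ) (hΓ' : Continuous Γ')
    (x : E) : Continuous (fun s => χ (x - Γ s) • detL (Γ' s)) :=
  (hχ.comp (continuous_const.sub hΓ)).smul (detL.continuous.comp hΓ')

lemma flux_apply (hχ : Continuous χ) (hΓ : Continuous Γ) (hΓ' : Continuous Γ') (a b : ℝ)
    (x w : E) : flux χ Γ Γ' a b x w = ∫ s in a..b, χ (x - Γ s) * detL (Γ' s) w := by
  unfold flux
  rw [ContinuousLinearMap.intervalIntegral_apply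
    ((continuous_flux_integrand hχ hΓ hΓ' x).intervalIntegrable _ _)]
  rfl

lemma hasFDerivAt_flux (hχ : ContDiff ℝ 1 χ) (hper : ∀ (k : Fin 2 → ℤ) x, χ (x + ι k) = χ x)
    (hΓ : Continuous Γ) (hΓ' : Continuous Γ') (a b : ℝ) (x : E) :
    HasFDerivAt (flux χ Γ Γ' a b)
      (∫ s in a..b, (fderiv ℝ χ (x - Γ s)).smulRight (detL (Γ' s))) x := by
  have hp : Per (fun z : E × E => χ z.1) := fun k x _ => hper k x
  obtain ⟨C, hC0, hC⟩ := bounded_of_per
    ((hχ.comp contDiff_fst).continuous_fderiv (by norm_num)) (per_fderiv hp) 0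
  have hC' : ∀ y : E, ‖fderiv ℝ χ y‖ ≤ C := by
    intro y
    have h1 := hC y 0 (by simp)
    have h2 : fderiv ℝ χ y = (fderiv ℝ (fun z : E × E => χ z.1) (y, 0)).comp
        (ContinuousLinearMap.inl ℝ E E) := by
      have h3 : HasFDerivAt (fun z : E × E => χ z.1)
          ((fderiv ℝ χ y).comp (ContinuousLinearMap.fst ℝ E E)) (y, 0) :=
        HasFDerivAt.comp (y, (0 : E)) ((hχ.differentiable (by norm_num)) y).hasFDerivAt
          hasFDerivAt_fst
      rw [h3.fderiv]
      ext w
      simp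
    rw [h2]
    refine (ContinuousLinearMap.opNorm_comp_le _ _).trans ?_
    calc _ ≤ C * 1 := mul_le_mul h1 norm_inl_le (norm_nonneg _) hC0
      _ = C := mul_one C
  have hcont := continuous_flux_integrand hχ.continuous hΓ hΓ'
  have hfc : Continuous (fderiv ℝ χ) := hχ.continuous_fderiv (by norm_num)
  unfold flux
  apply intervalIntegral.hasFDerivAt_integral_of_dominated_of_fderiv_le (s := univ)
    (F' := fun x s => (fderiv ℝ χ (x - Γ s)).smulRight (detL (Γ' s)))
    (bound := fun s => C * ‖detL (Γ' s)‖) Filter.univ_mem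
  · exact Eventually.of_forall (fun x => (hcont x).aestronglyMeasurable)
  · exact (hcont x).intervalIntegrable _ _
  · apply Continuous.aestronglyMeasurable
    have h1 : Continuous (fun s => fderiv ℝ χ (x - Γ s)) := hfc.comp (continuous_const.sub hΓ)
    have h2 : Continuous (fun s => detL (Γ' s)) := detL.continuous.comp hΓ'
    exact ((ContinuousLinearMap.smulRightL ℝ E (E →L[ℝ] ℝ)).continuous.comp h1).clm_apply h2
  · refine Eventually.of_forall (fun s _ x _ => ?_)
    rw [ContinuousLinearMap.norm_smulRight_apply]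
    exact mul_le_mul_of_nonneg_right (hC' _) (norm_nonneg _)
  · exact (continuous_const.mul (detL.continuous.comp hΓ').norm).intervalIntegrable _ _
  · refine Eventually.of_forall (fun s _ x _ => ?_)
    have h1 : HasFDerivAt (fun y : E => χ (y - Γ s)) (fderiv ℝ χ (x - Γ s)) x := by
      have h2 : HasFDerivAt (fun y : E => y - Γ s) (ContinuousLinearMap.id ℝ E) x :=
        (hasFDerivAt_id x).sub_const (Γ s)
      have h3 := ((hχ.differentiable (by norm_num)) (x - Γ s)).hasFDerivAt.comp x h2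
      rwa [ContinuousLinearMap.comp_id] at h3
    exact h1.smul_const (detL (Γ' s))

lemma fderiv_flux_antisymm (hχ : ContDiff ℝ 1 χ) (hper : ∀ (k : Fin 2 → ℤ) x, χ (x + ι k) = χ x)
    (hΓd : ∀ s, HasDerivAt Γ (Γ' s) s) (hΓ' : Continuous Γ') (a b : ℝ) (x v w : E) :
    fderiv ℝ (flux χ Γ Γ' a b) x v w - fderiv ℝ (flux χ Γ Γ' a b) x w v =
      detL v w * (χ (x - Γ a) - χ (x - Γ b)) := by
  have hΓ : Continuous Γ := continuous_iff_continuousAt.mpr (fun s => (hΓd s).continuousAt)
  rw [(hasFDerivAt_flux hχ hper hΓ hΓ' a b x).fderiv]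
  have hfc : Continuous (fun s => fderiv ℝ χ (x - Γ s)) :=
    (hχ.continuous_fderiv (by norm_num)).comp (continuous_const.sub hΓ)
  have hdc : Continuous (fun s => detL (Γ' s)) := detL.continuous.comp hΓ'
  have hint : Continuous (fun s => (fderiv ℝ χ (x - Γ s)).smulRight (detL (Γ' s))) :=
    ((ContinuousLinearMap.smulRightL ℝ E (E →L[ℝ] ℝ)).continuous.comp hfc).clm_apply hdc
  have happ : ∀ v w : E, (∫ s in a..b, (fderiv ℝ χ (x - Γ s)).smulRight (detL (Γ' s))) v w =
      ∫ s in a..b, fderiv ℝ χ (x - Γ s) v * detL (Γ' s) w := by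
    intro v w
    rw [ContinuousLinearMap.intervalIntegral_apply (hint.intervalIntegrable _ _)]
    have h1 : Continuous (fun s => (fderiv ℝ χ (x - Γ s)).smulRight (detL (Γ' s)) v) :=
      hint.clm_apply continuous_const
    rw [ContinuousLinearMap.intervalIntegral_apply (h1.intervalIntegrable _ _)]
    rfl
  rw [happ, happ, ← intervalIntegral.integral_sub]
  · have h2 : ∀ s, fderiv ℝ χ (x - Γ s) v * detL (Γ' s) w - fderiv ℝ χ (x - Γ s) w * detL (Γ' s) v =
        fderiv ℝ χ (x - Γ s) (Γ' s) * detL v w := fun s => detL_three _ _ _ _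
    simp only [h2]
    rw [intervalIntegral.integral_mul_const]
    have h3 : ∀ s, HasDerivAt (fun s => χ (x - Γ s)) (-(fderiv ℝ χ (x - Γ s) (Γ' s))) s := by
      intro s
      have h4 : HasDerivAt (fun s => x - Γ s) (-Γ' s) s := by
        have := (hΓd s).const_sub x
        exact this
      have h5 := ((hχ.differentiable (by norm_num)) (x - Γ s)).hasFDerivAt.comp_hasDerivAt s h4
      rw [map_neg] at h5
      exact h5
    have h6 : Continuous (fun s => -(fderiv ℝ χ (x - Γ s) (Γ' s))) := (hfc.clm_apply hΓ').neg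
    have h7 := intervalIntegral.integral_eq_sub_of_hasDerivAt (a := a) (b := b)
      (fun s _ => h3 s) (h6.intervalIntegrable _ _)
    rw [intervalIntegral.integral_neg] at h7
    have h8 : ∫ s in a..b, fderiv ℝ χ (x - Γ s) (Γ' s) = χ (x - Γ a) - χ (x - Γ b) := by
      linarith
    rw [h8]
    ring
  · exact ((hfc.clm_apply continuous_const).mul (hdc.clm_apply continuous_const)).intervalIntegrable _ _
  · exact ((hfc.clm_apply continuous_const).mul (hdc.clm_apply continuous_const)).intervalIntegrable _ _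

lemma flux_per (hper : ∀ (k : Fin 2 → ℤ) x, χ (x + ι k) = χ x) (a b : ℝ) (k : Fin 2 → ℤ) (x : E) :
    flux χ Γ Γ' a b (x + ι k) = flux χ Γ Γ' a b x := by
  unfold flux
  congr 1
  funext s
  have : x + ι k - Γ s = (x - Γ s) + ι k := by abel
  rw [this, hper]

end

end Pool.Agent.Work.MP_c99f5e_an
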