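import Pool.Agent.Work.MP_c99f5e_an.Flux

/-!
# Closed forms from closed curves on the torus
-/

set_option autoImplicit false

open Filter Topology Set MeasureTheory

namespace Pool.Agent.Work.MP_c99f5e_an

/-- a periodic closed form has a primitive with linear periods -/
lemma exists_primitive {ω : E → E →L[ℝ] ℝ} (hω : Differentiable ℝ ω)
    (hsym : ∀ x v w, fderiv ℝ ω x v w = fderiv ℝ ω x w v)
    (hper : ∀ (k : Fin 2 → ℤ) x, ω (x + ι k) = ω x) :
    ∃ (F : E → ℝ) (c : E), (∀ x, HasFDerivAt F (ω x) x) ∧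
      ∀ (k : Fin 2 → ℤ) x, F (x + ι k) = F x + inner ℝ c (ι k) := by
  obtain ⟨F, hF⟩ := (convex_univ : Convex ℝ (univ : Set E)).exists_forall_hasFDerivAt_of_fderiv_symmetric
    isOpen_univ hω.differentiableOn (fun a _ v w => hsym a v w)
  have hF' : ∀ x, HasFDerivAt F (ω x) x := fun x => hF x (mem_univ x)
  have hconst : ∀ (k : Fin 2 → ℤ) (x : E), F (x + ι k) = F x + (F (ι k) - F 0) := by
    intro k x
    have h1 : ∀ y, HasFDerivAt (fun y => F (y + ι k) - F y) (0 : E →L[ℝ] ℝ) y := by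
      intro y
      have h2 : HasFDerivAt (fun y => F (y + ι k)) (ω (y + ι k)) y := by
        have h3 : HasFDerivAt (fun y : E => y + ι k) (ContinuousLinearMap.id ℝ E) y :=
          (hasFDerivAt_id y).add_const (ι k)
        have h4 := (hF' (y + ι k)).comp y h3
        rwa [ContinuousLinearMap.comp_id] at h4
      have h5 := h2.sub (hF' y)
      rw [hper, sub_self] at h5
      exact h5
    have h6 : (fun y => F (y + ι k) - F y) x = (fun y => F (y + ι k) - F y) 0 :=
      is_const_of_fderiv_eq_zero (fun y => (h1 y).differentiableAt) (fun y => (h1 y).fderiv) x 0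
    simp only [zero_add] at h6
    linarith
  set A : (Fin 2 → ℤ) →+ ℝ :=
    { toFun := fun k => F (ι k) - F 0
      map_zero' := by rw [ι_zero, sub_self]
      map_add' := by
        intro k l
        have := hconst l (ι k)
        rw [ι_add]
        linarith } with hA
  have hAdef : ∀ k, A k = F (ι k) - F 0 := fun k => rfl
  refine ⟨F, WithLp.toLp 2 ![A (Pi.single 0 1), A (Pi.single 1 1)], hF', ?_⟩
  intro k x
  rw [hconst k x, ← hAdef]
  congr 1
  have hk : k = k 0 • Pi.single 0 (1 : ℤ) + k 1 • Pi.single 1 (1 : ℤ) := by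
    ext i
    fin_cases i <;> simp
  conv_lhs => rw [hk]
  rw [map_add, map_zsmul, map_zsmul, PiLp.inner_apply, Fin.sum_univ_two]
  simp [mul_comm]

/-- the closed form associated with a closed curve made of two pieces -/
lemma exists_closed_form {χ : E → ℝ} (hχ : ContDiff ℝ 1 χ)
    (hper : ∀ (k : Fin 2 → ℤ) x, χ (x + ι k) = χ x) {Γ Γ' : ℝ → E}
    (hΓd : ∀ s, HasDerivAt Γ (Γ' s) s) (hΓ' : Continuous Γ') {T : ℝ} {ξ : E} {k : Fin 2 → ℤ}
    (hcl : Γ T + ξ = Γ 0 + ι k) (s0 : ℝ) :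
    ∃ (ω : E → E →L[ℝ] ℝ) (F : E → ℝ) (c : E), Continuous ω ∧
      (∀ (k : Fin 2 → ℤ) x, ω (x + ι k) = ω x) ∧ (∀ x, HasFDerivAt F (ω x) x) ∧
      (∀ (k : Fin 2 → ℤ) x, F (x + ι k) = F x + inner ℝ c (ι k)) ∧
      ∀ x w, ω x w = (∫ s in (0 : ℝ)..T, χ (x - Γ s) * (s0 * detL (Γ' s) w)) +
        ∫ s in (0 : ℝ)..1, χ (x - (Γ T + s • ξ)) * (s0 * detL ξ w) := by
  have hΓ : Continuous Γ := continuous_iff_continuousAt.mpr (fun s => (hΓd s).continuousAt)
  have hΓ2d : ∀ s : ℝ, HasDerivAt (fun s : ℝ => Γ T + s • ξ) ξ s := by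
    intro s
    have := ((hasDerivAt_id s).smul_const ξ).const_add (Γ T)
    rw [one_smul] at this
    exact this
  have hΓ2 : Continuous (fun s : ℝ => Γ T + s • ξ) := by fun_prop
  have hc2 : Continuous (fun _ : ℝ => ξ) := continuous_const
  set ω1 := flux χ Γ Γ' 0 T with hω1
  set ω2 := flux χ (fun s : ℝ => Γ T + s • ξ) (fun _ => ξ) 0 1 with hω2
  set ω : E → E →L[ℝ] ℝ := fun x => s0 • (ω1 x + ω2 x) with hω
  have hd1 : ∀ x, HasFDerivAt ω1 (fderiv ℝ ω1 x) x := fun x =>
    (hasFDerivAt_flux hχ hper hΓ hΓ' 0 T x).differentiableAt.hasFDerivAt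
  have hd2 : ∀ x, HasFDerivAt ω2 (fderiv ℝ ω2 x) x := fun x =>
    (hasFDerivAt_flux hχ hper hΓ2 hc2 0 1 x).differentiableAt.hasFDerivAt
  have hd : ∀ x, HasFDerivAt ω (s0 • (fderiv ℝ ω1 x + fderiv ℝ ω2 x)) x := fun x =>
    ((hd1 x).add (hd2 x)).const_smul s0
  have hdiff : Differentiable ℝ ω := fun x => (hd x).differentiableAt
  have hωper : ∀ (k : Fin 2 → ℤ) x, ω (x + ι k) = ω x := by
    intro k x
    simp only [hω, hω1, hω2]
    rw [flux_per hper, flux_per hper]
  obtain ⟨F, c, hF, hFp⟩ := exists_primitive hdiff (by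
    intro x v w
    rw [(hd x).fderiv]
    have a1 := fderiv_flux_antisymm hχ hper hΓd hΓ' 0 T x v w
    have a2 := fderiv_flux_antisymm hχ hper hΓ2d hc2 0 1 x v w
    rw [← hω1] at a1
    rw [← hω2] at a2
    have e1 : x - (Γ T + (0 : ℝ) • ξ) = x - Γ T := by simp
    have e2 : χ (x - (Γ T + (1 : ℝ) • ξ)) = χ (x - Γ 0) := by
      rw [one_smul, hcl]
      have : x - Γ 0 = (x - (Γ 0 + ι k)) + ι k := by abel
      rw [this, hper]
    rw [e1, e2] at a2
    simp only [smul_apply, add_apply, smul_eq_mul]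
    have : (fderiv ℝ ω1 x v w + fderiv ℝ ω2 x v w) = (fderiv ℝ ω1 x w v + fderiv ℝ ω2 x w v) := by
      linarith
    rw [this]) hωper
  refine ⟨ω, F, c, hdiff.continuous, hωper, hF, hFp, ?_⟩
  intro x w
  simp only [hω, smul_apply, add_apply, smul_eq_mul, hω1, hω2]
  rw [flux_apply hχ.continuous hΓ hΓ', flux_apply hχ.continuous hΓ2 hc2, mul_add,
    ← intervalIntegral.integral_const_mul, ← intervalIntegral.integral_const_mul]
  congr 1
  · congr 1
    funext s
    ring
  · congr 1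
    funext s
    ring

end Pool.Agent.Work.MP_c99f5e_an
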