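import Pool.Agent.Work.MP_c99f5e_an.Avg

/-!
# Differentiability of the potential on `I`, and the Lipschitz graph property
-/

set_option autoImplicit false

open Filter Topology Set MeasureTheory
open scoped NNReal

namespace Pool.Agent.Work.MP_c99f5e_an

section

variable {f : E × E → ℝ} {φ : Flow ℝ (T2 × E)} {u : E → ℝ}

/-- comparison with a linearly perturbed curve -/
lemma Core.perturb (h : Core f φ u) {γ γ' : ℝ → E} (hγ : ELC f γ γ') {R M : ℝ} (hM0 : 0 ≤ M)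
    (hR : ∀ s, ‖γ' s‖ ≤ R)
    (hM : ∀ z z' : E × E, ‖z.2‖ ≤ R + 1 → ‖z'.2‖ ≤ R + 1 →
      |f z' - f z - (dx f z (z'.1 - z.1) + dv f z (z'.2 - z.2))| ≤ M * ‖z' - z‖ ^ 2)
    {ξ : E} (hξ : ‖ξ‖ ≤ 1) {α β s0 t0 : ℝ} (hα : |α| ≤ 1) (hst : s0 < t0)
    (hθ : ∀ s ∈ Icc s0 t0, |α * s + β| ≤ 1) :
    u (γ t0 + (α * t0 + β) • ξ) - u (γ s0 + (α * s0 + β) • ξ) ≤
      (∫ s in s0..t0, f (γ s, γ' s)) + (α * t0 + β) * dv f (γ t0, γ' t0) ξ -
        (α * s0 + β) * dv f (γ s0, γ' s0) ξ + M * ‖ξ‖ ^ 2 * (t0 - s0) := by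
  set c : ℝ → E := fun s => γ s + (α * s + β) • ξ with hc
  set c' : ℝ → E := fun s => γ' s + α • ξ with hc'
  have hθd : ∀ s, HasDerivAt (fun s : ℝ => α * s + β) α s := by
    intro s
    have := ((hasDerivAt_id s).const_mul α).add_const β
    rw [mul_one] at this
    exact this
  have hcd : ∀ s, HasDerivAt c (c' s) s := fun s => (hγ.vel s).add ((hθd s).smul_const ξ)
  have hcc : Continuous c' := hγ.cont.add continuous_const
  have h1 := h.dom c c' s0 t0 hst hcd hcc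
  set G : ℝ → ℝ := fun s => (α * s + β) * dv f (γ s, γ' s) ξ with hG
  set G' : ℝ → ℝ := fun s => α * dv f (γ s, γ' s) ξ + (α * s + β) * dx f (γ s, γ' s) ξ with hG'
  have hGd : ∀ s, HasDerivAt G (G' s) s := by
    intro s
    have h2 : HasDerivAt (fun s => dv f (γ s, γ' s) ξ) (dx f (γ s, γ' s) ξ) s := by
      have := (hγ.el s).clm_apply (hasDerivAt_const s ξ)
      rw [map_zero, add_zero] at this
      exact this
    exact (hθd s).mul h2
  have hcθ : Continuous (fun s : ℝ => α * s + β) := by fun_prop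
  have hdvc : Continuous (fun s => dv f (γ s, γ' s) ξ) :=
    (h.tl.continuous_dv.comp hγ.continuous_pair).clm_apply continuous_const
  have hdxc : Continuous (fun s => dx f (γ s, γ' s) ξ) :=
    (h.tl.continuous_dx.comp hγ.continuous_pair).clm_apply continuous_const
  have hG'c : Continuous G' := (continuous_const.mul hdvc).add (hcθ.mul hdxc)
  have hfc : Continuous (fun s => f (γ s, γ' s)) := h.tl.continuous.comp hγ.continuous_pair
  have hcont : Continuous c := hγ.continuous.add (hcθ.smul continuous_const)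
  have hfc2 : Continuous (fun s => f (c s, c' s)) := h.tl.continuous.comp (hcont.prodMk hcc)
  have h3 : ∫ s in s0..t0, G' s = G t0 - G s0 :=
    intervalIntegral.integral_eq_sub_of_hasDerivAt (fun s _ => hGd s) (hG'c.intervalIntegrable _ _)
  have hαξ : ‖α • ξ‖ ≤ ‖ξ‖ := by
    rw [norm_smul, Real.norm_eq_abs]
    exact mul_le_of_le_one_left (norm_nonneg _) hα
  have h4 : ∀ s ∈ Icc s0 t0, f (c s, c' s) ≤ f (γ s, γ' s) + G' s + M * ‖ξ‖ ^ 2 := by
    intro s hs
    have hθξ : ‖(α * s + β) • ξ‖ ≤ ‖ξ‖ := by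
      rw [norm_smul, Real.norm_eq_abs]
      exact mul_le_of_le_one_left (norm_nonneg _) (hθ s hs)
    have h5 := hM (γ s, γ' s) (c s, c' s) ((hR s).trans (by linarith))
      ((norm_add_le _ _).trans (by linarith [hR s]))
    have e1 : c s - γ s = (α * s + β) • ξ := by simp [hc]
    have e2 : c' s - γ' s = α • ξ := by simp [hc']
    simp only at h5
    rw [e1, e2, map_smul, map_smul, smul_eq_mul, smul_eq_mul, Prod.mk_sub_mk, e1, e2] at h5
    have h6 : ‖(((α * s + β) • ξ, α • ξ) : E × E)‖ ≤ ‖ξ‖ := by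
      rw [Prod.norm_def]
      exact max_le hθξ hαξ
    have h7 : M * ‖(((α * s + β) • ξ, α • ξ) : E × E)‖ ^ 2 ≤ M * ‖ξ‖ ^ 2 := by
      gcongr
    have h8 := (abs_le.mp h5).2
    simp only [hG']
    linarith
  have h9 : ∫ s in s0..t0, f (c s, c' s) ≤
      ∫ s in s0..t0, (f (γ s, γ' s) + G' s + M * ‖ξ‖ ^ 2) := by
    apply intervalIntegral.integral_mono_on hst.le (hfc2.intervalIntegrable _ _)
      (((hfc.add hG'c).add continuous_const).intervalIntegrable _ _) h4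
  have h10 : ∫ s in s0..t0, (f (γ s, γ' s) + G' s + M * ‖ξ‖ ^ 2) =
      (∫ s in s0..t0, f (γ s, γ' s)) + (G t0 - G s0) + M * ‖ξ‖ ^ 2 * (t0 - s0) := by
    have hfG : Continuous (fun s => f (γ s, γ' s) + G' s) := hfc.add hG'c
    rw [intervalIntegral.integral_add (hfG.intervalIntegrable _ _)
      (continuous_const.intervalIntegrable _ _), intervalIntegral.integral_add
      (hfc.intervalIntegrable _ _) (hG'c.intervalIntegrable _ _), h3,
      intervalIntegral.integral_const, smul_eq_mul]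
    ring
  rw [h10] at h9
  simp only [hG] at h9
  linarith

lemma Core.quad (h : Core f φ u) {e0 R : ℝ} (hR : ∀ x v : E, En f (x, v) ≤ e0 → ‖v‖ ≤ R) :
    ∃ K : ℝ, 0 ≤ K ∧ ∀ x v : E, (q x, v) ∈ Iset f φ u e0 → ∀ ξ : E, ‖ξ‖ ≤ 1 →
      |u (x + ξ) - u x - dv f (x, v) ξ| ≤ K * ‖ξ‖ ^ 2 := by
  obtain ⟨M, hM0, hM⟩ := h.tl.taylor (R + 1)
  refine ⟨M, hM0, ?_⟩
  intro x v hI ξ hξ
  obtain ⟨hS, hD⟩ := hI
  rw [h.tl.mem_S] at hS
  obtain ⟨γ, γ', h0, h0', hγ, hz⟩ := h.compat x v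
  have hRγ : ∀ s, ‖γ' s‖ ≤ R := by
    intro s
    apply hR (γ s)
    rw [hγ.energy h.tl s 0, h0, h0']
    exact hS
  have hD' : Dfun f φ u (q x, v) = 0 := hD
  rw [h.D_eq hz] at hD'
  have hfc : Continuous (fun s => f (γ s, γ' s)) := h.tl.continuous.comp hγ.continuous_pair
  have hadd := intervalIntegral.integral_add_adjacent_intervals
    (hfc.intervalIntegrable (μ := volume) (-1 : ℝ) 0) (hfc.intervalIntegrable (0 : ℝ) 1)
  have d1 := h.dom γ γ' (-1) 0 (by norm_num) hγ.vel hγ.cont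
  have d2 := h.dom γ γ' 0 1 (by norm_num) hγ.vel hγ.cont
  have p1 := h.perturb hγ hM0 hRγ hM hξ (α := 1) (β := 1) (s0 := -1) (t0 := 0) (by simp)
    (by norm_num) (by
      intro s hs
      rw [abs_le]
      constructor <;> linarith [hs.1, hs.2])
  have p2 := h.perturb hγ hM0 hRγ hM hξ (α := -1) (β := 1) (s0 := 0) (t0 := 1) (by simp)
    (by norm_num) (by
      intro s hs
      rw [abs_le]
      constructor <;> linarith [hs.1, hs.2])
  norm_num at p1 p2
  rw [h0, h0'] at p1 p2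
  rw [h0] at d1 d2
  rw [abs_le]
  constructor <;> linarith

lemma Core.graph (h : Core f φ u) {e0 R : ℝ} (hR0 : 0 ≤ R)
    (hR : ∀ x v : E, En f (x, v) ≤ e0 → ‖v‖ ≤ R) :
    ∃ Λ : ℝ, 0 ≤ Λ ∧ ∀ x v x' v' : E, (q x, v) ∈ Iset f φ u e0 → (q x', v') ∈ Iset f φ u e0 →
      ‖v - v'‖ ≤ Λ * ‖x - x'‖ := by
  obtain ⟨K, hK0, hK⟩ := h.quad hR
  obtain ⟨lam, hlam, hsm⟩ := h.tl.strong_mono R
  obtain ⟨M1, hM10, hLip1⟩ := lipschitz_of_per h.tl.contDiff_dv (per_dv h.tl.per) R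
  have key : ∀ x v x' v' : E, (q x, v) ∈ Iset f φ u e0 → (q x', v') ∈ Iset f φ u e0 →
      ∀ ρ : ℝ, 0 < ρ → ρ ≤ 1 / 2 → ‖x - x'‖ ≤ ρ → ∀ e : E, ‖e‖ = 1 →
        (dv f (x, v) - dv f (x', v')) e ≤ 6 * K * ρ := by
    intro x v x' v' hI hI' ρ hρ0 hρ1 hxx e he
    have n1 : ‖ρ • e‖ = ρ := by rw [norm_smul, he, Real.norm_of_nonneg hρ0.le, mul_one]
    have n2 : ‖(x - x') + ρ • e‖ ≤ 2 * ρ := (norm_add_le _ _).trans (by linarith)
    have q1 := hK x v hI (ρ • e) (by linarith)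
    have q2 := hK x' v' hI' ((x - x') + ρ • e) (by linarith)
    have q3 := hK x' v' hI' (x - x') (by linarith)
    have e1 : x' + ((x - x') + ρ • e) = x + ρ • e := by module
    have e2 : x' + (x - x') = x := by module
    rw [e1, map_add] at q2
    rw [e2] at q3
    rw [n1] at q1
    have b2 : K * ‖(x - x') + ρ • e‖ ^ 2 ≤ K * (4 * ρ ^ 2) := by
      apply mul_le_mul_of_nonneg_left _ hK0
      have := norm_nonneg ((x - x') + ρ • e)
      nlinarith
    have b3 : K * ‖x - x'‖ ^ 2 ≤ K * ρ ^ 2 := by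
      apply mul_le_mul_of_nonneg_left _ hK0
      have := norm_nonneg (x - x')
      nlinarith
    have c1 := (abs_le.mp q1).1
    have c2 := (abs_le.mp q2).2
    have c3 := (abs_le.mp q3).1
    rw [map_smul, smul_eq_mul] at c1 c2
    have : ρ * ((dv f (x, v) - dv f (x', v')) e) ≤ ρ * (6 * K * ρ) := by
      rw [sub_apply]
      nlinarith
    exact le_of_mul_le_mul_left this hρ0
  have key2 : ∀ x v x' v' : E, (q x, v) ∈ Iset f φ u e0 → (q x', v') ∈ Iset f φ u e0 →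
      ∀ ρ : ℝ, 0 < ρ → ρ ≤ 1 / 2 → ‖x - x'‖ ≤ ρ → lam * ‖v - v'‖ ≤ (M1 + 6 * K) * ρ := by
    intro x v x' v' hI hI' ρ hρ0 hρ1 hxx
    have h1 : ‖dv f (x, v) - dv f (x', v')‖ ≤ 6 * K * ρ := by
      apply ContinuousLinearMap.opNorm_le_of_unit_norm (by positivity)
      intro e he
      rw [Real.norm_eq_abs, abs_le]
      constructor
      · have := key x v x' v' hI hI' ρ hρ0 hρ1 hxx (-e) (by rwa [norm_neg])
        rw [map_neg] at this
        linarith
      · exact key x v x' v' hI hI' ρ hρ0 hρ1 hxx e he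
    have h2 := vel_from_mom hlam hsm hLip1 (x := x) (y := x')
      (hR x v ((h.tl.mem_S x v).mp hI.1)) (hR x' v' ((h.tl.mem_S x' v').mp hI'.1))
    have h3 : M1 * ‖x - x'‖ ≤ M1 * ρ := mul_le_mul_of_nonneg_left hxx hM10
    linarith
  refine ⟨4 * R + (M1 + 6 * K) / lam, by positivity, ?_⟩
  intro x v x' v' hI hI'
  have hr0 := norm_nonneg (x - x')
  rcases le_or_gt (1 / 2) ‖x - x'‖ with hr | hr
  · have h1 : ‖v - v'‖ ≤ 2 * R := by
      have a1 := hR x v ((h.tl.mem_S x v).mp hI.1)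
      have a2 := hR x' v' ((h.tl.mem_S x' v').mp hI'.1)
      exact (norm_sub_le _ _).trans (by linarith)
    have h2 : 0 ≤ (M1 + 6 * K) / lam * ‖x - x'‖ := by positivity
    nlinarith
  · have h1 : lam * ‖v - v'‖ ≤ (M1 + 6 * K) * ‖x - x'‖ := by
      apply le_of_forall_pos_le_add
      intro ε hε
      set A := M1 + 6 * K with hA
      have hA0 : 0 ≤ A := by positivity
      set ρ := min (1 / 2) (‖x - x'‖ + ε / (A + 1)) with hρ
      have hpos : 0 < ε / (A + 1) := by positivity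
      have h2 := key2 x v x' v' hI hI' ρ (lt_min (by norm_num) (by linarith)) (min_le_left _ _)
        (le_min hr.le (by linarith))
      have h3 : A * ρ ≤ A * (‖x - x'‖ + ε / (A + 1)) :=
        mul_le_mul_of_nonneg_left (min_le_right _ _) hA0
      have h4 : A * (ε / (A + 1)) ≤ ε := by
        rw [mul_div_assoc', div_le_iff₀ (by positivity)]
        nlinarith
      linarith
    have h2 : ‖v - v'‖ ≤ (M1 + 6 * K) / lam * ‖x - x'‖ := by
      rw [div_mul_eq_mul_div, le_div_iff₀ hlam]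
      linarith
    nlinarith

/-- the Lipschitz vector field extending the graph `I` -/
lemma Core.exists_field (h : Core f φ u) {e0 R : ℝ} (hR0 : 0 ≤ R)
    (hR : ∀ x v : E, En f (x, v) ≤ e0 → ‖v‖ ≤ R) :
    ∃ (V : E → E) (Λ : ℝ≥0), LipschitzWith Λ V ∧
      ∀ x v : E, (q x, v) ∈ Iset f φ u e0 → V x = v := by
  obtain ⟨Λ, hΛ0, hΛ⟩ := h.graph hR0 hR
  classical
  set s : Set E := {x | ∃ v, (q x, v) ∈ Iset f φ u e0} with hs
  set V0 : E → E := fun x => if hx : ∃ v, (q x, v) ∈ Iset f φ u e0 then hx.choose else 0 with hV0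
  have hV0s : ∀ x ∈ s, (q x, V0 x) ∈ Iset f φ u e0 := by
    intro x hx
    have hx' : ∃ v, (q x, v) ∈ Iset f φ u e0 := hx
    simp only [hV0, hx', dif_pos]
    exact hx'.choose_spec
  have hL : LipschitzOnWith (Real.toNNReal Λ) V0 s := by
    apply LipschitzOnWith.of_dist_le_mul
    intro x hx y hy
    rw [dist_eq_norm, dist_eq_norm, Real.coe_toNNReal _ hΛ0]
    exact hΛ _ _ _ _ (hV0s x hx) (hV0s y hy)
  obtain ⟨V, hV, hVe⟩ := hL.extend_finite_dimension
  refine ⟨V, _, hV, ?_⟩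
  intro x v hI
  have hx : x ∈ s := ⟨v, hI⟩
  rw [← hVe hx]
  have := hΛ _ _ _ _ (hV0s x hx) hI
  rw [sub_self, norm_zero, mul_zero] at this
  exact sub_eq_zero.mp (norm_le_zero_iff.mp this)

end

end Pool.Agent.Work.MP_c99f5e_an
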