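import Pool.Agent.Work.MP_c99f5e_an.Lift

/-!
# Chains approximating curves; the potential
-/

set_option autoImplicit false

open Filter Topology Set MeasureTheory
open scoped Fin.NatCast Fin.CommRing

namespace Pool.Agent.Work.MP_c99f5e_an

/-- `Path f x y T a`: `y` is reached from `x` in time `T` with action at most `a`
(in the limit of fine chains). -/
def Path (f : E × E → ℝ) (x y : E) (T a : ℝ) : Prop :=
  ∃ V : ℝ, ∀ ε > 0, ∀ δ > 0, ∃ (N : ℕ) (τ : ℕ → ℝ) (X : ℕ → E), X 0 = x ∧ X N = y ∧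
    (∀ m < N, 0 < τ m) ∧ (∀ m < N, τ m < δ) ∧ ∑ m ∈ Finset.range N, τ m = T ∧
    (∀ m < N, ‖X (m + 1) - X m‖ ≤ V * τ m) ∧
    ∑ m ∈ Finset.range N, τ m * f (X m, (τ m)⁻¹ • (X (m + 1) - X m)) ≤ a + ε

lemma Path.concat {f : E × E → ℝ} {x y z : E} {T S a b : ℝ} (h1 : Path f x y T a)
    (h2 : Path f y z S b) : Path f x z (T + S) (a + b) := by
  obtain ⟨V1, h1⟩ := h1
  obtain ⟨V2, h2⟩ := h2
  refine ⟨max V1 V2, ?_⟩
  intro ε hε δ hδ
  obtain ⟨N1, τ1, X1, a1, a2, a3, a4, a5, a6, a7⟩ := h1 (ε / 2) (by linarith) δ hδ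
  obtain ⟨N2, τ2, X2, b1, b2, b3, b4, b5, b6, b7⟩ := h2 (ε / 2) (by linarith) δ hδ
  set τ : ℕ → ℝ := fun m => if m < N1 then τ1 m else τ2 (m - N1) with hτ
  set X : ℕ → E := fun m => if m < N1 then X1 m else X2 (m - N1) with hX
  have e1 : ∀ m < N1, τ m = τ1 m := fun m hm => by simp [hτ, hm]
  have e2 : ∀ m, τ (N1 + m) = τ2 m := fun m => by simp [hτ]
  have e3 : ∀ m ≤ N1, X m = X1 m := by
    intro m hm
    rcases hm.lt_or_eq with h | h
    · simp [hX, h]
    · subst h
      simp [hX, a2, b1]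
  have e4 : ∀ m, X (N1 + m) = X2 m := fun m => by simp [hX]
  refine ⟨N1 + N2, τ, X, ?_, ?_, ?_, ?_, ?_, ?_, ?_⟩
  · rw [e3 0 (Nat.zero_le _), a1]
  · rw [e4, b2]
  · intro m hm
    by_cases h : m < N1
    · rw [e1 m h]; exact a3 m h
    · obtain ⟨j, rfl⟩ := Nat.exists_eq_add_of_le (not_lt.mp h)
      rw [e2]; exact b3 j (by omega)
  · intro m hm
    by_cases h : m < N1
    · rw [e1 m h]; exact a4 m h
    · obtain ⟨j, rfl⟩ := Nat.exists_eq_add_of_le (not_lt.mp h)
      rw [e2]; exact b4 j (by omega)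
  · rw [Finset.sum_range_add, ← a5, ← b5]
    congr 1
    · exact Finset.sum_congr rfl (fun m hm => e1 m (Finset.mem_range.mp hm))
    · exact Finset.sum_congr rfl (fun m _ => e2 m)
  · intro m hm
    by_cases h : m < N1
    · rw [e1 m h, e3 m h.le, e3 (m + 1) h]
      exact (a6 m h).trans (mul_le_mul_of_nonneg_right (le_max_left _ _) (a3 m h).le)
    · obtain ⟨j, rfl⟩ := Nat.exists_eq_add_of_le (not_lt.mp h)
      rw [e2, add_assoc, e4, e4]
      exact (b6 j (by omega)).trans
        (mul_le_mul_of_nonneg_right (le_max_right _ _) (b3 j (by omega)).le)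
  · rw [Finset.sum_range_add]
    have s1 : ∑ m ∈ Finset.range N1, τ m * f (X m, (τ m)⁻¹ • (X (m + 1) - X m)) =
        ∑ m ∈ Finset.range N1, τ1 m * f (X1 m, (τ1 m)⁻¹ • (X1 (m + 1) - X1 m)) := by
      apply Finset.sum_congr rfl
      intro m hm
      have hm' := Finset.mem_range.mp hm
      rw [e1 m hm', e3 m hm'.le, e3 (m + 1) hm']
    have s2 : ∑ m ∈ Finset.range N2, τ (N1 + m) *
        f (X (N1 + m), (τ (N1 + m))⁻¹ • (X (N1 + m + 1) - X (N1 + m))) =
        ∑ m ∈ Finset.range N2, τ2 m * f (X2 m, (τ2 m)⁻¹ • (X2 (m + 1) - X2 m)) := by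
      apply Finset.sum_congr rfl
      intro m hm
      rw [e2, add_assoc, e4, e4]
    rw [s1, s2]
    linarith

lemma Path.translate {f : E × E → ℝ} (hf : Per f) {x y : E} {T a : ℝ} (h1 : Path f x y T a)
    (k : Fin 2 → ℤ) : Path f (x + ι k) (y + ι k) T a := by
  obtain ⟨V, h1⟩ := h1
  refine ⟨V, ?_⟩
  intro ε hε δ hδ
  obtain ⟨N, τ, X, a1, a2, a3, a4, a5, a6, a7⟩ := h1 ε hε δ hδ
  refine ⟨N, τ, fun m => X m + ι k, by simp [a1], by simp [a2], a3, a4, a5, ?_, ?_⟩
  · intro m hm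
    have := a6 m hm
    simpa using this
  · simpa [hf k] using a7

lemma Path.mono {f : E × E → ℝ} {x y : E} {T a b : ℝ} (h1 : Path f x y T a) (hab : a ≤ b) :
    Path f x y T b := by
  obtain ⟨V, h1⟩ := h1
  refine ⟨V, ?_⟩
  intro ε hε δ hδ
  obtain ⟨N, τ, X, a1, a2, a3, a4, a5, a6, a7⟩ := h1 ε hε δ hδ
  exact ⟨N, τ, X, a1, a2, a3, a4, a5, a6, a7.trans (by linarith)⟩

/-- `C¹` curves give paths -/
lemma TL.path_of_curve {f : E × E → ℝ} (h : TL f) {c c' : ℝ → E} {s t : ℝ} (hst : s < t)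
    (hc : ∀ r, HasDerivAt c (c' r) r) (hc' : Continuous c') :
    Path f (c s) (c t) (t - s) (∫ r in s..t, f (c r, c' r)) := by
  obtain ⟨B, hB⟩ := (isCompact_Icc (a := s) (b := t)).exists_bound_of_continuousOn
    hc'.continuousOn
  obtain ⟨M, hM0, hLip⟩ := lipschitz_of_per (h.smooth.of_le (by norm_num)) h.per (B + 1)
  have hcc : Continuous c := continuous_iff_continuousAt.mpr (fun r => (hc r).continuousAt)
  have hfc : Continuous (fun r => f (c r, c' r)) := h.continuous.comp (hcc.prodMk hc')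
  set W : ℝ → ℝ := fun r => ∫ r' in s..r, f (c r', c' r') with hW
  have hWd : ∀ r, HasDerivAt W (f (c r, c' r)) r := fun r =>
    intervalIntegral.integral_hasDerivAt_right (hfc.intervalIntegrable _ _)
      hfc.stronglyMeasurable.stronglyMeasurableAtFilter hfc.continuousAt
  have hWs : W s = 0 := by simp [hW]
  refine ⟨B + 1, ?_⟩
  intro ε hε δ hδ
  have hts : 0 < t - s := by linarith
  obtain ⟨κ, hκ0, hκ1, hκ2⟩ : ∃ κ : ℝ, 0 < κ ∧ κ ≤ 1 ∧ (M + 1) * κ * (t - s) ≤ ε := by
    refine ⟨min 1 (ε / ((M + 1) * (t - s))), lt_min one_pos (by positivity), min_le_left _ _, ?_⟩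
    have h1 := min_le_right 1 (ε / ((M + 1) * (t - s)))
    have h2 : 0 < (M + 1) * (t - s) := by positivity
    calc (M + 1) * min 1 (ε / ((M + 1) * (t - s))) * (t - s)
        = min 1 (ε / ((M + 1) * (t - s))) * ((M + 1) * (t - s)) := by ring
      _ ≤ (ε / ((M + 1) * (t - s))) * ((M + 1) * (t - s)) :=
          mul_le_mul_of_nonneg_right h1 h2.le
      _ = ε := by field_simp
  have hF : Continuous (fun r : ℝ => (c' r, f (c r, c' r))) := hc'.prodMk hfc
  have huc := (isCompact_Icc (a := s) (b := t)).uniformContinuousOn_of_continuous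
    hF.continuousOn
  rw [Metric.uniformContinuousOn_iff] at huc
  obtain ⟨δ2, hδ20, hδ2⟩ := huc κ hκ0
  have huc1 : ∀ r ∈ Icc s t, ∀ r' ∈ Icc s t, |r - r'| < δ2 →
      ‖c' r - c' r'‖ ≤ κ ∧ ‖f (c r, c' r) - f (c r', c' r')‖ ≤ κ := by
    intro r hr r' hr' hrr
    have h1 := hδ2 r hr r' hr' (by rwa [Real.dist_eq])
    rw [Prod.dist_eq, max_lt_iff] at h1
    refine ⟨?_, ?_⟩
    · rw [← dist_eq_norm]; exact h1.1.le
    · rw [← dist_eq_norm]; exact h1.2.le
  obtain ⟨N, hN⟩ := exists_nat_gt ((t - s) / min δ δ2)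
  have hmin : 0 < min δ δ2 := lt_min hδ hδ20
  have hN0 : (0 : ℝ) < N := lt_trans (by positivity) hN
  set η : ℝ := (t - s) / N with hη
  have hη0 : 0 < η := by positivity
  have hηmin : η < min δ δ2 := by
    rw [hη, div_lt_iff₀ hN0]
    rw [div_lt_iff₀ hmin] at hN
    linarith
  have hNη : N * η = t - s := by rw [hη]; field_simp
  set tm : ℕ → ℝ := fun m => s + m * η with htm
  have htm1 : ∀ m, tm (m + 1) = tm m + η := by
    intro m; simp only [htm]; push_cast; ring
  have htmI : ∀ m < N, tm m ∈ Icc s t ∧ ∀ r ∈ Icc (tm m) (tm m + η), r ∈ Icc s t ∧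
      |r - tm m| < δ2 := by
    intro m hm
    have hm' : (m : ℝ) + 1 ≤ N := by exact_mod_cast hm
    have h1 : 0 ≤ m * η := by positivity
    have h2 : (m + 1) * η ≤ t - s := by
      rw [← hNη]; exact mul_le_mul_of_nonneg_right hm' hη0.le
    have h3 : tm m = s + m * η := rfl
    refine ⟨⟨by linarith, by nlinarith⟩, ?_⟩
    intro r hr
    refine ⟨⟨by linarith [hr.1], by nlinarith [hr.2]⟩, ?_⟩
    rw [abs_of_nonneg (by linarith [hr.1])]
    have := min_le_right δ δ2
    linarith [hr.2]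
  have hstep : ∀ m < N, ‖c (tm (m + 1)) - c (tm m) - η • c' (tm m)‖ ≤ κ * η := by
    intro m hm
    obtain ⟨g1, g2⟩ := htmI m hm
    rw [htm1]
    exact taylor1 hc hη0.le (fun r hr => (huc1 r (g2 r hr).1 _ g1 (g2 r hr).2).1)
  have hstepW : ∀ m < N, ‖W (tm (m + 1)) - W (tm m) - η • f (c (tm m), c' (tm m))‖ ≤ κ * η := by
    intro m hm
    obtain ⟨g1, g2⟩ := htmI m hm
    rw [htm1]
    exact taylor1 hWd hη0.le (fun r hr => (huc1 r (g2 r hr).1 _ g1 (g2 r hr).2).2)
  have htm0 : tm 0 = s := by simp [htm]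
  have htmN : tm N = t := by
    simp only [htm]; rw [hNη]; ring
  refine ⟨N, fun _ => η, fun m => c (tm m), congrArg c htm0, congrArg c htmN, fun _ _ => hη0,
    fun _ _ => hηmin.trans_le (min_le_left _ _), ?_, ?_, ?_⟩
  · simp only [Finset.sum_const, Finset.card_range, nsmul_eq_mul]
    exact hNη
  · intro m hm
    have g1 := hB _ (htmI m hm).1
    have g2 := hstep m hm
    have e : c (tm (m + 1)) - c (tm m) = (c (tm (m + 1)) - c (tm m) - η • c' (tm m)) +
        η • c' (tm m) := by abel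
    rw [e]
    refine (norm_add_le _ _).trans ?_
    rw [norm_smul, Real.norm_of_nonneg hη0.le]
    nlinarith
  · have key : ∀ m < N, η * f (c (tm m), η⁻¹ • (c (tm (m + 1)) - c (tm m))) ≤
        (W (tm (m + 1)) - W (tm m)) + (M + 1) * κ * η := by
      intro m hm
      have g1 := hB _ (htmI m hm).1
      have g2 := hstep m hm
      have g3 := hstepW m hm
      set v := η⁻¹ • (c (tm (m + 1)) - c (tm m)) with hv
      have g4 : ‖v - c' (tm m)‖ ≤ κ := by
        have e : v - c' (tm m) = η⁻¹ • (c (tm (m + 1)) - c (tm m) - η • c' (tm m)) := by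
          rw [hv, smul_sub η⁻¹ _ (η • c' (tm m)), smul_smul, inv_mul_cancel₀ hη0.ne', one_smul]
        rw [e, norm_smul, norm_inv, Real.norm_of_nonneg hη0.le]
        calc η⁻¹ * ‖c (tm (m + 1)) - c (tm m) - η • c' (tm m)‖ ≤ η⁻¹ * (κ * η) :=
              mul_le_mul_of_nonneg_left g2 (by positivity)
          _ = κ := by field_simp
      have g5 : ‖v‖ ≤ B + 1 := by
        have e : v = (v - c' (tm m)) + c' (tm m) := by abel
        rw [e]
        exact (norm_add_le _ _).trans (by linarith)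
      have g6 := hLip (c (tm m), c' (tm m)) (c (tm m), v) (g1.trans (by linarith)) g5
      have g7 : ‖((c (tm m), v) : E × E) - (c (tm m), c' (tm m))‖ ≤ κ := by
        have : ((c (tm m), v) : E × E) - (c (tm m), c' (tm m)) = (0, v - c' (tm m)) := by simp
        rw [this, Prod.norm_def]
        simp only [norm_zero]
        exact max_le hκ0.le g4
      have g8 := le_trans g6 (mul_le_mul_of_nonneg_left g7 hM0)
      rw [Real.norm_eq_abs] at g8 g3
      rw [smul_eq_mul] at g3
      have g9 := (abs_le.mp g8).2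
      have g10 := (abs_le.mp g3).1
      have g11 : η * f (c (tm m), v) ≤ η * (f (c (tm m), c' (tm m)) + M * κ) :=
        mul_le_mul_of_nonneg_left (by linarith) hη0.le
      nlinarith
    calc ∑ m ∈ Finset.range N, η * f (c (tm m), η⁻¹ • (c (tm (m + 1)) - c (tm m)))
        ≤ ∑ m ∈ Finset.range N, ((W (tm (m + 1)) - W (tm m)) + (M + 1) * κ * η) :=
          Finset.sum_le_sum (fun m hm => key m (Finset.mem_range.mp hm))
      _ = (W (tm N) - W (tm 0)) + N * ((M + 1) * κ * η) := by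
          rw [Finset.sum_add_distrib, Finset.sum_range_sub (fun m => W (tm m))]
          simp
      _ = (∫ r in s..t, f (c r, c' r)) + (M + 1) * κ * (t - s) := by
          rw [htm0, htmN, hWs, sub_zero, ← hNη]; ring
      _ ≤ (∫ r in s..t, f (c r, c' r)) + ε := by linarith

/-- closed paths have nonnegative action -/
lemma closed_path_nonneg {f : E × E → ℝ} (h : TL f) {φ : Flow ℝ (T2 × E)} (hφ : Compat f φ)
    (hN : ∀ μ, Inv (desc f) φ μ → 0 ≤ ∫ z, desc f z ∂μ) {x : E} {T a : ℝ} (hT : 0 < T)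
    (k : Fin 2 → ℤ) (hp : Path f x (x + ι k) T a) : 0 ≤ a := by
  obtain ⟨V, hp⟩ := hp
  apply le_of_forall_pos_le_add
  intro ε hε
  apply closed_chain_nonneg h hφ hN hT k (V := V)
  intro δ hδ
  obtain ⟨N, τ, X, a1, a2, a3, a4, a5, a6, a7⟩ := hp ε hε δ hδ
  have hN0 : N ≠ 0 := by
    rintro rfl
    simp at a5
    linarith
  obtain ⟨n, rfl⟩ := Nat.exists_eq_succ_of_ne_zero hN0
  simp only [Nat.succ_eq_add_one] at *
  have hvel : ∀ i : Fin (n + 1), vel (fun i : Fin (n + 1) => τ i) k (fun i : Fin (n + 1) => X i) i =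
      (τ i)⁻¹ • (X (i + 1) - X i) := by
    intro i
    unfold vel kap
    congr 2
    by_cases hi : i = Fin.last n
    · subst hi
      simp [a1, a2]
    · rw [if_neg hi, ι_zero, add_zero]
      have : ((i + 1 : Fin (n + 1)) : ℕ) = (i : ℕ) + 1 := by
        rw [Fin.val_add_one]
        rw [if_neg hi]
      exact congrArg X this
  refine ⟨n, fun i => τ i, fun i => X i, fun i => a3 _ i.2, fun i => a4 _ i.2, ?_, ?_, ?_⟩
  · rw [← a5, Finset.sum_range]
  · intro i
    rw [hvel, norm_smul, norm_inv, Real.norm_of_nonneg (a3 _ i.2).le]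
    have := a6 _ i.2
    rw [inv_mul_le_iff₀ (a3 _ i.2)]
    linarith
  · refine le_trans (le_of_eq ?_) a7
    unfold dact
    rw [Finset.sum_range]
    apply Finset.sum_congr rfl
    intro i _
    rw [hvel]

/-- straight lines -/
lemma TL.line_path {f : E × E → ℝ} (h : TL f) {R C : ℝ} (hC : ∀ x v : E, ‖v‖ ≤ R → ‖f (x, v)‖ ≤ C)
    (x v : E) (hv : ‖v‖ ≤ R) {T : ℝ} (hT : 0 < T) : Path f x (x + T • v) T (C * T) := by
  have h1 : ∀ r : ℝ, HasDerivAt (fun s : ℝ => x + s • v) v r := by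
    intro r
    have := ((hasDerivAt_id r).smul_const v).const_add x
    rw [one_smul] at this
    exact this
  have h2 := h.path_of_curve hT h1 continuous_const
  simp only [zero_smul, add_zero, sub_zero] at h2
  apply h2.mono
  have h3 := intervalIntegral.norm_integral_le_of_norm_le_const (a := (0 : ℝ)) (b := T) (C := C)
    (f := fun r => f (x + r • v, v)) (fun r _ => hC _ _ hv)
  rw [Real.norm_eq_abs, sub_zero, abs_of_pos hT] at h3
  exact (le_abs_self _).trans h3

/-- **Existence of a continuous periodic dominated function.** -/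
theorem exists_potential {f : E × E → ℝ} (h : TL f) {φ : Flow ℝ (T2 × E)} (hφ : Compat f φ)
    (hN : ∀ μ, Inv (desc f) φ μ → 0 ≤ ∫ z, desc f z ∂μ) : ∃ u : E → ℝ, Continuous u ∧
      (∀ (k : Fin 2 → ℤ) (x : E), u (x + ι k) = u x) ∧
      ∀ (c c' : ℝ → E) (s t : ℝ), s < t → (∀ r, HasDerivAt c (c' r) r) → Continuous c' →
        u (c t) - u (c s) ≤ ∫ r in s..t, f (c r, c' r) := by
  set A : E → Set ℝ := fun y => {a | ∃ (k : Fin 2 → ℤ) (T : ℝ), 0 < T ∧ Path f 0 (y + ι k) T a}
    with hA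
  obtain ⟨C2, hC20, hC2⟩ := bounded_of_per h.continuous h.per 2
  have hne : ∀ y, (A y).Nonempty := by
    intro y
    obtain ⟨C, hC0, hC⟩ := bounded_of_per h.continuous h.per ‖y‖
    refine ⟨C * 1, 0, 1, one_pos, ?_⟩
    have := h.line_path hC 0 y le_rfl one_pos
    simpa [ι_zero] using this
  have hbdd : ∀ y, BddBelow (A y) := by
    intro y
    refine ⟨-C2, ?_⟩
    rintro a ⟨k, T, hT, hp⟩
    obtain ⟨l, hl⟩ := exists_shift (y + ι k)
    have h1 := h.line_path hC2 (y + ι k) (-(y + ι k + ι l)) (by rwa [norm_neg]) one_pos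
    have e : y + ι k + (1 : ℝ) • -(y + ι k + ι l) = 0 + ι (-l) := by
      rw [ι_neg]; module
    rw [e] at h1
    have h2 := hp.concat h1
    have h3 := closed_path_nonneg h hφ hN (by linarith) (-l) h2
    linarith
  set u : E → ℝ := fun y => sInf (A y) with hu
  have hdom : ∀ (c c' : ℝ → E) (s t : ℝ), s < t → (∀ r, HasDerivAt c (c' r) r) → Continuous c' →
      u (c t) - u (c s) ≤ ∫ r in s..t, f (c r, c' r) := by
    intro c c' s t hst hc hc'
    have h1 : u (c t) - (∫ r in s..t, f (c r, c' r)) ≤ u (c s) := by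
      apply le_csInf (hne _)
      rintro a ⟨k, T, hT, hp⟩
      have h2 := (h.path_of_curve hst hc hc').translate h.per k
      have h3 := hp.concat h2
      have h4 : u (c t) ≤ a + ∫ r in s..t, f (c r, c' r) :=
        csInf_le (hbdd _) ⟨k, T + (t - s), by linarith, h3⟩
      linarith
    linarith
  have hper : ∀ (k : Fin 2 → ℤ) (x : E), u (x + ι k) = u x := by
    intro k x
    have : A (x + ι k) = A x := by
      ext a
      constructor
      · rintro ⟨l, T, hT, hp⟩
        refine ⟨k + l, T, hT, ?_⟩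
        rwa [ι_add, ← add_assoc]
      · rintro ⟨l, T, hT, hp⟩
        refine ⟨l - k, T, hT, ?_⟩
        have e : x + ι k + ι (l - k) = x + ι l := by
          rw [add_assoc, ← ι_add, add_sub_cancel]
        rwa [e]
    simp only [hu, this]
  refine ⟨u, ?_, hper, hdom⟩
  -- Lipschitz continuity
  obtain ⟨C1, hC10, hC1⟩ := bounded_of_per h.continuous h.per 1
  have hlip : ∀ x y : E, u y - u x ≤ C1 * ‖y - x‖ := by
    intro x y
    by_cases hxy : ‖y - x‖ = 0
    · rw [norm_eq_zero, sub_eq_zero] at hxy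
      simp [hxy]
    have hpos : 0 < ‖y - x‖ := lt_of_le_of_ne (norm_nonneg _) (Ne.symm hxy)
    set e : E := ‖y - x‖⁻¹ • (y - x) with he
    have hen : ‖e‖ ≤ 1 := by
      rw [he, norm_smul, norm_inv, norm_norm, inv_mul_cancel₀ hxy]
    have h1 : ∀ r : ℝ, HasDerivAt (fun s : ℝ => x + s • e) e r := by
      intro r
      have := ((hasDerivAt_id r).smul_const e).const_add x
      rw [one_smul] at this
      exact this
    have h2 := hdom _ _ 0 ‖y - x‖ hpos h1 continuous_const
    have e1 : x + ‖y - x‖ • e = y := by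
      rw [he, smul_smul, mul_inv_cancel₀ hxy, one_smul, add_sub_cancel]
    simp only [zero_smul, add_zero, e1] at h2
    have h3 := intervalIntegral.norm_integral_le_of_norm_le_const (a := (0 : ℝ)) (b := ‖y - x‖)
      (C := C1) (f := fun r => f (x + r • e, e)) (fun r _ => hC1 _ _ hen)
    rw [Real.norm_eq_abs, sub_zero, abs_of_pos hpos] at h3
    exact h2.trans ((le_abs_self _).trans h3)
  have hL : LipschitzWith (Real.toNNReal C1) u := by
    apply LipschitzWith.of_dist_le_mul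
    intro x y
    rw [Real.dist_eq, dist_eq_norm, Real.coe_toNNReal _ hC10, abs_le]
    have h1 := hlip x y
    have h2 := hlip y x
    rw [norm_sub_rev] at h1
    constructor <;> linarith
  exact hL.continuous

end Pool.Agent.Work.MP_c99f5e_an
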