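import Pool.Agent.Work.MP_c99f5e_an.Recur
import Pool.Agent.Work.MP_c99f5e_an.Graph
import Pool.Agent.Work.MP_c99f5e_an.Path

/-!
# The main inequality
-/

set_option autoImplicit false

open Filter Topology Set MeasureTheory
open scoped NNReal

namespace Pool.Agent.Work.MP_c99f5e_an

section

variable {f : E × E → ℝ} {φ : Flow ℝ (T2 × E)} {u : E → ℝ}

/-- the closed form obtained from a compact invariant set without closed orbits in `I` -/
lemma Core.form_exists (h : Core f φ u) {e0 R : ℝ} (hR0 : 0 ≤ R)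
    (hR : ∀ x v : E, En f (x, v) ≤ e0 → ‖v‖ ≤ R)
    {K : Set (T2 × E)} (hKI : K ⊆ Iset f φ u e0) (hK : IsCompact K) (hKne : K.Nonempty)
    (hKinv : ∀ t, ∀ z ∈ K, φ t z ∈ K) (hKnp : ∀ z ∈ K, ∀ t > 0, φ t z ≠ z) :
    ∃ (ω : E → E →L[ℝ] ℝ) (F : E → ℝ) (c : E) (δ : ℝ), 0 < δ ∧ Continuous ω ∧
      (∀ (k : Fin 2 → ℤ) x, ω (x + ι k) = ω x) ∧ (∀ x, HasFDerivAt F (ω x) x) ∧
      (∀ (k : Fin 2 → ℤ) x, F (x + ι k) = F x + inner ℝ c (ι k)) ∧ c ≠ 0 ∧
      ∀ x w x' w', (q x', w') ∈ Iset f φ u e0 → ‖x - x'‖ ≤ δ → ‖w - w'‖ ≤ δ → 0 ≤ ω x w := by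
  obtain ⟨V, Λ, hVL, hVI⟩ := h.exists_field hR0 hR
  obtain ⟨z0, hz0K, hrec0⟩ := exists_recurrent φ hK hKne hKinv
  obtain ⟨x0, v0⟩ := z0
  obtain ⟨x0, rfl⟩ := q_surj x0
  obtain ⟨γ, γ', h0, h0', hγ, hz⟩ := h.compat x0 v0
  set P : E → E → Prop := fun x w => (q x, w) ∈ Iset f φ u e0 with hP
  have hPper : ∀ (k : Fin 2 → ℤ) x w, P x w → P (x + ι k) w := by
    intro k x w hxw
    simp only [hP]
    rw [q_add_ι]
    exact hxw
  have hPγ : ∀ t, P (γ t) (γ' t) := by
    intro t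
    simp only [hP]
    rw [← hz t]
    exact hKI (hKinv t _ hz0K)
  have hV : ∀ x y, ‖V x - V y‖ ≤ (Λ : ℝ) * ‖x - y‖ := by
    intro x y
    have := hVL.dist_le_mul x y
    rwa [dist_eq_norm, dist_eq_norm] at this
  have hRγ : ∀ t, ‖γ' t‖ ≤ R := fun t => hR _ _ ((h.tl.mem_S _ _).mp (hPγ t).1)
  have hne : ∀ t, γ' t ≠ 0 := by
    intro t1 ht1
    have hVt : V (γ t1) = 0 := by rw [hVI _ _ (hPγ t1), ht1]
    have heq : γ = fun _ => γ t1 := by
      apply ODE_solution_unique_univ (v := fun _ => V) (s := fun _ => univ) (K := Λ) (t₀ := t1)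
        (fun _ => hVL.lipschitzOnWith)
      · intro t
        refine ⟨?_, mem_univ _⟩
        rw [hVI _ _ (hPγ t)]
        exact hγ.vel t
      · intro t
        refine ⟨?_, mem_univ _⟩
        rw [hVt]
        exact hasDerivAt_const t _
      · rfl
    have hγ'0 : ∀ t, γ' t = 0 := by
      intro t
      have h1 := hγ.vel t
      rw [heq] at h1
      exact h1.unique (hasDerivAt_const t _)
    apply hKnp _ hz0K 1 one_pos
    rw [hz 1, ← h0, ← h0', hγ'0, hγ'0]
    rw [congrFun heq 1, congrFun heq 0]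
  have hrec : ∀ ε > 0, ∃ t ≥ (1 : ℝ), ∃ k : Fin 2 → ℤ, ‖γ t - γ 0 - ι k‖ < ε := by
    intro ε hε
    have hU : (q '' Metric.ball x0 ε) ×ˢ (univ : Set E) ∈ 𝓝 (q x0, v0) := by
      apply prod_mem_nhds _ univ_mem
      exact (isOpenQuotientMap_q.isOpenMap _ Metric.isOpen_ball).mem_nhds
        ⟨x0, Metric.mem_ball_self hε, rfl⟩
    obtain ⟨n, hn, hnU⟩ := hrec0 _ hU
    rw [hz n] at hnU
    obtain ⟨⟨y, hy, hqy⟩, -⟩ := hnU
    obtain ⟨k, hk⟩ := (q_eq_iff _ _).mp hqy
    refine ⟨n, by exact_mod_cast hn, k, ?_⟩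
    rw [h0, hk]
    rw [Metric.mem_ball, dist_eq_norm] at hy
    have e : y + ι k - x0 - ι k = y - x0 := by abel
    rw [e]
    exact hy
  have hnp : ∀ t > 0, ∀ k : Fin 2 → ℤ, γ t ≠ γ 0 + ι k := by
    intro t ht k hk
    have h1 : V (γ t) = γ' t := hVI _ _ (hPγ t)
    have h2 : V (γ 0 + ι k) = γ' 0 := hVI _ _ (hPper _ _ _ (hPγ 0))
    apply hKnp _ hz0K t ht
    rw [hz t, hk, q_add_ι, ← h1, hk, h2, h0, h0']
  have hΛ : (0 : ℝ) ≤ Λ := Λ.2
  obtain ⟨T, k, σ, hT, hσ, hσm, hcl⟩ := exists_return hPper hΛ hV hVI hγ.vel hPγ (hne 0) hR0 hRγ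
    hrec hnp (σm := 1 / (32 * ((Λ : ℝ) + 1))) (by positivity)
  have hσs : (Λ : ℝ) * |σ| ≤ 1 / 32 := by
    calc (Λ : ℝ) * |σ| ≤ Λ * (1 / (32 * ((Λ : ℝ) + 1))) := mul_le_mul_of_nonneg_left hσm hΛ
      _ ≤ 1 / 32 := by
          rw [mul_one_div, div_le_div_iff₀ (by positivity) (by norm_num)]
          linarith
  exact exists_form hPper hΛ hV hVI hγ.vel hγ.cont hPγ hne hT hσ hcl hσs hrec

/-- separation of the negativity region of the form from the zero set of `D` -/
lemma Core.D_lower (h : Core f φ u) {e0 R : ℝ}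
    (hR : ∀ x v : E, En f (x, v) ≤ e0 → ‖v‖ ≤ R) {ω : E → E →L[ℝ] ℝ}
    (hωp : ∀ (k : Fin 2 → ℤ) x, ω (x + ι k) = ω x) {δ : ℝ} (hδ : 0 < δ)
    (hω : ∀ x w x' w', (q x', w') ∈ Iset f φ u e0 → ‖x - x'‖ ≤ δ → ‖w - w'‖ ≤ δ → 0 ≤ ω x w) :
    ∃ d : ℝ, 0 < d ∧ ∀ x v : E, En f (x, v) ≤ e0 → ω x v < 0 → d ≤ Dfun f φ u (q x, v) := by
  by_contra hcon
  push Not at hcon
  have h1 : ∀ n : ℕ, ∃ x v : E, ‖x‖ ≤ 2 ∧ En f (x, v) ≤ e0 ∧ ω x v < 0 ∧
      Dfun f φ u (q x, v) < 1 / ((n : ℝ) + 1) := by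
    intro n
    obtain ⟨x, v, a1, a2, a3⟩ := hcon (1 / ((n : ℝ) + 1)) (by positivity)
    obtain ⟨k, hk⟩ := exists_shift x
    refine ⟨x + ι k, v, hk, ?_, ?_, ?_⟩
    · rw [per_En h.tl.per k x v]; exact a1
    · rw [hωp]; exact a2
    · rw [q_add_ι]; exact a3
  choose x v hx hEn hneg hD using h1
  have hK : IsCompact (Metric.closedBall (0 : E) 2 ×ˢ Metric.closedBall (0 : E) R) :=
    (isCompact_closedBall _ _).prod (isCompact_closedBall _ _)
  obtain ⟨⟨x1, v1⟩, -, ψ, hψ, hlim⟩ := hK.tendsto_subseq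
    (x := fun n => ((x n, v n) : E × E))
    (fun n => ⟨by simpa using hx n, by simpa using hR _ _ (hEn n)⟩)
  have hE1 : En f (x1, v1) ≤ e0 := by
    have := (h.tl.continuous_En.tendsto (x1, v1)).comp hlim
    exact le_of_tendsto' this (fun n => hEn _)
  have hDc : Continuous (fun z : E × E => Dfun f φ u (q z.1, z.2)) :=
    h.continuous_D.comp ((continuous_q.comp continuous_fst).prodMk continuous_snd)
  have hD1 : Dfun f φ u (q x1, v1) ≤ 0 := by
    have t1 := (hDc.tendsto (x1, v1)).comp hlim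
    have t2 : Tendsto (fun n : ℕ => 1 / (((ψ n : ℕ) : ℝ) + 1)) atTop (𝓝 0) :=
      tendsto_one_div_add_atTop_nhds_zero_nat.comp hψ.tendsto_atTop
    exact le_of_tendsto_of_tendsto' t1 t2 (fun n => (hD (ψ n)).le)
  have hI1 : (q x1, v1) ∈ Iset f φ u e0 :=
    ⟨(h.tl.mem_S _ _).mpr hE1, le_antisymm hD1 (h.D_nonneg _)⟩
  have hl := (Metric.tendsto_nhds.mp hlim) δ hδ
  obtain ⟨n, hn⟩ := hl.exists
  rw [Prod.dist_eq, max_lt_iff, dist_eq_norm, dist_eq_norm] at hn
  have h2 := hω (x (ψ n)) (v (ψ n)) x1 v1 hI1 hn.1.le hn.2.le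
  linarith [hneg (ψ n)]

/-- integrability of the velocity -/
lemma TL.integrable_vel (h : TL f) {μ : Measure (T2 × E)} (hμ : Inv (desc f) φ μ) :
    Integrable (fun z : T2 × E => z.2) μ := by
  have := hμ.prob
  obtain ⟨C, hC0, hC⟩ := h.superlinear 1
  have h1 : Integrable (fun z : T2 × E => desc f z + C) μ := hμ.int.add (integrable_const _)
  refine h1.mono' continuous_snd.aestronglyMeasurable ?_
  refine Eventually.of_forall ?_
  rintro ⟨x, v⟩
  obtain ⟨x, rfl⟩ := q_surj x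
  rw [desc_apply h.per]
  have := hC x v
  simp only
  linarith

/-- integral of a closed form against an invariant measure -/
lemma Core.integral_form (h : Core f φ u) {ω : E → E →L[ℝ] ℝ} (hωc : Continuous ω)
    (hωp : ∀ (k : Fin 2 → ℤ) x, ω (x + ι k) = ω x) {F : E → ℝ} {c : E}
    (hF : ∀ x, HasFDerivAt F (ω x) x)
    (hFp : ∀ (k : Fin 2 → ℤ) x, F (x + ι k) = F x + inner ℝ c (ι k))
    {μ : Measure (T2 × E)} (hμ : Inv (desc f) φ μ) :
    Integrable (desc (fun z : E × E => ω z.1 z.2)) μ ∧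
      ∫ z, desc (fun z : E × E => ω z.1 z.2) z ∂μ = inner ℝ c (∫ z, z.2 ∂μ) := by
  have := hμ.prob
  have hper : Per (fun z : E × E => ω z.1 z.2) := fun k x v => by simp only [hωp]
  have hcont : Continuous (fun z : E × E => ω z.1 z.2) :=
    (hωc.comp continuous_fst).clm_apply continuous_snd
  have hvi := h.tl.integrable_vel hμ
  obtain ⟨C, hC0, hC⟩ := bounded_of_per (G := fun z : E × E => ω z.1) (hωc.comp continuous_fst)
    (fun k x _ => hωp k x) 0
  have hint : Integrable (desc (fun z : E × E => ω z.1 z.2)) μ := by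
    have h1 : Integrable (fun z : T2 × E => C * ‖z.2‖) μ := hvi.norm.const_mul C
    refine h1.mono' (continuous_desc hcont hper).aestronglyMeasurable ?_
    refine Eventually.of_forall ?_
    rintro ⟨x, v⟩
    obtain ⟨x, rfl⟩ := q_surj x
    rw [desc_apply hper]
    exact ((ω x).le_opNorm v).trans (mul_le_mul_of_nonneg_right (hC x 0 (by simp)) (norm_nonneg _))
  refine ⟨hint, ?_⟩
  set H : T2 × E → ℝ := fun z => desc (fun z : E × E => ω z.1 z.2) z - inner ℝ c z.2 with hH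
  have hHc : Continuous H := (continuous_desc hcont hper).sub
    (continuous_const.inner continuous_snd)
  have hci : Integrable (fun z : T2 × E => inner ℝ c z.2) μ := hvi.const_inner c
  have hHi : Integrable H μ := hint.sub hci
  -- periodic function
  set p : E → ℝ := fun x => F x - inner ℝ c x with hp
  have hpc : Continuous p := by
    have h1 : Continuous F := continuous_iff_continuousAt.mpr (fun x => (hF x).continuousAt)
    exact h1.sub (continuous_const.inner continuous_id)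
  have hpp : Per (fun z : E × E => p z.1) := by
    intro k x v
    simp only [hp, hFp, inner_add_right]
    ring
  have hkey : ∀ z, ∫ s in (0 : ℝ)..1, H (φ s z) = ud p (φ 1 z) - ud p z := by
    rintro ⟨x, v⟩
    obtain ⟨x, rfl⟩ := q_surj x
    obtain ⟨γ, γ', h0, h0', hγ, hz⟩ := h.compat x v
    have e1 : ud p (φ 1 (q x, v)) = p (γ 1) := by
      rw [hz]; exact desc_apply hpp _ _
    have e0 : ud p (q x, v) = p (γ 0) := by
      rw [h0]; exact desc_apply hpp _ _
    rw [e1, e0]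
    have e2 : ∀ s, H (φ s (q x, v)) = ω (γ s) (γ' s) - inner ℝ c (γ' s) := by
      intro s
      simp only [hH]
      rw [hz, desc_apply hper]
    simp only [e2]
    have hd : ∀ s, HasDerivAt (fun s => p (γ s)) (ω (γ s) (γ' s) - inner ℝ c (γ' s)) s := by
      intro s
      have d1 : HasDerivAt (fun s => F (γ s)) (ω (γ s) (γ' s)) s :=
        (hF (γ s)).comp_hasDerivAt s (hγ.vel s)
      have d2 : HasDerivAt (fun s => inner ℝ c (γ s)) (inner ℝ c (γ' s)) s := by
        have := (hasDerivAt_const s c).inner ℝ (hγ.vel s)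
        rw [inner_zero_left, add_zero] at this
        exact this
      exact d1.sub d2
    have hc2 : Continuous (fun s => ω (γ s) (γ' s) - inner ℝ c (γ' s)) :=
      ((hωc.comp hγ.continuous).clm_apply hγ.cont).sub (continuous_const.inner hγ.cont)
    exact intervalIntegral.integral_eq_sub_of_hasDerivAt (fun s _ => hd s)
      (hc2.intervalIntegrable _ _)
  obtain ⟨-, havg⟩ := flow_avg φ hμ.inv hHc hHi (show (0 : ℝ) ≤ 1 by norm_num)
  simp only [hkey] at havg
  have hudc : Continuous (ud p) := continuous_desc (hpc.comp continuous_fst) hpp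
  obtain ⟨Cp, _, hCp⟩ := bounded_of_per (G := fun z : E × E => p z.1)
    (hpc.comp continuous_fst) hpp 0
  have hudb : ∀ z, ‖ud p z‖ ≤ Cp := by
    rintro ⟨x, v⟩
    obtain ⟨x, rfl⟩ := q_surj x
    have : ud p (q x, v) = p x := desc_apply hpp _ _
    rw [this]
    exact hCp x 0 (by simp)
  have hudi : ∀ t, Integrable (fun z => ud p (φ t z)) μ := fun t =>
    Integrable.of_bound (hudc.comp (φ.continuous continuous_const continuous_id)).aestronglyMeasurable
      Cp (Eventually.of_forall (fun z => hudb _))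
  have hudi0 : Integrable (fun z => ud p z) μ :=
    Integrable.of_bound hudc.aestronglyMeasurable Cp (Eventually.of_forall (fun z => hudb _))
  rw [integral_sub (hudi 1) hudi0, integral_flow φ hμ.inv hudc, sub_self] at havg
  have hH0 : ∫ z, H z ∂μ = 0 := by linarith
  simp only [hH] at hH0
  rw [integral_sub hint hci, integral_inner hvi] at hH0
  linarith

/-- **Main inequality.** -/
theorem core_main (h : TL f) (hφ : Compat f φ)
    (hN : ∀ μ, Inv (desc f) φ μ → 0 ≤ ∫ z, desc f z ∂μ) {M : Set (T2 × E)}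
    (hM : M ⊆ closure (⋃ μ ∈ {μ | Inv (desc f) φ μ ∧ ∫ z, desc f z ∂μ = 0}, μ.support))
    {K : Set (T2 × E)} (hKM : K ⊆ M) (hK : IsCompact K) (hKne : K.Nonempty)
    (hKinv : ∀ t, ∀ z ∈ K, φ t z ∈ K) (hKnp : ∀ z ∈ K, ∀ t > 0, φ t z ≠ z) :
    (∀ z ∈ M, (∀ t, φ t z = z) → desc f z = 0) ∧
      ∃ c : E, c ≠ 0 ∧ ∀ μ, Inv (desc f) φ μ → inner ℝ c (∫ z, z.2 ∂μ) ≤ ∫ z, desc f z ∂μ := by
  obtain ⟨u, huc, hup, hdom⟩ := exists_potential h hφ hN
  have hC : Core f φ u := ⟨h, hφ, huc, hup, hdom⟩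
  obtain ⟨e0, R, hR0, hoff, hR⟩ := h.exists_e0
  have hMI : M ⊆ Iset f φ u e0 := by
    refine hM.trans (closure_minimal ?_ (hC.isClosed_I e0))
    apply iUnion₂_subset
    rintro μ ⟨hμ, hμ0⟩
    exact hC.support_subset hoff hμ hμ0
  constructor
  · intro z hz hfix
    have hD : Dfun f φ u z = 0 := (hMI hz).2
    unfold Dfun at hD
    simp only [hfix] at hD
    rw [intervalIntegral.integral_const, smul_eq_mul] at hD
    linarith
  · obtain ⟨ω, F, c, δ, hδ, hωc, hωp, hF, hFp, hc, hω⟩ :=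
      hC.form_exists hR0 hR (hKM.trans hMI) hK hKne hKinv hKnp
    obtain ⟨d, hd, hdl⟩ := hC.D_lower hR hωp hδ hω
    have hper : Per (fun z : E × E => ω z.1 z.2) := fun k x v => by simp only [hωp]
    obtain ⟨Cω, hCω0, hCω⟩ := bounded_of_per (G := fun z : E × E => ω z.1)
      (hωc.comp continuous_fst) (fun k x _ => hωp k x) 0
    have hωb : ∀ x v : E, -(Cω * ‖v‖) ≤ ω x v := by
      intro x v
      have h1 : ‖ω x v‖ ≤ Cω * ‖v‖ := ((ω x).le_opNorm v).trans
        (mul_le_mul_of_nonneg_right (hCω x 0 (by simp)) (norm_nonneg _))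
      rw [Real.norm_eq_abs] at h1
      exact (abs_le.mp h1).1
    obtain ⟨ε, hε0, hε1, hε2⟩ : ∃ ε : ℝ, 0 < ε ∧ ε * (Cω * R) ≤ d ∧ ε / 2 * Cω ≤ 1 := by
      refine ⟨min (d / (Cω * R + 1)) (2 / (Cω + 1)), lt_min (by positivity) (by positivity), ?_, ?_⟩
      · calc _ ≤ d / (Cω * R + 1) * (Cω * R) :=
              mul_le_mul_of_nonneg_right (min_le_left _ _) (by positivity)
          _ ≤ d := by
              rw [div_mul_eq_mul_div, div_le_iff₀ (by positivity)]
              nlinarith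
      · have h1 : min (d / (Cω * R + 1)) (2 / (Cω + 1)) ≤ 2 / (Cω + 1) := min_le_right _ _
        calc _ ≤ (2 / (Cω + 1)) / 2 * Cω := by gcongr
          _ ≤ 1 := by
              rw [div_div, div_mul_eq_mul_div, div_le_one (by positivity)]
              nlinarith
    refine ⟨-(ε / 2) • c, smul_ne_zero (by
      have : ε / 2 ≠ 0 := by positivity
      exact neg_ne_zero.mpr this) hc, ?_⟩
    intro μ hμ
    have := hμ.prob
    obtain ⟨hωi, hωint⟩ := hC.integral_form hωc hωp hF hFp hμ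
    set ωd : T2 × E → ℝ := desc (fun z : E × E => ω z.1 z.2) with hωd
    have hS := (h.isClosed_S e0).measurableSet
    -- on S
    have hon : ∀ z ∈ Sset f e0, 0 ≤ Dfun f φ u z + ε * ωd z := by
      rintro ⟨x, v⟩ hz
      obtain ⟨x, rfl⟩ := q_surj x
      rw [h.mem_S] at hz
      rw [hωd, desc_apply hper]
      simp only
      by_cases hneg : ω x v < 0
      · have h1 := hdl x v hz hneg
        have h2 := hωb x v
        have h3 : Cω * ‖v‖ ≤ Cω * R := mul_le_mul_of_nonneg_left (hR x v hz) hCω0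
        have h4 : ε * (-(Cω * R)) ≤ ε * ω x v := mul_le_mul_of_nonneg_left (by linarith) hε0.le
        linarith
      · push Not at hneg
        have := hC.D_nonneg (q x, v)
        positivity
    have hoff2 : ∀ z ∈ (Sset f e0)ᶜ, 0 ≤ desc f z + ε / 2 * ωd z := by
      rintro ⟨x, v⟩ hz
      obtain ⟨x, rfl⟩ := q_surj x
      rw [mem_compl_iff, h.mem_S, not_le] at hz
      rw [hωd, desc_apply hper, desc_apply h.per]
      simp only
      obtain ⟨h1, h2⟩ := hoff x v hz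
      have h3 := hωb x v
      have h4 : ε / 2 * (-(Cω * ‖v‖)) ≤ ε / 2 * ω x v := mul_le_mul_of_nonneg_left h3 (by positivity)
      have h5 : ε / 2 * Cω * ‖v‖ ≤ 1 * ‖v‖ := mul_le_mul_of_nonneg_right hε2 (norm_nonneg _)
      linarith
    obtain ⟨hDi, hD⟩ := hC.integral_D (ν := μ.restrict (Sset f e0)) (hC.restrict_inv hμ.inv)
      hμ.int.restrict
    have i1 : 0 ≤ ∫ z in Sset f e0, (Dfun f φ u z + ε * ωd z) ∂μ :=
      setIntegral_nonneg hS hon
    have i2 : 0 ≤ ∫ z in (Sset f e0)ᶜ, (desc f z + ε / 2 * ωd z) ∂μ :=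
      setIntegral_nonneg hS.compl hoff2
    rw [integral_add hDi (hωi.restrict.const_mul ε), hD, integral_const_mul] at i1
    rw [integral_add hμ.int.restrict (hωi.restrict.const_mul (ε / 2)), integral_const_mul] at i2
    have s1 := integral_add_compl hS hμ.int
    have s2 := integral_add_compl hS hωi
    rw [inner_smul_left]
    simp only [conj_trivial]
    rw [← hωint, ← s1, ← s2]
    linarith

end

end Pool.Agent.Work.MP_c99f5e_an
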