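import Pool.Agent.Work.MP_c99f5e_an.Basic

/-!
# Modification of a Tonelli Lagrangian for large velocities
-/

set_option autoImplicit false

open Filter Topology Set

namespace Pool.Agent.Work.MP_c99f5e_an

lemma hasDerivAt_maxpow (n : ℕ) (hn : 1 ≤ n) (s : ℝ) :
    HasDerivAt (fun s : ℝ => (max s 0) ^ (n + 1)) ((n + 1 : ℕ) * (max s 0) ^ n) s := by
  rcases lt_trichotomy s 0 with hs | hs | hs
  · have h1 : (fun s : ℝ => (max s 0) ^ (n + 1)) =ᶠ[𝓝 s] fun _ => (0 : ℝ) := by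
      filter_upwards [Iio_mem_nhds hs] with r hr
      rw [max_eq_right (le_of_lt hr)]
      simp
    have h2 : (max s 0) = 0 := max_eq_right hs.le
    rw [h2, zero_pow (by omega), mul_zero]
    exact (hasDerivAt_const s (0 : ℝ)).congr_of_eventuallyEq h1
  · subst hs
    rw [max_self, zero_pow (by omega), mul_zero]
    rw [hasDerivAt_iff_isLittleO]
    have h1 : (fun x' : ℝ => (max x' 0) ^ (n + 1) - (max (0 : ℝ) 0) ^ (n + 1) - (x' - 0) • (0 : ℝ)) =
        fun x' : ℝ => (max x' 0) ^ (n + 1) := by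
      funext x'
      simp
    rw [h1]
    have h2 : (fun x' : ℝ => (max x' 0) ^ (n + 1)) =O[𝓝 0] fun x' : ℝ => x' ^ (n + 1) := by
      apply Asymptotics.IsBigO.of_bound 1
      filter_upwards with x
      rw [one_mul, norm_pow, norm_pow]
      apply pow_le_pow_left₀ (norm_nonneg _)
      rw [Real.norm_eq_abs, Real.norm_eq_abs, abs_of_nonneg (le_max_right _ _)]
      exact max_le (le_abs_self x) (abs_nonneg x)
    have h3 : (fun x' : ℝ => x' ^ (n + 1)) =o[𝓝 0] fun x' : ℝ => x' := by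
      have := Asymptotics.isLittleO_pow_pow (𝕜 := ℝ) (m := 1) (n := n + 1) (by omega)
      simpa using this
    simpa using h2.trans_isLittleO h3
  · have h1 : (fun s : ℝ => (max s 0) ^ (n + 1)) =ᶠ[𝓝 s] fun r => r ^ (n + 1) := by
      filter_upwards [Ioi_mem_nhds hs] with r hr
      rw [max_eq_left (le_of_lt hr)]
    rw [max_eq_left hs.le]
    have h2 := hasDerivAt_pow (n + 1) s
    simp only [Nat.add_sub_cancel] at h2
    exact h2.congr_of_eventuallyEq h1

lemma contDiff_maxcube : ContDiff ℝ 2 (fun s : ℝ => (max s 0) ^ 3) := by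
  have d1 : deriv (fun s : ℝ => (max s 0) ^ 3) = fun s => (3 : ℝ) * (max s 0) ^ 2 := by
    funext s
    have := (hasDerivAt_maxpow 2 (by norm_num) s).deriv
    simpa using this
  have d2 : deriv (fun s : ℝ => (3 : ℝ) * (max s 0) ^ 2) = fun s => (3 : ℝ) * (2 * (max s 0)) := by
    funext s
    have := ((hasDerivAt_maxpow 1 (by norm_num) s).const_mul 3).deriv
    simpa using this
  have e : (2 : WithTop ℕ∞) = 1 + 1 := by norm_num
  rw [e, contDiff_succ_iff_deriv]
  refine ⟨fun s => (hasDerivAt_maxpow 2 (by norm_num) s).differentiableAt, by simp, ?_⟩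
  rw [d1, contDiff_one_iff_deriv]
  refine ⟨fun s => ((hasDerivAt_maxpow 1 (by norm_num) s).const_mul 3).differentiableAt, ?_⟩
  rw [d2]
  fun_prop

/-- the penalty -/
noncomputable def pen (R : ℝ) (v : E) : ℝ := (max (‖v‖ ^ 2 - R ^ 2) 0) ^ 3

lemma contDiff_pen (R : ℝ) : ContDiff ℝ 2 (pen R) := by
  unfold pen
  exact contDiff_maxcube.comp ((contDiff_norm_sq ℝ).sub contDiff_const)

lemma hasDerivAt_line_gen {g : E × E → ℝ} (hg : Differentiable ℝ g) (x v w : E) (t : ℝ) :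
    HasDerivAt (fun s : ℝ => g (x, v + s • w)) (dv g (x, v + t • w) w) t := by
  have h1 : HasDerivAt (fun s : ℝ => ((x, v + s • w) : E × E)) ((0 : E), w) t := by
    have h2 : HasDerivAt (fun s : ℝ => v + s • w) w t := by
      simpa using ((hasDerivAt_id t).smul_const w).const_add v
    exact (hasDerivAt_const t x).prodMk h2
  exact (hg (x, v + t • w)).hasFDerivAt.comp_hasDerivAt t h1

lemma hasDerivAt_line2_gen {g : E × E → ℝ} (hg : ContDiff ℝ 2 g) (x v w : E) (t : ℝ) :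
    HasDerivAt (fun s : ℝ => dv g (x, v + s • w) w)
      (fderiv ℝ (fderiv ℝ g) (x, v + t • w) (0, w) (0, w)) t := by
  have h1 : HasDerivAt (fun s : ℝ => ((x, v + s • w) : E × E)) ((0 : E), w) t := by
    have h2 : HasDerivAt (fun s : ℝ => v + s • w) w t := by
      simpa using ((hasDerivAt_id t).smul_const w).const_add v
    exact (hasDerivAt_const t x).prodMk h2
  have hg1 : ContDiff ℝ 1 (fderiv ℝ g) := hg.fderiv_right (by norm_num)
  have h3 := ((hg1.differentiable (by norm_num)) (x, v + t • w)).hasFDerivAt.comp_hasDerivAt t h1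
  have h4 := h3.clm_apply (hasDerivAt_const t ((0 : E), w))
  rw [map_zero, add_zero] at h4
  exact h4

/-- Hessian of the penalty -/
lemma pen_hess (R : ℝ) (x v w : E) :
    6 * (max (‖v‖ ^ 2 - R ^ 2) 0) ^ 2 * ‖w‖ ^ 2 ≤
      fderiv ℝ (fderiv ℝ (fun z : E × E => pen R z.2)) (x, v) (0, w) (0, w) := by
  set H : E × E → ℝ := fun z => pen R z.2 with hH
  have hHc : ContDiff ℝ 2 H := (contDiff_pen R).comp contDiff_snd
  set qq : ℝ → ℝ := fun t => ‖v + t • w‖ ^ 2 - R ^ 2 with hqq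
  have hq : ∀ t, HasDerivAt qq (2 * inner ℝ (v + t • w) w) t := by
    intro t
    have h2 : HasDerivAt (fun s : ℝ => v + s • w) w t := by
      simpa using ((hasDerivAt_id t).smul_const w).const_add v
    exact (h2.norm_sq).sub_const _
  have h1 : ∀ t, HasDerivAt (fun s => H (x, v + s • w))
      (3 * (max (qq t) 0) ^ 2 * (2 * inner ℝ (v + t • w) w)) t := by
    intro t
    have h' : HasDerivAt (fun s => H (x, v + s • w))
        (((2 + 1 : ℕ) : ℝ) * (max (qq t) 0) ^ 2 * (2 * inner ℝ (v + t • w) w)) t :=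
      (hasDerivAt_maxpow 2 (by norm_num) (qq t)).comp t (hq t)
    convert h' using 1
    norm_num
  have h2 : ∀ t, dv H (x, v + t • w) w = 3 * (max (qq t) 0) ^ 2 * (2 * inner ℝ (v + t • w) w) :=
    fun t => (hasDerivAt_line_gen (hHc.differentiable (by norm_num)) x v w t).unique (h1 t)
  have h3 : HasDerivAt (fun s => dv H (x, v + s • w) w)
      (3 * (2 * max (qq 0) 0 * (2 * inner ℝ (v + (0 : ℝ) • w) w)) * (2 * inner ℝ (v + (0 : ℝ) • w) w)
        + 3 * (max (qq 0) 0) ^ 2 * (2 * ‖w‖ ^ 2)) (0 : ℝ) := by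
    have e : (fun s => dv H (x, v + s • w) w) =
        fun s => 3 * (max (qq s) 0) ^ 2 * (2 * inner ℝ (v + s • w) w) := by
      funext s; exact h2 s
    rw [e]
    have a1 : HasDerivAt (fun s => 3 * (max (qq s) 0) ^ 2)
        (3 * (2 * max (qq 0) 0 * (2 * inner ℝ (v + (0 : ℝ) • w) w))) (0 : ℝ) := by
      have h' : HasDerivAt (fun s => 3 * (max (qq s) 0) ^ 2)
          (3 * (((1 + 1 : ℕ) : ℝ) * (max (qq 0) 0) ^ 1 * (2 * inner ℝ (v + (0 : ℝ) • w) w))) (0 : ℝ) :=
        ((hasDerivAt_maxpow 1 (by norm_num) (qq 0)).comp (0 : ℝ) (hq 0)).const_mul 3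
      convert h' using 1
      norm_num
    have a2 : HasDerivAt (fun s : ℝ => 2 * inner ℝ (v + s • w) w) (2 * ‖w‖ ^ 2) (0 : ℝ) := by
      have b1 : HasDerivAt (fun s : ℝ => v + s • w) w (0 : ℝ) := by
        simpa using ((hasDerivAt_id (0 : ℝ)).smul_const w).const_add v
      have b2 := (b1.inner ℝ (hasDerivAt_const (0 : ℝ) w)).const_mul 2
      simpa [real_inner_self_eq_norm_sq] using b2
    exact a1.mul a2
  have h4 := (hasDerivAt_line2_gen hHc x v w 0).unique h3
  rw [zero_smul, add_zero] at h4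
  rw [h4]
  have h5 : qq 0 = ‖v‖ ^ 2 - R ^ 2 := by simp [hqq]
  rw [h5]
  set m := max (‖v‖ ^ 2 - R ^ 2) 0 with hm
  have hm0 : 0 ≤ m := le_max_right _ _
  have h6 : 0 ≤ 3 * (2 * m * (2 * inner ℝ v w)) * (2 * inner ℝ v w) := by
    have : 3 * (2 * m * (2 * inner ℝ v w)) * (2 * inner ℝ v w) = 24 * m * (inner ℝ v w) ^ 2 := by
      ring
    rw [this]; positivity
  nlinarith

/-- **Modification lemma.** -/
lemma TL.modify {f : E × E → ℝ} (h : TL f) {R C1 : ℝ} (hR : 1 ≤ R) (hC10 : 0 ≤ C1)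
    (hC1 : ∀ x v : E, ‖v‖ - C1 ≤ f (x, v)) :
    ∃ g : E × E → ℝ, ContDiff ℝ 2 g ∧ Per g ∧ (∀ x v : E, ‖v‖ < R → g (x, v) = f (x, v)) ∧
      (∀ x v v' : E, 0 ≤ (dv g (x, v') - dv g (x, v)) (v' - v)) ∧
      (∃ Cx : ℝ, 0 ≤ Cx ∧ ∀ z, ‖dx g z‖ ≤ Cx) ∧ (∀ x v : E, ‖v‖ - C1 ≤ g (x, v)) := by
  have hR0 : 0 < R := by linarith
  let χ : ContDiffBump (0 : E) := ⟨2 * R, 3 * R, by linarith, by linarith⟩
  set F : E × E → ℝ := fun z => χ z.2 * f z with hF
  have hχ : ContDiff ℝ 2 (fun z : E × E => χ z.2) := χ.contDiff.comp contDiff_snd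
  have hFc : ContDiff ℝ 2 F := hχ.mul h.smooth
  have hFp : Per F := by
    intro k x v
    simp only [hF]
    rw [h.per k x v]
  have hF1 : ContDiff ℝ 1 (fderiv ℝ F) := hFc.fderiv_right (by norm_num)
  -- F vanishes for large velocities
  have hF0 : ∀ z : E × E, 3 * R < ‖z.2‖ → F =ᶠ[𝓝 z] fun _ => 0 := by
    intro z hz
    have hopen : IsOpen {w : E × E | 3 * R < ‖w.2‖} :=
      isOpen_lt continuous_const (continuous_snd.norm)
    filter_upwards [hopen.mem_nhds hz] with w hw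
    simp only [hF]
    have : χ w.2 = 0 := by
      apply χ.zero_of_le_dist
      rw [dist_zero_right]
      exact le_of_lt hw
    rw [this, zero_mul]
  obtain ⟨Cx, hCx0, hCx⟩ := bounded_of_per hF1.continuous (per_fderiv hFp) (3 * R)
  obtain ⟨M, hM0, hM⟩ := bounded_of_per (hF1.continuous_fderiv (by norm_num))
    (per_fderiv (per_fderiv hFp)) (3 * R)
  have hCx' : ∀ z, ‖fderiv ℝ F z‖ ≤ Cx := by
    intro z
    by_cases hz : ‖z.2‖ ≤ 3 * R
    · exact hCx z.1 z.2 hz
    · push Not at hz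
      rw [(hF0 z hz).fderiv_eq]
      simpa using hCx0
  have hM' : ∀ z, ‖fderiv ℝ (fderiv ℝ F) z‖ ≤ M := by
    intro z
    by_cases hz : ‖z.2‖ ≤ 3 * R
    · exact hM z.1 z.2 hz
    · push Not at hz
      have h1 : fderiv ℝ F =ᶠ[𝓝 z] fun _ => (0 : E × E →L[ℝ] ℝ) := by
        have h2 := (hF0 z hz).fderiv (𝕜 := ℝ)
        filter_upwards [h2] with w hw
        rw [hw]; simp
      have h3 : fderiv ℝ (fun _ : E × E => (0 : E × E →L[ℝ] ℝ)) z = 0 := by simp
      rw [h1.fderiv_eq, h3]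
      refine ContinuousLinearMap.opNorm_le_bound _ hM0 (fun y => ?_)
      rw [zero_apply, norm_zero]
      positivity
  set B : ℝ := max 1 M with hB
  have hB1 : 1 ≤ B := le_max_left _ _
  have hBM : M ≤ B := le_max_right _ _
  set H : E × E → ℝ := fun z => pen R z.2 with hH
  have hHc : ContDiff ℝ 2 H := (contDiff_pen R).comp contDiff_snd
  have hH1 : ContDiff ℝ 1 (fderiv ℝ H) := hHc.fderiv_right (by norm_num)
  have hHnn : ∀ z, 0 ≤ H z := fun z => by simp only [hH, pen]; positivity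
  set g : E × E → ℝ := fun z => F z + B * H z with hg
  have hgc : ContDiff ℝ 2 g := hFc.add (contDiff_const.mul hHc)
  have hgfd : ∀ z, fderiv ℝ g z = fderiv ℝ F z + B • fderiv ℝ H z := by
    intro z
    have h1 : DifferentiableAt ℝ F z := hFc.differentiable (by norm_num) z
    have h2 : DifferentiableAt ℝ H z := hHc.differentiable (by norm_num) z
    exact ((h1.hasFDerivAt).add ((h2.hasFDerivAt).const_mul B)).fderiv
  have hgfd2 : ∀ z, fderiv ℝ (fderiv ℝ g) z = fderiv ℝ (fderiv ℝ F) z + B • fderiv ℝ (fderiv ℝ H) z := by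
    intro z
    have h0 : fderiv ℝ g = fun z => fderiv ℝ F z + B • fderiv ℝ H z := by
      funext z; exact hgfd z
    rw [h0]
    have h1 : DifferentiableAt ℝ (fderiv ℝ F) z := hF1.differentiable (by norm_num) z
    have h2 : DifferentiableAt ℝ (fderiv ℝ H) z := hH1.differentiable (by norm_num) z
    exact ((h1.hasFDerivAt).add ((h2.hasFDerivAt).const_smul B)).fderiv
  have hdxH : ∀ z, dx H z = 0 := by
    intro z
    have h2 : DifferentiableAt ℝ (pen R) z.2 := (contDiff_pen R).differentiable (by norm_num) z.2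
    have h3 : HasFDerivAt H ((fderiv ℝ (pen R) z.2).comp (ContinuousLinearMap.snd ℝ E E)) z :=
      h2.hasFDerivAt.comp z hasFDerivAt_snd
    unfold dx
    rw [h3.fderiv]
    ext a
    simp
  have hFf : ∀ z : E × E, ‖z.2‖ < 2 * R → F =ᶠ[𝓝 z] f := by
    intro z hz
    have hopen : IsOpen {w : E × E | ‖w.2‖ < 2 * R} :=
      isOpen_lt (continuous_snd.norm) continuous_const
    filter_upwards [hopen.mem_nhds hz] with w hw
    simp only [hF]
    have : χ w.2 = 1 := by
      apply χ.one_of_mem_closedBall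
      rw [mem_closedBall_zero_iff]
      exact le_of_lt hw
    rw [this, one_mul]
  have hHzero : ∀ x v : E, ‖v‖ < R → H (x, v) = 0 := by
    intro x v hv
    simp only [hH, pen]
    have h1 : ‖v‖ ^ 2 - R ^ 2 ≤ 0 := by nlinarith [norm_nonneg v]
    rw [max_eq_right h1]
    norm_num
  -- nonnegativity of the Hessian of g
  have hess : ∀ x v w : E, 0 ≤ fderiv ℝ (fderiv ℝ g) (x, v) (0, w) (0, w) := by
    intro x v w
    rw [hgfd2]
    simp only [add_apply, smul_apply, smul_eq_mul]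
    have hp := pen_hess R x v w
    have hp' : 6 * (max (‖v‖ ^ 2 - R ^ 2) 0) ^ 2 * ‖w‖ ^ 2 ≤
      fderiv ℝ (fderiv ℝ H) (x, v) (0, w) (0, w) := hp
    by_cases hv : ‖v‖ < 2 * R
    · have h1 : fderiv ℝ F =ᶠ[𝓝 (x, v)] fderiv ℝ f := (hFf (x, v) hv).fderiv
      rw [h1.fderiv_eq]
      have h2 : 0 ≤ fderiv ℝ (fderiv ℝ f) (x, v) (0, w) (0, w) := by
        by_cases hw : w = 0
        · subst hw
          have e0 : ((0 : E), (0 : E)) = 0 := rfl
          rw [e0, map_zero]
        · exact (h.pos x v w hw).le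
      have h3 : 0 ≤ 6 * (max (‖v‖ ^ 2 - R ^ 2) 0) ^ 2 * ‖w‖ ^ 2 := by positivity
      have h4 : 0 ≤ B * fderiv ℝ (fderiv ℝ H) (x, v) (0, w) (0, w) :=
        mul_nonneg (by linarith) (h3.trans hp')
      linarith
    · push Not at hv
      have h1 : |fderiv ℝ (fderiv ℝ F) (x, v) (0, w) (0, w)| ≤ M * ‖w‖ ^ 2 := by
        have a1 := (fderiv ℝ (fderiv ℝ F) (x, v) (0, w)).le_opNorm (0, w)
        have a2 := (fderiv ℝ (fderiv ℝ F) (x, v)).le_opNorm (0, w)
        have a3 : ‖((0 : E), w)‖ = ‖w‖ := by simp [Prod.norm_def]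
        rw [a3] at a1 a2
        rw [← Real.norm_eq_abs]
        calc _ ≤ ‖fderiv ℝ (fderiv ℝ F) (x, v) (0, w)‖ * ‖w‖ := a1
          _ ≤ (‖fderiv ℝ (fderiv ℝ F) (x, v)‖ * ‖w‖) * ‖w‖ :=
              mul_le_mul_of_nonneg_right a2 (norm_nonneg _)
          _ ≤ (M * ‖w‖) * ‖w‖ := by
              apply mul_le_mul_of_nonneg_right _ (norm_nonneg _)
              exact mul_le_mul_of_nonneg_right (hM' _) (norm_nonneg _)
          _ = M * ‖w‖ ^ 2 := by ring
      have h2 : 1 ≤ ‖v‖ ^ 2 - R ^ 2 := by nlinarith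
      have h3 : 1 ≤ max (‖v‖ ^ 2 - R ^ 2) 0 := le_trans h2 (le_max_left _ _)
      have h4 : ‖w‖ ^ 2 ≤ fderiv ℝ (fderiv ℝ H) (x, v) (0, w) (0, w) := by
        refine le_trans ?_ hp'
        have h5 : 1 ≤ (max (‖v‖ ^ 2 - R ^ 2) 0) ^ 2 := one_le_pow₀ h3
        nlinarith [sq_nonneg ‖w‖]
      have h6 : B * ‖w‖ ^ 2 ≤ B * fderiv ℝ (fderiv ℝ H) (x, v) (0, w) (0, w) :=
        mul_le_mul_of_nonneg_left h4 (by linarith)
      have h7 : M * ‖w‖ ^ 2 ≤ B * ‖w‖ ^ 2 := mul_le_mul_of_nonneg_right hBM (by positivity)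
      have h8 := (abs_le.mp h1).1
      linarith
  refine ⟨g, hgc, ?_, ?_, ?_, ⟨Cx, hCx0, ?_⟩, ?_⟩
  · intro k x v
    simp only [hg, hH]
    rw [hFp k x v]
  · intro x v hv
    simp only [hg]
    rw [hHzero x v hv, mul_zero, add_zero]
    exact (hFf (x, v) (by show ‖v‖ < 2 * R; linarith)).eq_of_nhds
  · intro x v v'
    have key := (convex_Icc (0 : ℝ) 1).mul_sub_le_image_sub_of_le_deriv
      (f := fun s : ℝ => dv g (x, v + s • (v' - v)) (v' - v)) (C := 0)
      (fun t _ => (hasDerivAt_line2_gen hgc x v (v' - v) t).continuousAt.continuousWithinAt)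
      (fun t _ => (hasDerivAt_line2_gen hgc x v (v' - v) t).differentiableAt.differentiableWithinAt)
      (by
        intro t _
        rw [(hasDerivAt_line2_gen hgc x v (v' - v) t).deriv]
        exact hess _ _ _)
      0 (by simp) 1 (by simp) (by norm_num)
    simpa using key
  · intro z
    have h1 : dx g z = dx F z := by
      have h2 := hdxH z
      unfold dx at h2 ⊢
      rw [hgfd z, ContinuousLinearMap.add_comp, ContinuousLinearMap.smul_comp, h2, smul_zero,
        add_zero]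
    rw [h1]
    unfold dx
    calc ‖(fderiv ℝ F z).comp (ContinuousLinearMap.inl ℝ E E)‖
        ≤ ‖fderiv ℝ F z‖ * ‖ContinuousLinearMap.inl ℝ E E‖ :=
          ContinuousLinearMap.opNorm_comp_le _ _
      _ ≤ Cx * 1 := mul_le_mul (hCx' z) norm_inl_le (norm_nonneg _) hCx0
      _ = Cx := mul_one _
  · intro x v
    by_cases hv : ‖v‖ < 2 * R
    · have h1 : F (x, v) = f (x, v) := (hFf (x, v) hv).eq_of_nhds
      have h2 := hHnn (x, v)
      simp only [hg]
      rw [h1]
      have h3 := hC1 x v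
      nlinarith
    · push Not at hv
      have hχ0 : 0 ≤ χ v := χ.nonneg
      have hχ1 : χ v ≤ 1 := χ.le_one
      have h1 : -C1 ≤ F (x, v) := by
        simp only [hF]
        have h2 := hC1 x v
        have h3 : χ v * (‖v‖ - C1) ≤ χ v * f (x, v) := mul_le_mul_of_nonneg_left h2 hχ0
        nlinarith [norm_nonneg v, mul_nonneg hχ0 (norm_nonneg v)]
      have h2 : ‖v‖ ≤ H (x, v) := by
        simp only [hH, pen]
        have a1 : ‖v‖ ≤ ‖v‖ ^ 2 - R ^ 2 := by nlinarith
        have a2 : 1 ≤ ‖v‖ ^ 2 - R ^ 2 := by nlinarith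
        rw [max_eq_left (by linarith)]
        calc ‖v‖ ≤ ‖v‖ ^ 2 - R ^ 2 := a1
          _ = (‖v‖ ^ 2 - R ^ 2) ^ 1 := (pow_one _).symm
          _ ≤ (‖v‖ ^ 2 - R ^ 2) ^ 3 := pow_le_pow_right₀ a2 (by norm_num)
      simp only [hg]
      have h3 : H (x, v) ≤ B * H (x, v) := by
        have := hHnn (x, v)
        nlinarith
      linarith

end Pool.Agent.Work.MP_c99f5e_an
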