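import Pool.Agent.Work.MP_c99f5e_an.Discrete

/-!
# A priori velocity bound for discrete minimisers
-/

set_option autoImplicit false

open Filter Topology Set
open scoped Fin.NatCast Fin.CommRing

namespace Pool.Agent.Work.MP_c99f5e_an

lemma eq_near {f g : E × E → ℝ} {R : ℝ} (hfg : ∀ x v : E, ‖v‖ < R → g (x, v) = f (x, v))
    {x v : E} (hv : ‖v‖ < R) : g =ᶠ[𝓝 (x, v)] f := by
  have hopen : IsOpen {w : E × E | ‖w.2‖ < R} := isOpen_lt (continuous_snd.norm) continuous_const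
  filter_upwards [hopen.mem_nhds (show (x, v) ∈ {w : E × E | ‖w.2‖ < R} from hv)] with w hw
  exact hfg w.1 w.2 hw

lemma dv_eq_near {f g : E × E → ℝ} {R : ℝ} (hfg : ∀ x v : E, ‖v‖ < R → g (x, v) = f (x, v))
    {x v : E} (hv : ‖v‖ < R) : dv g (x, v) = dv f (x, v) := by
  unfold dv
  rw [(eq_near hfg hv).fderiv_eq]

lemma dx_eq_near {f g : E × E → ℝ} {R : ℝ} (hfg : ∀ x v : E, ‖v‖ < R → g (x, v) = f (x, v))
    {x v : E} (hv : ‖v‖ < R) : dx g (x, v) = dx f (x, v) := by
  unfold dx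
  rw [(eq_near hfg hv).fderiv_eq]

/-- One step of the discrete Euler-Lagrange equations. -/
lemma step_bound {f g : E × E → ℝ} {R' R lam M M2 Cx : ℝ} (hR' : 0 ≤ R') (hRR : R' + 1 < R)
    (hlam : 0 < lam) (hM0 : 0 ≤ M) (hM20 : 0 ≤ M2) (hCx0 : 0 ≤ Cx)
    (hfg : ∀ x v : E, ‖v‖ < R → g (x, v) = f (x, v))
    (hsm : ∀ x v v' : E, ‖v‖ ≤ R' + 1 → ‖v'‖ ≤ R' + 1 →
      lam * ‖v' - v‖ ^ 2 ≤ (dv f (x, v') - dv f (x, v)) (v' - v))
    (hLip : ∀ z z' : E × E, ‖z.2‖ ≤ R' + 1 → ‖z'.2‖ ≤ R' + 1 →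
      ‖dv f z' - dv f z‖ ≤ M * ‖z' - z‖)
    (htay : ∀ z z' : E × E, ‖z.2‖ ≤ R' + 1 → ‖z'.2‖ ≤ R' + 1 →
      |f z' - f z - (dx f z (z'.1 - z.1) + dv f z (z'.2 - z.2))| ≤ M2 * ‖z' - z‖ ^ 2)
    (hmono : ∀ x v v' : E, 0 ≤ (dv g (x, v') - dv g (x, v)) (v' - v))
    (hCx : ∀ z, ‖dx g z‖ ≤ Cx) {δ : ℝ} (hδ : (Cx + M * R') * δ < lam)
    {x v x' v' : E} {τ τ' : ℝ} (hτ : 0 < τ) (hτδ : τ < δ) (hτ' : 0 < τ') (hτδ' : τ' < δ)
    (hv : ‖v‖ ≤ R') (hx' : x' = x + τ • v)
    (hEL : dv g (x', v') - dv g (x, v) = τ' • dx g (x', v')) :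
    ‖v'‖ ≤ R' + 1 ∧
    |(En f (x', v') - τ' * dx f (x', v') v') - (En f (x, v) - τ * dx f (x, v) v)| ≤
      M2 * (R' + (Cx + M * R') / lam) ^ 2 * (τ + τ') ^ 2 := by
  have hvR : ‖v‖ < R := by linarith
  have hδ0 : 0 < δ := lt_trans hτ hτδ
  -- the jump of the fibre derivative at x'
  have hnx : ‖x' - x‖ = τ * ‖v‖ := by
    rw [hx', add_sub_cancel_left, norm_smul, Real.norm_of_nonneg hτ.le]
  have h1 : ‖dv f (x', v) - dv f (x, v)‖ ≤ M * (τ * R') := by
    refine (hLip (x, v) (x', v) (by simpa using by linarith) (by simpa using by linarith)).trans ?_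
    apply mul_le_mul_of_nonneg_left _ hM0
    have : ((x', v) : E × E) - (x, v) = (x' - x, 0) := by simp
    rw [this, Prod.norm_def]
    simp only [norm_zero]
    rw [max_eq_left (norm_nonneg _), hnx]
    exact mul_le_mul_of_nonneg_left hv hτ.le
  have h2 : ‖dv g (x', v') - dv g (x', v)‖ ≤ Cx * τ' + M * R' * τ := by
    have e : dv g (x', v') - dv g (x', v) =
        (dv g (x', v') - dv g (x, v)) - (dv f (x', v) - dv f (x, v)) := by
      rw [dv_eq_near hfg hvR (x := x'), dv_eq_near hfg hvR (x := x)]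
      abel
    rw [e]
    refine (norm_sub_le _ _).trans ?_
    rw [hEL, norm_smul, Real.norm_of_nonneg hτ'.le]
    have := mul_le_mul_of_nonneg_left (hCx (x', v')) hτ'.le
    nlinarith
  have h3 : Cx * τ' + M * R' * τ < lam := by
    have a1 : Cx * τ' ≤ Cx * δ := mul_le_mul_of_nonneg_left hτδ'.le hCx0
    have a2 : M * R' * τ ≤ M * R' * δ :=
      mul_le_mul_of_nonneg_left hτδ.le (mul_nonneg hM0 hR')
    nlinarith
  set η := Cx * τ' + M * R' * τ with hη
  -- the velocity jump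
  have h4 : ‖v' - v‖ ≤ 1 := by
    by_contra hcon
    push Not at hcon
    set d := ‖v' - v‖ with hd
    have hd0 : 0 < d := by linarith
    set e : E := d⁻¹ • (v' - v) with he
    have hne : ‖e‖ = 1 := by
      rw [he, norm_smul, norm_inv, Real.norm_of_nonneg hd0.le, ← hd, inv_mul_cancel₀ hd0.ne']
    set w : E := v + e with hw
    have hwn : ‖w‖ ≤ R' + 1 := by
      calc ‖w‖ ≤ ‖v‖ + ‖e‖ := norm_add_le _ _
        _ ≤ R' + 1 := by rw [hne]; linarith
    have a1 := hsm x' v w (by linarith) hwn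
    have e1 : w - v = e := by rw [hw, add_sub_cancel_left]
    rw [e1, hne, one_pow, mul_one] at a1
    have a2 := hmono x' w v'
    have e2 : v' - w = (d - 1) • e := by
      have : v' - v = d • e := by
        rw [he, smul_smul, mul_inv_cancel₀ hd0.ne', one_smul]
      calc v' - w = (v' - v) - e := by rw [hw]; abel
        _ = (d - 1) • e := by rw [this, sub_smul, one_smul]
    rw [e2, map_smul, smul_eq_mul] at a2
    have a3 := nonneg_of_mul_nonneg_right a2 (by linarith : 0 < d - 1)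
    have a4 : (dv g (x', v') - dv g (x', v)) e ≤ η := by
      calc (dv g (x', v') - dv g (x', v)) e ≤ ‖(dv g (x', v') - dv g (x', v)) e‖ :=
            Real.le_norm_self _
        _ ≤ ‖dv g (x', v') - dv g (x', v)‖ * ‖e‖ := ContinuousLinearMap.le_opNorm _ _
        _ ≤ η := by rw [hne, mul_one]; exact h2
    have a5 : (dv g (x', v') - dv g (x', v)) e =
        (dv g (x', v') - dv g (x', w)) e + (dv f (x', w) - dv f (x', v)) e := by
      rw [dv_eq_near hfg hvR (x := x'), dv_eq_near hfg (show ‖w‖ < R by linarith) (x := x')]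
      simp only [sub_apply]
      ring
    linarith
  have hv' : ‖v'‖ ≤ R' + 1 := by
    calc ‖v'‖ = ‖v + (v' - v)‖ := by congr 1; abel
      _ ≤ ‖v‖ + ‖v' - v‖ := norm_add_le _ _
      _ ≤ R' + 1 := by linarith
  have hv'R : ‖v'‖ < R := by linarith
  refine ⟨hv', ?_⟩
  have h5 : lam * ‖v' - v‖ ≤ η := by
    by_cases h0 : ‖v' - v‖ = 0
    · rw [h0, mul_zero]
      have : 0 ≤ M * R' * τ := by positivity
      have : 0 ≤ Cx * τ' := by positivity
      rw [hη]; linarith
    · have hpos : 0 < ‖v' - v‖ := lt_of_le_of_ne (norm_nonneg _) (Ne.symm h0)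
      have a1 := hsm x' v v' (by linarith) hv'
      have a2 : (dv f (x', v') - dv f (x', v)) (v' - v) ≤ η * ‖v' - v‖ := by
        calc (dv f (x', v') - dv f (x', v)) (v' - v)
            ≤ ‖(dv f (x', v') - dv f (x', v)) (v' - v)‖ := Real.le_norm_self _
          _ ≤ ‖dv f (x', v') - dv f (x', v)‖ * ‖v' - v‖ := ContinuousLinearMap.le_opNorm _ _
          _ ≤ η * ‖v' - v‖ := by
              apply mul_le_mul_of_nonneg_right _ (norm_nonneg _)
              rw [← dv_eq_near hfg hvR (x := x'), ← dv_eq_near hfg hv'R (x := x')]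
              exact h2
      have a3 : (lam * ‖v' - v‖) * ‖v' - v‖ ≤ η * ‖v' - v‖ := by nlinarith
      exact le_of_mul_le_mul_right a3 hpos
  -- energy balance
  have hELf : dv f (x', v') - dv f (x, v) = τ' • dx f (x', v') := by
    rw [← dv_eq_near hfg hvR (x := x), ← dv_eq_near hfg hv'R (x := x'),
      ← dx_eq_near hfg hv'R (x := x')]
    exact hEL
  have e3 : (En f (x', v') - τ' * dx f (x', v') v') - (En f (x, v) - τ * dx f (x, v) v) =
      -(f (x', v') - f (x, v) - (dx f (x, v) (x' - x) + dv f (x, v) (v' - v))) := by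
    have a1 : dv f (x', v') v' - dv f (x, v) v' = τ' * dx f (x', v') v' := by
      have := congrArg (fun l : E →L[ℝ] ℝ => l v') hELf
      simpa using this
    have a2 : dx f (x, v) (x' - x) = τ * dx f (x, v) v := by
      rw [hx', add_sub_cancel_left, map_smul, smul_eq_mul]
    unfold En
    rw [a2, map_sub]
    simp only
    linarith
  rw [e3, abs_neg]
  refine (htay (x, v) (x', v') (by simpa using by linarith) (by simpa using hv')).trans ?_
  rw [mul_assoc]
  apply mul_le_mul_of_nonneg_left _ hM20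
  rw [← mul_pow]
  apply pow_le_pow_left₀ (norm_nonneg _)
  have hCM : 0 ≤ (Cx + M * R') / lam := by positivity
  have e4 : ((x', v') : E × E) - (x, v) = (x' - x, v' - v) := rfl
  rw [e4, Prod.norm_def]
  apply max_le
  · simp only
    rw [hnx]
    have : τ * ‖v‖ ≤ τ * R' := mul_le_mul_of_nonneg_left hv hτ.le
    have b1 : 0 ≤ R' * τ' := by positivity
    have b2 : 0 ≤ (Cx + M * R') / lam * (τ + τ') := by positivity
    nlinarith
  · simp only
    have a1 : ‖v' - v‖ ≤ η / lam := by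
      rw [le_div_iff₀ hlam]; linarith
    have a2 : η ≤ (Cx + M * R') * (τ + τ') := by
      rw [hη]
      have b1 : 0 ≤ Cx * τ := by positivity
      have b2 : 0 ≤ M * R' * τ' := by positivity
      nlinarith
    have a3 : η / lam ≤ (Cx + M * R') / lam * (τ + τ') := by
      rw [div_mul_eq_mul_div]
      exact div_le_div_of_nonneg_right a2 hlam.le
    have b3 : 0 ≤ R' * (τ + τ') := by positivity
    nlinarith

lemma vel_step {n : ℕ} {τ : Fin (n + 1) → ℝ} (hτ : ∀ i, 0 < τ i) (k : Fin 2 → ℤ)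
    (Y : Fin (n + 1) → E) (i : Fin (n + 1)) :
    Y (i + 1) + ι (kap k i) = Y i + τ i • vel τ k Y i := by
  unfold vel
  rw [smul_smul, mul_inv_cancel₀ (hτ i).ne', one_smul]
  module

lemma sum_shift {n : ℕ} (τ : Fin (n + 1) → ℝ) (i0 : Fin (n + 1)) :
    ∑ l ∈ Finset.range (n + 1), τ (i0 + (l : Fin (n + 1))) = ∑ i, τ i := by
  rw [Finset.sum_range]
  have : ∀ i : Fin (n + 1), τ (i0 + ((i : ℕ) : Fin (n + 1))) = τ (Equiv.addLeft i0 i) := by
    intro i
    simp
  simp only [this]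
  exact Equiv.sum_comp (Equiv.addLeft i0) τ

/-- **A priori bound.** Closed chains of negative action, small steps and bounded velocity can be
replaced by closed chains of smaller action solving the discrete Euler-Lagrange equations, with a
velocity bound that does not depend on the steps. -/
theorem TL.chain_improve {f : E × E → ℝ} (h : TL f) {T : ℝ} (hT : 0 < T) (V : ℝ) :
    ∃ R' : ℝ, 0 < R' ∧ ∃ δ₀ : ℝ, 0 < δ₀ ∧ ∀ (n : ℕ) (τ : Fin (n + 1) → ℝ) (k : Fin 2 → ℤ)
      (Z : Fin (n + 1) → E), (∀ i, 0 < τ i) → (∀ i, τ i < δ₀) → ∑ i, τ i = T →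
      (∀ i, ‖vel τ k Z i‖ ≤ V) → dact f τ k Z < 0 →
      ∃ Y : Fin (n + 1) → E, ‖Y 0‖ ≤ 2 ∧ (∀ i, ‖vel τ k Y i‖ ≤ R') ∧
        (∀ j, dv f (Y (j + 1), vel τ k Y (j + 1)) - dv f (Y j, vel τ k Y j) =
          τ (j + 1) • dx f (Y (j + 1), vel τ k Y (j + 1))) ∧
        dact f τ k Y ≤ dact f τ k Z := by
  obtain ⟨C1, hC10, hC1'⟩ := h.superlinear 1
  have hC1 : ∀ x v : E, ‖v‖ - C1 ≤ f (x, v) := by
    intro x v; have := hC1' x v; rwa [one_mul] at this
  obtain ⟨e1, he10, he1⟩ := bounded_of_per h.continuous_En (per_En h.per) C1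
  obtain ⟨R', hR'1, hR'⟩ := h.energy_large (e1 + 2)
  have hR'0 : 0 ≤ R' := by linarith
  set R := max (R' + 2) (V + 1) with hR
  have hRR : R' + 1 < R := lt_of_lt_of_le (by linarith) (le_max_left _ _)
  have hVR : V < R := lt_of_lt_of_le (by linarith) (le_max_right _ _)
  obtain ⟨g, hgc, hgp, hfg, hmono, ⟨Cx, hCx0, hCx⟩, hgC1⟩ :=
    h.modify (R := R) (by linarith) hC10 hC1
  obtain ⟨lam, hlam, hsm⟩ := h.strong_mono (R' + 1)
  obtain ⟨M, hM0, hLip⟩ := lipschitz_of_per h.contDiff_dv (per_dv h.per) (R' + 1)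
  obtain ⟨M2, hM20, htay⟩ := h.taylor (R' + 1)
  set K2 : ℝ := M2 * (R' + (Cx + M * R') / lam) ^ 2 with hK2
  have hK20 : 0 ≤ K2 := by positivity
  -- choice of the step bound
  obtain ⟨δ, hδ0, hδ1, hδ2⟩ : ∃ δ : ℝ, 0 < δ ∧ (Cx + M * R') * δ < lam ∧
      (Cx * (2 * R' + 1) + 4 * K2 * T) * δ ≤ 1 := by
    refine ⟨min (lam / (2 * (Cx + M * R' + 1))) (1 / (Cx * (2 * R' + 1) + 4 * K2 * T + 1)), ?_, ?_, ?_⟩
    · apply lt_min <;> positivity
    · have a0 : 0 < 2 * (Cx + M * R' + 1) := by positivity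
      calc (Cx + M * R') * min (lam / (2 * (Cx + M * R' + 1))) _
          ≤ (Cx + M * R') * (lam / (2 * (Cx + M * R' + 1))) :=
            mul_le_mul_of_nonneg_left (min_le_left _ _) (by positivity)
        _ = lam * ((Cx + M * R') / (2 * (Cx + M * R' + 1))) := by ring
        _ < lam * 1 := by
            apply mul_lt_mul_of_pos_left _ hlam
            rw [div_lt_one a0]
            have : 0 ≤ Cx + M * R' := by positivity
            linarith
        _ = lam := mul_one _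
    · have a0 : 0 < Cx * (2 * R' + 1) + 4 * K2 * T + 1 := by positivity
      calc (Cx * (2 * R' + 1) + 4 * K2 * T) * min _ (1 / (Cx * (2 * R' + 1) + 4 * K2 * T + 1))
          ≤ (Cx * (2 * R' + 1) + 4 * K2 * T) * (1 / (Cx * (2 * R' + 1) + 4 * K2 * T + 1)) :=
            mul_le_mul_of_nonneg_left (min_le_right _ _) (by positivity)
        _ = (Cx * (2 * R' + 1) + 4 * K2 * T) / (Cx * (2 * R' + 1) + 4 * K2 * T + 1) := by ring
        _ ≤ 1 := by
            rw [div_le_one a0]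
            linarith
  refine ⟨R', by linarith, δ, hδ0, ?_⟩
  intro n τ k Z hτ hτδ hτT hZV hZ0
  -- the minimiser
  obtain ⟨Y, hY0, hYmin⟩ := exists_minimizer hgc.continuous hgp hgC1 hτ k
  have hZg : dact g τ k Z = dact f τ k Z := by
    unfold dact
    apply Finset.sum_congr rfl
    intro i _
    rw [hfg _ _ (lt_of_le_of_lt (hZV i) hVR)]
  have hneg : dact g τ k Y < 0 := lt_of_le_of_lt (hYmin Z) (by rw [hZg]; exact hZ0)
  obtain ⟨i0, hi0⟩ : ∃ i0, g (Y i0, vel τ k Y i0) < 0 := by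
    by_contra hcon
    push Not at hcon
    have : 0 ≤ dact g τ k Y := Finset.sum_nonneg (fun i _ => mul_nonneg (hτ i).le (hcon i))
    linarith
  have hv0 : ‖vel τ k Y i0‖ ≤ C1 := by
    have := hgC1 (Y i0) (vel τ k Y i0)
    linarith
  have hEn0 : En f (Y i0, vel τ k Y i0) ≤ e1 := by
    have := he1 (Y i0) (vel τ k Y i0) hv0
    rw [Real.norm_eq_abs] at this
    exact (abs_le.mp this).2
  have hsmall : ∀ x v : E, En f (x, v) < e1 + 2 → ‖v‖ ≤ R' := by
    intro x v hxv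
    by_contra hcon
    push Not at hcon
    have := hR' x v hcon.le
    linarith
  have hEL := minimizer_eq (hgc.differentiable (by norm_num)) hτ k hYmin
  set G : Fin (n + 1) → ℝ := fun j =>
    En f (Y j, vel τ k Y j) - τ j * dx f (Y j, vel τ k Y j) (vel τ k Y j) with hG
  have hdxb : ∀ j, ‖vel τ k Y j‖ ≤ R' + 1 →
      |τ j * dx f (Y j, vel τ k Y j) (vel τ k Y j)| ≤ δ * (Cx * ‖vel τ k Y j‖) := by
    intro j hj
    rw [abs_mul, abs_of_pos (hτ j)]
    have a1 : |dx f (Y j, vel τ k Y j) (vel τ k Y j)| ≤ Cx * ‖vel τ k Y j‖ := by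
      rw [← dx_eq_near hfg (show ‖vel τ k Y j‖ < R by linarith) (x := Y j), ← Real.norm_eq_abs]
      exact (ContinuousLinearMap.le_opNorm _ _).trans
        (mul_le_mul_of_nonneg_right (hCx _) (norm_nonneg _))
    exact mul_le_mul (hτδ j).le a1 (abs_nonneg _) hδ0.le
  -- one step
  have hstep : ∀ j, ‖vel τ k Y j‖ ≤ R' → ‖vel τ k Y (j + 1)‖ ≤ R' + 1 ∧
      |G (j + 1) - G j| ≤ K2 * (2 * δ) * (τ j + τ (j + 1)) := by
    intro j hj
    have hx' : Y (j + 1) + ι (kap k j) = Y j + τ j • vel τ k Y j := vel_step hτ k Y j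
    have hELj : dv g (Y (j + 1) + ι (kap k j), vel τ k Y (j + 1)) - dv g (Y j, vel τ k Y j) =
        τ (j + 1) • dx g (Y (j + 1) + ι (kap k j), vel τ k Y (j + 1)) := by
      rw [per_dv hgp, per_dx hgp]
      exact hEL j
    obtain ⟨b1, b2⟩ := step_bound hR'0 hRR hlam hM0 hM20 hCx0 hfg hsm hLip htay hmono hCx hδ1
      (hτ j) (hτδ j) (hτ (j + 1)) (hτδ (j + 1)) hj hx' hELj
    refine ⟨b1, ?_⟩
    rw [per_En h.per, per_dx h.per] at b2
    refine b2.trans ?_
    have a1 : (τ j + τ (j + 1)) ^ 2 ≤ (2 * δ) * (τ j + τ (j + 1)) := by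
      rw [pow_two]
      apply mul_le_mul_of_nonneg_right
      · linarith [hτδ j, hτδ (j + 1)]
      · linarith [hτ j, hτ (j + 1)]
    calc K2 * (τ j + τ (j + 1)) ^ 2 ≤ K2 * ((2 * δ) * (τ j + τ (j + 1))) :=
          mul_le_mul_of_nonneg_left a1 hK20
      _ = K2 * (2 * δ) * (τ j + τ (j + 1)) := by ring
  -- induction along the chain
  set U : ℕ → ℝ := fun m => ∑ l ∈ Finset.range m,
    (τ (i0 + (l : Fin (n + 1))) + τ (i0 + 1 + (l : Fin (n + 1)))) with hU
  have hUT : ∀ m, m ≤ n + 1 → U m ≤ 2 * T := by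
    intro m hm
    have a1 : U m ≤ U (n + 1) := by
      apply Finset.sum_le_sum_of_subset_of_nonneg
      · intro l hl
        rw [Finset.mem_range] at hl ⊢
        omega
      · intro l _ _
        linarith [hτ (i0 + (l : Fin (n + 1))), hτ (i0 + 1 + (l : Fin (n + 1)))]
    have a2 : U (n + 1) = 2 * T := by
      simp only [hU]
      rw [Finset.sum_add_distrib, sum_shift, sum_shift, hτT]
      ring
    linarith
  have hind : ∀ m : ℕ, m ≤ n → ‖vel τ k Y (i0 + (m : Fin (n + 1)))‖ ≤ R' ∧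
      |G (i0 + (m : Fin (n + 1))) - G i0| ≤ K2 * (2 * δ) * U m := by
    intro m
    induction m with
    | zero =>
      intro _
      simp only [Nat.cast_zero, add_zero]
      refine ⟨hsmall _ _ (by linarith), ?_⟩
      simp [hU]
    | succ m ih =>
      intro hm
      obtain ⟨ih1, ih2⟩ := ih (by omega)
      obtain ⟨s1, s2⟩ := hstep _ ih1
      have ecast : i0 + ((m + 1 : ℕ) : Fin (n + 1)) = i0 + (m : Fin (n + 1)) + 1 := by
        rw [Nat.cast_add, Nat.cast_one, add_assoc]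
      have ecast2 : i0 + 1 + (m : Fin (n + 1)) = i0 + (m : Fin (n + 1)) + 1 := by
        rw [add_assoc, add_assoc, add_comm (1 : Fin (n + 1))]
      rw [ecast]
      have hUs : U (m + 1) = U m + (τ (i0 + (m : Fin (n + 1))) + τ (i0 + (m : Fin (n + 1)) + 1)) := by
        simp only [hU]
        rw [Finset.sum_range_succ, ecast2]
      have hG2 : |G (i0 + (m : Fin (n + 1)) + 1) - G i0| ≤ K2 * (2 * δ) * U (m + 1) := by
        calc |G (i0 + (m : Fin (n + 1)) + 1) - G i0|
            = |(G (i0 + (m : Fin (n + 1)) + 1) - G (i0 + (m : Fin (n + 1)))) +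
                (G (i0 + (m : Fin (n + 1))) - G i0)| := by congr 1; ring
          _ ≤ _ := abs_add_le _ _
          _ ≤ K2 * (2 * δ) * (τ (i0 + (m : Fin (n + 1))) + τ (i0 + (m : Fin (n + 1)) + 1)) +
                K2 * (2 * δ) * U m := add_le_add s2 ih2
          _ = K2 * (2 * δ) * U (m + 1) := by rw [hUs]; ring
      refine ⟨?_, hG2⟩
      apply hsmall (Y (i0 + (m : Fin (n + 1)) + 1))
      have c1 := hdxb i0 (by linarith [hsmall _ _ (show En f (Y i0, vel τ k Y i0) < e1 + 2 by linarith)])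
      have c2 := hdxb (i0 + (m : Fin (n + 1)) + 1) s1
      have c3 := hsmall _ _ (show En f (Y i0, vel τ k Y i0) < e1 + 2 by linarith)
      have c4 : K2 * (2 * δ) * U (m + 1) ≤ K2 * (2 * δ) * (2 * T) :=
        mul_le_mul_of_nonneg_left (hUT (m + 1) (by omega)) (by positivity)
      have c5 := abs_le.mp hG2
      have c6 := abs_le.mp c1
      have c7 := abs_le.mp c2
      have c8 : δ * (Cx * ‖vel τ k Y i0‖) ≤ δ * (Cx * R') := by gcongr
      have c9 : δ * (Cx * ‖vel τ k Y (i0 + (m : Fin (n + 1)) + 1)‖) ≤ δ * (Cx * (R' + 1)) := by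
        gcongr
      have hGi0 : G i0 = En f (Y i0, vel τ k Y i0) - τ i0 * dx f (Y i0, vel τ k Y i0) (vel τ k Y i0) := rfl
      have hGm : G (i0 + (m : Fin (n + 1)) + 1) =
        En f (Y (i0 + (m : Fin (n + 1)) + 1), vel τ k Y (i0 + (m : Fin (n + 1)) + 1)) -
          τ (i0 + (m : Fin (n + 1)) + 1) * dx f (Y (i0 + (m : Fin (n + 1)) + 1),
            vel τ k Y (i0 + (m : Fin (n + 1)) + 1)) (vel τ k Y (i0 + (m : Fin (n + 1)) + 1)) := rfl
      nlinarith [c5.2, c6.1, c7.2]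
  have hall : ∀ i, ‖vel τ k Y i‖ ≤ R' := by
    intro i
    have hm : ((i - i0 : Fin (n + 1)) : ℕ) ≤ n := Nat.lt_succ_iff.mp (i - i0).2
    have h1 := (hind _ hm).1
    have h2 : i0 + (((i - i0 : Fin (n + 1)) : ℕ) : Fin (n + 1)) = i := by
      rw [Fin.cast_val_eq_self]
      simp
    rwa [h2] at h1
  refine ⟨Y, hY0, hall, ?_, ?_⟩
  · intro j
    have hj : ‖vel τ k Y j‖ < R := by linarith [hall j]
    have hj1 : ‖vel τ k Y (j + 1)‖ < R := by linarith [hall (j + 1)]
    rw [← dv_eq_near hfg hj (x := Y j), ← dv_eq_near hfg hj1 (x := Y (j + 1)),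
      ← dx_eq_near hfg hj1 (x := Y (j + 1))]
    exact hEL j
  · have hYg : dact g τ k Y = dact f τ k Y := by
      unfold dact
      apply Finset.sum_congr rfl
      intro i _
      rw [hfg _ _ (by linarith [hall i])]
    rw [← hYg, ← hZg]
    exact hYmin Z

end Pool.Agent.Work.MP_c99f5e_an
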