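import Pool.Agent.Work.MP_c99f5e_an.Compare
import Pool.Agent.Work.MP_c99f5e_an.VelBound

/-!
# From closed chains of negative action to periodic Euler-Lagrange curves of negative action
-/

set_option autoImplicit false

open Filter Topology Set
open scoped Fin.NatCast Fin.CommRing

namespace Pool.Agent.Work.MP_c99f5e_an

lemma TL.dv_injective {f : E × E → ℝ} (h : TL f) {x v w : E} (he : dv f (x, v) = dv f (x, w)) :
    v = w := by
  obtain ⟨l, hl, hm⟩ := h.strong_mono (max ‖v‖ ‖w‖)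
  have h1 := hm x w v (le_max_right _ _) (le_max_left _ _)
  rw [he, sub_self] at h1
  simp only [zero_apply] at h1
  have h2 : ‖v - w‖ ^ 2 ≤ 0 := by
    by_contra hcon
    push Not at hcon
    have := mul_pos hl hcon
    linarith
  have h3 : ‖v - w‖ = 0 := by
    have := sq_nonneg ‖v - w‖
    exact pow_eq_zero_iff (two_ne_zero) |>.mp (le_antisymm h2 this)
  exact sub_eq_zero.mp (norm_eq_zero.mp h3)

lemma sum_kap {n : ℕ} (k : Fin 2 → ℤ) : ∑ i : Fin (n + 1), ι (kap k i) = ι k := by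
  rw [Finset.sum_eq_single (Fin.last n)]
  · simp [kap]
  · intro i _ hi
    simp [kap, hi, ι_zero]
  · intro h
    exact absurd (Finset.mem_univ _) h

theorem TL.exists_periodic {f : E × E → ℝ} (h : TL f) {P : (ℝ → E) → (ℝ → E) → Prop}
    (hEx : ∀ x v : E, ∃ γ γ' : ℝ → E, γ 0 = x ∧ γ' 0 = v ∧ ELC f γ γ' ∧ P γ γ')
    {T a V : ℝ} (hT : 0 < T) (ha : a < 0) (k : Fin 2 → ℤ)
    (hch : ∀ δ > 0, ∃ (n : ℕ) (τ : Fin (n + 1) → ℝ) (Z : Fin (n + 1) → E), (∀ i, 0 < τ i) ∧
      (∀ i, τ i < δ) ∧ ∑ i, τ i = T ∧ (∀ i, ‖vel τ k Z i‖ ≤ V) ∧ dact f τ k Z ≤ a) :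
    ∃ γ γ' : ℝ → E, ELC f γ γ' ∧ P γ γ' ∧ γ T = γ 0 + ι k ∧ γ' T = γ' 0 ∧
      ∫ t in (0 : ℝ)..T, f (γ t, γ' t) ≤ a := by
  obtain ⟨R', hR'0, δ₀, hδ₀, himp⟩ := h.chain_improve hT V
  have hchain : ∀ j : ℕ, ∃ (n : ℕ) (τ : Fin (n + 1) → ℝ) (Y : Fin (n + 1) → E), (∀ i, 0 < τ i) ∧
      (∀ i, τ i < 1 / ((j : ℝ) + 1)) ∧ ∑ i, τ i = T ∧ ‖Y 0‖ ≤ 2 ∧ (∀ i, ‖vel τ k Y i‖ ≤ R') ∧
      (∀ j, dv f (Y (j + 1), vel τ k Y (j + 1)) - dv f (Y j, vel τ k Y j) =
          τ (j + 1) • dx f (Y (j + 1), vel τ k Y (j + 1))) ∧ dact f τ k Y ≤ a := by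
    intro j
    obtain ⟨n, τ, Z, h1, h2, h3, h4, h5⟩ := hch (min δ₀ (1 / ((j : ℝ) + 1)))
      (lt_min hδ₀ (by positivity))
    obtain ⟨Y, g1, g2, g3, g4⟩ := himp n τ k Z h1 (fun i => (h2 i).trans_le (min_le_left _ _)) h3 h4
      (lt_of_le_of_lt h5 ha)
    exact ⟨n, τ, Y, h1, fun i => (h2 i).trans_le (min_le_right _ _), h3, g1, g2, g3, g4.trans h5⟩
  choose n τ Y hτ0 hτδ hτT hY0 hvR hEL hact using hchain
  have hK : IsCompact (Metric.closedBall (0 : E) 2 ×ˢ Metric.closedBall (0 : E) R') :=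
    (isCompact_closedBall _ _).prod (isCompact_closedBall _ _)
  have hmem : ∀ j, ((Y j 0, vel (τ j) k (Y j) 0) : E × E) ∈
      Metric.closedBall (0 : E) 2 ×ˢ Metric.closedBall (0 : E) R' := by
    intro j
    exact ⟨by simpa using hY0 j, by simpa using hvR j 0⟩
  obtain ⟨⟨x0, v0⟩, -, φ, hφ, hlim⟩ := hK.tendsto_subseq hmem
  obtain ⟨γ, γ', hγ0, hγ'0, hγ, hP⟩ := hEx x0 v0
  -- approximation statement
  have key : ∀ ε > 0, ∃ y w : E, ‖y - x0‖ < ε ∧ ‖w - v0‖ < ε ∧ ‖y + ι k - γ T‖ < ε ∧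
      ‖dv f (y, w) - dv f (γ T, γ' T)‖ < ε ∧ ∫ t in (0 : ℝ)..T, f (γ t, γ' t) < a + ε := by
    intro ε hε
    obtain ⟨δ₁, hδ₁, hcmp⟩ := h.compare hγ hT R' hε
    have hlim1 : Tendsto (fun j => Y (φ j) 0) atTop (𝓝 x0) :=
      (continuous_fst.tendsto (x0, v0)).comp hlim
    have hlim2 : Tendsto (fun j => vel (τ (φ j)) k (Y (φ j)) 0) atTop (𝓝 v0) :=
      (continuous_snd.tendsto (x0, v0)).comp hlim
    have hlim3 : Tendsto (fun j : ℕ => 1 / (((φ j : ℕ) : ℝ) + 1)) atTop (𝓝 0) :=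
      tendsto_one_div_add_atTop_nhds_zero_nat.comp hφ.tendsto_atTop
    have ev1 := (Metric.tendsto_nhds.mp hlim1) (min ε δ₁) (lt_min hε hδ₁)
    have ev2 := (Metric.tendsto_nhds.mp hlim2) (min ε δ₁) (lt_min hε hδ₁)
    have ev3 := hlim3.eventually_lt_const hδ₁
    obtain ⟨j, hj1, hj2, hj3⟩ := (ev1.and (ev2.and ev3)).exists
    rw [dist_eq_norm] at hj1 hj2
    set p := φ j with hp
    set N := n p + 1 with hN
    set tt : ℕ → ℝ := fun m => τ p (m : Fin (n p + 1)) with htt
    set vv : ℕ → E := fun m => vel (τ p) k (Y p) (m : Fin (n p + 1)) with hvv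
    set X : ℕ → E := fun m => Y p 0 + ∑ l ∈ Finset.range m, tt l • vv l with hX
    have hXs : ∀ m, X (m + 1) = X m + tt m • vv m := by
      intro m
      simp only [hX]
      rw [Finset.sum_range_succ, add_assoc]
    have hstep : ∀ m : ℕ, tt m • vv m = Y p ((m : Fin (n p + 1)) + 1) +
        ι (kap k (m : Fin (n p + 1))) - Y p (m : Fin (n p + 1)) := by
      intro m
      rw [vel_step (hτ0 p) k (Y p)]
      simp only [htt, hvv]
      abel
    have hmod : ∀ m : ℕ, ∃ l : Fin 2 → ℤ, X m = Y p (m : Fin (n p + 1)) + ι l := by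
      intro m
      induction m with
      | zero => exact ⟨0, by simp [hX, ι_zero]⟩
      | succ m ih =>
        obtain ⟨l, hl⟩ := ih
        refine ⟨kap k (m : Fin (n p + 1)) + l, ?_⟩
        rw [hXs, hl, hstep, ι_add, Nat.cast_add, Nat.cast_one]
        abel
    have hXN : X N = Y p 0 + ι k := by
      simp only [hX]
      congr 1
      have e1 : ∑ l ∈ Finset.range N, tt l • vv l =
          ∑ i : Fin (n p + 1), (Y p (i + 1) + ι (kap k i) - Y p i) := by
        rw [hN, Finset.sum_range]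
        apply Finset.sum_congr rfl
        intro i _
        rw [hstep]
        simp
      rw [e1]
      have e2 : ∑ i : Fin (n p + 1), Y p (i + 1) = ∑ i : Fin (n p + 1), Y p i :=
        Equiv.sum_comp (Equiv.addRight (1 : Fin (n p + 1))) (Y p)
      rw [Finset.sum_sub_distrib, Finset.sum_add_distrib, e2, sum_kap]
      abel
    have hdvX : ∀ m : ℕ, dv f (X m, vv m) = dv f (Y p (m : Fin (n p + 1)), vv m) := by
      intro m
      obtain ⟨l, hl⟩ := hmod m
      rw [hl, per_dv h.per]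
    have hdxX : ∀ m : ℕ, dx f (X m, vv m) = dx f (Y p (m : Fin (n p + 1)), vv m) := by
      intro m
      obtain ⟨l, hl⟩ := hmod m
      rw [hl, per_dx h.per]
    have hfX : ∀ m : ℕ, f (X m, vv m) = f (Y p (m : Fin (n p + 1)), vv m) := by
      intro m
      obtain ⟨l, hl⟩ := hmod m
      rw [hl, h.per]
    have hcast0 : ((0 : ℕ) : Fin (n p + 1)) = 0 := Nat.cast_zero
    have hcastN : ((N : ℕ) : Fin (n p + 1)) = 0 := by
      rw [hN]; simp
    have hvN : vv N = vel (τ p) k (Y p) 0 := by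
      simp only [hvv, hcastN]
    have hres := hcmp N X vv tt (fun m _ => hτ0 p _)
      (fun m _ => (hτδ p _).trans hj3)
      (by
        have := sum_shift (τ p) 0
        simp only [zero_add] at this
        rw [hN]
        simp only [htt]
        rw [this]
        exact hτT p)
      (fun m => hvR p _) (fun m _ => hXs m)
      (by
        intro m _
        rw [hdvX, hdvX, hdxX]
        simp only [hvv, htt, Nat.cast_add, Nat.cast_one]
        exact hEL p _)
      (by
        simp only [hX, Finset.range_zero, Finset.sum_empty, add_zero]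
        rw [hγ0]
        exact hj1.trans_le (min_le_right _ _))
      (by
        simp only [hvv, hcast0]
        rw [hγ'0]
        exact hj2.trans_le (min_le_right _ _))
    obtain ⟨r1, r2, r3⟩ := hres
    rw [hXN] at r1 r2
    rw [per_dv h.per, hvN] at r2
    refine ⟨Y p 0, vel (τ p) k (Y p) 0, hj1.trans_le (min_le_left _ _),
      hj2.trans_le (min_le_left _ _), r1, r2, ?_⟩
    have e3 : ∑ m ∈ Finset.range N, tt m * f (X m, vv m) = dact f (τ p) k (Y p) := by
      unfold dact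
      rw [hN, Finset.sum_range]
      apply Finset.sum_congr rfl
      intro i _
      rw [hfX]
      simp only [htt, hvv, Fin.cast_val_eq_self]
    rw [e3] at r3
    have r4 := (abs_lt.mp r3).1
    have r5 := hact p
    linarith
  refine ⟨γ, γ', hγ, hP, ?_, ?_, ?_⟩
  · rw [hγ0]
    symm
    rw [← sub_eq_zero, ← norm_eq_zero]
    apply le_antisymm _ (norm_nonneg _)
    apply le_of_forall_pos_le_add
    intro ε hε
    obtain ⟨y, w, k1, -, k3, -, -⟩ := key (ε / 2) (by linarith)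
    have e1 : x0 + ι k - γ T = (y + ι k - γ T) - (y - x0) := by abel
    rw [e1]
    linarith [norm_sub_le (y + ι k - γ T) (y - x0)]
  · have hdv : dv f (x0, v0) = dv f (γ T, γ' T) := by
      rw [← sub_eq_zero, ← norm_eq_zero]
      apply le_antisymm _ (norm_nonneg _)
      apply le_of_forall_pos_le_add
      intro ε hε
      have hc := (Metric.continuous_iff.mp h.continuous_dv) (x0, v0) (ε / 2) (by linarith)
      obtain ⟨η, hη, hη2⟩ := hc
      obtain ⟨y, w, k1, k2, -, k4, -⟩ := key (min (ε / 2) η) (lt_min (by linarith) hη)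
      have h1 : dist ((y, w) : E × E) (x0, v0) < η := by
        rw [Prod.dist_eq, max_lt_iff, dist_eq_norm, dist_eq_norm]
        exact ⟨k1.trans_le (min_le_right _ _), k2.trans_le (min_le_right _ _)⟩
      have h2 := hη2 _ h1
      rw [dist_eq_norm] at h2
      have e1 : dv f (x0, v0) - dv f (γ T, γ' T) =
          (dv f (y, w) - dv f (γ T, γ' T)) - (dv f (y, w) - dv f (x0, v0)) := by abel
      rw [e1]
      have := norm_sub_le (dv f (y, w) - dv f (γ T, γ' T)) (dv f (y, w) - dv f (x0, v0))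
      have k4' := k4.trans_le (min_le_left _ _)
      linarith
    have hγT : γ T = x0 + ι k := by
      symm
      rw [← sub_eq_zero, ← norm_eq_zero]
      apply le_antisymm _ (norm_nonneg _)
      apply le_of_forall_pos_le_add
      intro ε hε
      obtain ⟨y, w, k1, -, k3, -, -⟩ := key (ε / 2) (by linarith)
      have e1 : x0 + ι k - γ T = (y + ι k - γ T) - (y - x0) := by abel
      rw [e1]
      linarith [norm_sub_le (y + ι k - γ T) (y - x0)]
    rw [hγT, per_dv h.per] at hdv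
    rw [hγ'0]
    exact (h.dv_injective hdv).symm
  · apply le_of_forall_pos_le_add
    intro ε hε
    obtain ⟨y, w, -, -, -, -, k5⟩ := key ε hε
    exact k5.le

end Pool.Agent.Work.MP_c99f5e_an
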