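import Pool.Agent.Work.MP_c99f5e_an.Cross

/-!
# Recurrence and returns to a transversal
-/

set_option autoImplicit false

open Filter Topology Set MeasureTheory

namespace Pool.Agent.Work.MP_c99f5e_an

/-- Birkhoff recurrence for the time-one map -/
lemma exists_recurrent (φ : Flow ℝ (T2 × E)) {K : Set (T2 × E)} (hK : IsCompact K)
    (hne : K.Nonempty) (hinv : ∀ t, ∀ z ∈ K, φ t z ∈ K) :
    ∃ z0 ∈ K, ∀ U ∈ 𝓝 z0, ∃ n : ℕ, 1 ≤ n ∧ φ (n : ℝ) z0 ∈ U := by
  set S : Set (Set (T2 × E)) := {M | M ⊆ K ∧ IsClosed M ∧ M.Nonempty ∧ ∀ z ∈ M, φ 1 z ∈ M} with hS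
  have hKS : K ∈ S := ⟨subset_rfl, hK.isClosed, hne, hinv 1⟩
  obtain ⟨M, hMK, hMmin⟩ := zorn_superset_nonempty S (by
    intro c hcS hchain hcne
    have : Nonempty c := hcne.to_subtype
    refine ⟨⋂₀ c, ⟨?_, ?_, ?_, ?_⟩, fun s hs => sInter_subset_of_mem hs⟩
    · obtain ⟨s, hs⟩ := hcne
      exact (sInter_subset_of_mem hs).trans (hcS hs).1
    · exact isClosed_sInter (fun s hs => (hcS hs).2.1)
    · apply IsCompact.nonempty_sInter_of_directed_nonempty_isCompact_isClosed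
      · intro s hs t ht
        rcases hchain.total hs ht with h | h
        · exact ⟨s, hs, subset_rfl, h⟩
        · exact ⟨t, ht, h, subset_rfl⟩
      · exact fun s hs => (hcS hs).2.2.1
      · exact fun s hs => hK.of_isClosed_subset (hcS hs).2.1 (hcS hs).1
      · exact fun s hs => (hcS hs).2.1
    · intro z hz s hs
      exact (hcS hs).2.2.2 z (hz s hs)) K hKS
  obtain ⟨hM1, hM2, ⟨z0, hz0⟩, hM4⟩ := hMmin.prop
  refine ⟨z0, hM1 hz0, ?_⟩
  set A : Set (T2 × E) := {z | ∃ n : ℕ, 1 ≤ n ∧ φ (n : ℝ) z0 = z} with hA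
  have hiter : ∀ n : ℕ, φ (n : ℝ) z0 ∈ M := by
    intro n
    induction n with
    | zero => simpa using hz0
    | succ n ih =>
      have := hM4 _ ih
      rw [← φ.map_add, add_comm] at this
      push_cast
      exact this
  have hAM : A ⊆ M := by
    rintro z ⟨n, -, rfl⟩
    exact hiter n
  have hcl : closure A ⊆ M := closure_minimal hAM hM2
  have hclS : closure A ∈ S := by
    refine ⟨hcl.trans hM1, isClosed_closure, ⟨φ 1 z0, subset_closure ⟨1, le_rfl, by simp⟩⟩, ?_⟩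
    intro z hz
    have hc : Continuous (φ 1) := φ.continuous continuous_const continuous_id
    have h1 : MapsTo (φ 1) A A := by
      rintro z ⟨n, hn, rfl⟩
      refine ⟨n + 1, by omega, ?_⟩
      rw [← φ.map_add, add_comm]
      push_cast
      rfl
    exact h1.closure hc hz
  have hz0cl : z0 ∈ closure A := hMmin.le_of_le hclS hcl hz0
  intro U hU
  obtain ⟨z, hz1, n, hn, rfl⟩ := mem_closure_iff_nhds.mp hz0cl U hU
  exact ⟨n, hn, hz1⟩

lemma inner_E (x y : E) : inner ℝ x y = x 0 * y 0 + x 1 * y 1 := by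
  rw [PiLp.inner_apply, Fin.sum_univ_two]
  simp [mul_comm]

lemma perp_eq {y v : E} (hv : v ≠ 0) (h : inner ℝ y v = 0) :
    y = (detL y v / ‖v‖ ^ 2) • J v := by
  have hn : 0 < ‖v‖ ^ 2 := by
    have := norm_pos_iff.mpr hv
    positivity
  rw [inner_E] at h
  have h1 : ∀ i, y i = ((detL y v / ‖v‖ ^ 2) • J v) i := by
    intro i
    rw [PiLp.smul_apply, smul_eq_mul, div_mul_eq_mul_div, eq_div_iff hn.ne', detL_apply,
      norm_sq_E]
    fin_cases i
    · simp only [Fin.zero_eta, J_zero_apply]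
      linear_combination (v 0) * h
    · simp only [Fin.mk_one, J_one_apply]
      linear_combination (v 1) * h
  ext i
  exact h1 i

/-- returns to the transversal -/
lemma exists_return {P : E → E → Prop} (hPper : ∀ (k : Fin 2 → ℤ) x w, P x w → P (x + ι k) w)
    {V : E → E} {Λ : ℝ} (hΛ : 0 ≤ Λ) (hV : ∀ x y, ‖V x - V y‖ ≤ Λ * ‖x - y‖)
    (hPV : ∀ x w, P x w → V x = w)
    {γ γ' : ℝ → E} (hγ : ∀ t, HasDerivAt γ (γ' t) t) (hPγ : ∀ t, P (γ t) (γ' t))
    (hne : γ' 0 ≠ 0) {R : ℝ} (hR0 : 0 ≤ R) (hR : ∀ t, ‖γ' t‖ ≤ R)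
    (hrec : ∀ ε > 0, ∃ t ≥ (1 : ℝ), ∃ k : Fin 2 → ℤ, ‖γ t - γ 0 - ι k‖ < ε)
    (hnp : ∀ t > 0, ∀ k : Fin 2 → ℤ, γ t ≠ γ 0 + ι k) {σm : ℝ} (hσm : 0 < σm) :
    ∃ (T : ℝ) (k : Fin 2 → ℤ) (σ : ℝ), 0 < T ∧ σ ≠ 0 ∧ |σ| ≤ σm ∧
      γ T = γ 0 + ι k + σ • J (γ' 0) := by
  have hγc : Continuous γ := continuous_iff_continuousAt.mpr (fun s => (hγ s).continuousAt)
  set n0 := ‖γ' 0‖ with hn0def
  have hn0 : 0 < n0 := norm_pos_iff.mpr hne
  obtain ⟨s1, hs10, hs11, hs12, hs13⟩ : ∃ s1 : ℝ, 0 < s1 ∧ s1 ≤ 1 / 2 ∧ Λ * (R * s1) ≤ n0 / 4 ∧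
      R * s1 ≤ σm * n0 / 2 := by
    refine ⟨min (1 / 2) (min (n0 / 4 / (Λ * R + 1)) (σm * n0 / 2 / (R + 1))),
      lt_min (by norm_num) (lt_min (by positivity) (by positivity)), min_le_left _ _, ?_, ?_⟩
    · have h1 : min (1 / 2) (min (n0 / 4 / (Λ * R + 1)) (σm * n0 / 2 / (R + 1))) ≤
          n0 / 4 / (Λ * R + 1) := (min_le_right _ _).trans (min_le_left _ _)
      calc Λ * (R * _) = (Λ * R) * _ := by ring
        _ ≤ (Λ * R) * (n0 / 4 / (Λ * R + 1)) := mul_le_mul_of_nonneg_left h1 (by positivity)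
        _ ≤ n0 / 4 := by
            rw [mul_div_assoc', div_le_iff₀ (by positivity)]
            nlinarith
    · have h1 : min (1 / 2) (min (n0 / 4 / (Λ * R + 1)) (σm * n0 / 2 / (R + 1))) ≤
          σm * n0 / 2 / (R + 1) := (min_le_right _ _).trans (min_le_right _ _)
      calc R * _ ≤ R * (σm * n0 / 2 / (R + 1)) := mul_le_mul_of_nonneg_left h1 hR0
        _ ≤ σm * n0 / 2 := by
            rw [mul_div_assoc', div_le_iff₀ (by positivity)]
            have : 0 < σm * n0 := by positivity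
            nlinarith
  obtain ⟨ε, hε0, hε1, hε2, hε3⟩ : ∃ ε : ℝ, 0 < ε ∧ Λ * ε ≤ n0 / 4 ∧ ε ≤ s1 * n0 / 2 ∧
      ε ≤ σm * n0 / 2 := by
    refine ⟨min (n0 / 4 / (Λ + 1)) (min (s1 * n0 / 2) (σm * n0 / 2)),
      lt_min (by positivity) (lt_min (by positivity) (by positivity)), ?_,
      (min_le_right _ _).trans (min_le_left _ _), (min_le_right _ _).trans (min_le_right _ _)⟩
    calc Λ * _ ≤ Λ * (n0 / 4 / (Λ + 1)) := mul_le_mul_of_nonneg_left (min_le_left _ _) hΛ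
      _ ≤ n0 / 4 := by
          rw [mul_div_assoc', div_le_iff₀ (by positivity)]
          nlinarith
  obtain ⟨t, ht, k, hk⟩ := hrec ε hε0
  have hdist : ∀ s, |s| ≤ s1 → ‖γ (t + s) - γ 0 - ι k‖ ≤ R * s1 + ε := by
    intro s hs
    have h1 : ‖γ (t + s) - γ t‖ ≤ R * ‖(t + s) - t‖ :=
      (convex_univ : Convex ℝ (univ : Set ℝ)).norm_image_sub_le_of_norm_hasDerivWithin_le
        (fun r _ => (hγ r).hasDerivWithinAt) (fun r _ => hR r) (mem_univ _) (mem_univ _)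
    rw [add_sub_cancel_left, Real.norm_eq_abs] at h1
    have h2 : R * |s| ≤ R * s1 := mul_le_mul_of_nonneg_left hs hR0
    have e : γ (t + s) - γ 0 - ι k = (γ (t + s) - γ t) + (γ t - γ 0 - ι k) := by abel
    rw [e]
    exact (norm_add_le _ _).trans (by linarith)
  have hvel : ∀ s, |s| ≤ s1 → ‖γ' (t + s) - γ' 0‖ ≤ n0 / 2 := by
    intro s hs
    have h1 : V (γ (t + s)) = γ' (t + s) := hPV _ _ (hPγ _)
    have h2 : V (γ 0 + ι k) = γ' 0 := hPV _ _ (hPper _ _ _ (hPγ 0))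
    rw [← h1, ← h2]
    refine (hV _ _).trans ?_
    have h3 : γ (t + s) - (γ 0 + ι k) = γ (t + s) - γ 0 - ι k := by abel
    rw [h3]
    have := mul_le_mul_of_nonneg_left (hdist s hs) hΛ
    linarith
  set g : ℝ → ℝ := fun s => inner ℝ (γ (t + s) - γ 0 - ι k) (γ' 0) with hg
  have hgd : ∀ s, HasDerivAt g (inner ℝ (γ' (t + s)) (γ' 0)) s := by
    intro s
    have h1 : HasDerivAt (fun s => γ (t + s) - γ 0 - ι k) (γ' (t + s)) s := by
      have h2 : HasDerivAt (fun s : ℝ => t + s) 1 s := (hasDerivAt_id s).const_add t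
      have h3 := (hγ (t + s)).scomp s h2
      rw [one_smul] at h3
      exact (h3.sub_const (γ 0)).sub_const (ι k)
    have h4 := h1.inner ℝ (hasDerivAt_const s (γ' 0))
    rw [inner_zero_right, zero_add] at h4
    exact h4
  have hgd2 : ∀ s, |s| ≤ s1 → n0 ^ 2 / 2 ≤ inner ℝ (γ' (t + s)) (γ' 0) := by
    intro s hs
    have h1 : inner ℝ (γ' (t + s)) (γ' 0) = inner ℝ (γ' (t + s) - γ' 0) (γ' 0) + n0 ^ 2 := by
      rw [inner_sub_left, real_inner_self_eq_norm_sq]; ring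
    have h2 := abs_real_inner_le_norm (γ' (t + s) - γ' 0) (γ' 0)
    have h3 := (abs_le.mp h2).1
    have h4 : ‖γ' (t + s) - γ' 0‖ * ‖γ' 0‖ ≤ (n0 / 2) * n0 :=
      mul_le_mul_of_nonneg_right (hvel s hs) hn0.le
    rw [h1]
    nlinarith
  have hg0 : |g 0| ≤ ε * n0 := by
    simp only [hg, add_zero]
    refine (abs_real_inner_le_norm _ _).trans ?_
    exact mul_le_mul_of_nonneg_right hk.le hn0.le
  have hgc : Continuous g := continuous_iff_continuousAt.mpr (fun s => (hgd s).continuousAt)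
  have hmv : ∀ a b : ℝ, -s1 ≤ a → a ≤ b → b ≤ s1 → n0 ^ 2 / 2 * (b - a) ≤ g b - g a := by
    intro a b ha hab hb
    exact (convex_Icc (-s1) s1).mul_sub_le_image_sub_of_le_deriv hgc.continuousOn
      (fun x _ => (hgd x).differentiableAt.differentiableWithinAt)
      (by
        intro x hx
        rw [interior_Icc] at hx
        rw [(hgd x).deriv]
        exact hgd2 x (abs_le.mpr ⟨hx.1.le, hx.2.le⟩)) a ⟨ha, hab.trans hb⟩ b ⟨ha.trans hab, hb⟩ hab
  have hε4 : ε * n0 ≤ n0 ^ 2 / 2 * s1 := by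
    calc ε * n0 ≤ (s1 * n0 / 2) * n0 := mul_le_mul_of_nonneg_right hε2 hn0.le
      _ = _ := by ring
  have hgp : 0 ≤ g s1 := by
    have := hmv 0 s1 (by linarith) hs10.le le_rfl
    have := (abs_le.mp hg0).1
    linarith
  have hgm : g (-s1) ≤ 0 := by
    have := hmv (-s1) 0 le_rfl (by linarith) hs10.le
    have := (abs_le.mp hg0).2
    linarith
  obtain ⟨s, hs, hgs⟩ := intermediate_value_Icc (show -s1 ≤ s1 by linarith) hgc.continuousOn
    ⟨hgm, hgp⟩
  have hsabs : |s| ≤ s1 := abs_le.mpr ⟨hs.1, hs.2⟩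
  have hperp := perp_eq hne hgs
  set σ := detL (γ (t + s) - γ 0 - ι k) (γ' 0) / ‖γ' 0‖ ^ 2 with hσ
  have hT : 0 < t + s := by linarith [hs.1]
  have heq : γ (t + s) = γ 0 + ι k + σ • J (γ' 0) := by
    rw [← hperp]; abel
  refine ⟨t + s, k, σ, hT, ?_, ?_, heq⟩
  · intro h0
    rw [h0, zero_smul, add_zero] at heq
    exact hnp _ hT k heq
  · have h1 : |σ| * n0 = ‖γ (t + s) - γ 0 - ι k‖ := by
      conv_rhs => rw [hperp]
      rw [norm_smul, norm_J, Real.norm_eq_abs]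
    have h2 := hdist s hsabs
    have h3 : |σ| * n0 ≤ σm * n0 := by rw [h1]; linarith
    exact le_of_mul_le_mul_right h3 hn0

end Pool.Agent.Work.MP_c99f5e_an
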