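import Pool.Agent.Work.MP_c99f5e_an.MainCore

/-!
# From Lagrangians on the torus to lifted Lagrangians; conclusion
-/

set_option autoImplicit false

open Filter Topology Set MeasureTheory

namespace Pool.Agent.Work.MP_c99f5e_an

/-- the lifted Lagrangian `L - c + α` -/
noncomputable def lift (L : T2 → E → ℝ) (c : E) (α : ℝ) (z : E × E) : ℝ :=
  L (q z.1) z.2 - inner ℝ c z.2 + α

section

variable {L : T2 → E → ℝ}

lemma IsTonelli.contDiff_fibre (hL : IsTonelli L) (x : E) : ContDiff ℝ 2 (L (q x)) := by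
  have h : ContDiff ℝ 2 (fun v : E => ((x, v) : E × E)) := contDiff_prodMk_right x
  exact hL.smooth.comp h

lemma IsTonelli.contDiff_base (hL : IsTonelli L) (v : E) :
    ContDiff ℝ 2 (fun y : E => L (q y) v) := by
  have h : ContDiff ℝ 2 (fun x : E => ((x, v) : E × E)) := contDiff_prodMk_left v
  exact hL.smooth.comp h

lemma IsTonelli.contDiff_lift (hL : IsTonelli L) (c : E) (α : ℝ) : ContDiff ℝ 2 (lift L c α) := by
  unfold lift
  exact (hL.smooth.sub (contDiff_const.inner ℝ contDiff_snd)).add contDiff_const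

lemma IsTonelli.dv_lift (hL : IsTonelli L) (c : E) (α : ℝ) (x v : E) :
    dv (lift L c α) (x, v) = fderiv ℝ (L (q x)) v - innerSL ℝ c := by
  have h1 : HasFDerivAt (fun w : E => lift L c α (x, w)) (dv (lift L c α) (x, v)) v := by
    have h2 : HasFDerivAt (fun w : E => ((x, w) : E × E)) (ContinuousLinearMap.inr ℝ E E) v :=
      hasFDerivAt_prodMk_right x v
    exact (((hL.contDiff_lift c α).differentiable (by norm_num)) (x, v)).hasFDerivAt.comp v h2
  have h3 : HasFDerivAt (fun w : E => lift L c α (x, w)) (fderiv ℝ (L (q x)) v - innerSL ℝ c) v := by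
    have h4 := (((hL.contDiff_fibre x).differentiable (by norm_num)) v).hasFDerivAt
    have h5 : HasFDerivAt (fun w : E => inner ℝ c w) (innerSL ℝ c) v :=
      (innerSL ℝ c).hasFDerivAt
    exact (h4.sub h5).add_const α
  exact h1.unique h3

lemma IsTonelli.dx_lift (hL : IsTonelli L) (c : E) (α : ℝ) (x v : E) :
    dx (lift L c α) (x, v) = fderiv ℝ (fun y : E => L (q y) v) x := by
  have h1 : HasFDerivAt (fun y : E => lift L c α (y, v)) (dx (lift L c α) (x, v)) x := by
    have h2 : HasFDerivAt (fun w : E => ((w, v) : E × E)) (ContinuousLinearMap.inl ℝ E E) x :=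
      hasFDerivAt_prodMk_left x v
    exact (((hL.contDiff_lift c α).differentiable (by norm_num)) (x, v)).hasFDerivAt.comp x h2
  have h3 : HasFDerivAt (fun y : E => lift L c α (y, v)) (fderiv ℝ (fun y : E => L (q y) v) x) x := by
    have h4 := (((hL.contDiff_base v).differentiable (by norm_num)) x).hasFDerivAt
    exact (h4.sub_const (inner ℝ c v)).add_const α
  exact h1.unique h3

lemma IsTonelli.hess_lift (hL : IsTonelli L) (c : E) (α : ℝ) (x v w : E) :
    fderiv ℝ (fderiv ℝ (lift L c α)) (x, v) (0, w) (0, w) =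
      fderiv ℝ (fderiv ℝ (L (q x))) v w w := by
  have h1 := hasDerivAt_line2_gen (hL.contDiff_lift c α) x v w 0
  rw [zero_smul, add_zero] at h1
  have h2 : (fun s : ℝ => dv (lift L c α) (x, v + s • w) w) =
      fun s : ℝ => fderiv ℝ (L (q x)) (v + s • w) w - inner ℝ c w := by
    funext s
    rw [hL.dv_lift]
    simp
  rw [h2] at h1
  have h3 : HasDerivAt (fun s : ℝ => fderiv ℝ (L (q x)) (v + s • w) w - inner ℝ c w)
      (fderiv ℝ (fderiv ℝ (L (q x))) v w w) 0 := by
    have h4 : HasDerivAt (fun s : ℝ => v + s • w) w 0 := by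
      have := ((hasDerivAt_id (0 : ℝ)).smul_const w).const_add v
      rw [one_smul] at this
      exact this
    have h5 : ContDiff ℝ 1 (fderiv ℝ (L (q x))) := (hL.contDiff_fibre x).fderiv_right (by norm_num)
    have h6 : HasFDerivAt (fderiv ℝ (L (q x))) (fderiv ℝ (fderiv ℝ (L (q x))) v) (v + (0 : ℝ) • w) := by
      rw [zero_smul, add_zero]
      exact ((h5.differentiable (by norm_num)) v).hasFDerivAt
    have h7 := (h6.comp_hasDerivAt (0 : ℝ) h4).clm_apply (hasDerivAt_const (0 : ℝ) w)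
    rw [map_zero, add_zero] at h7
    exact h7.sub_const _
  exact h1.unique h3

lemma IsTonelli.tl_lift (hL : IsTonelli L) (c : E) (α : ℝ) : TL (lift L c α) := by
  refine ⟨hL.contDiff_lift c α, ?_, ?_, ?_⟩
  · intro k x v
    unfold lift
    simp only [q_add_ι]
  · intro x v w hw
    rw [hL.hess_lift]
    exact hL.convex _ _ _ hw
  · intro x
    have h1 := tendsto_atTop_add_const_right _ (-(‖c‖ + |α|)) (hL.superlinear (q x))
    refine tendsto_atTop_mono' _ ?_ h1
    have h2 : ∀ᶠ v : E in Bornology.cobounded E, 1 ≤ ‖v‖ :=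
      tendsto_norm_cobounded_atTop.eventually_ge_atTop 1
    filter_upwards [h2] with v hv
    have hv0 : 0 < ‖v‖ := by linarith
    unfold lift
    simp only
    have h3 : L (q x) v / ‖v‖ + -(‖c‖ + |α|) = (L (q x) v - (‖c‖ + |α|) * ‖v‖) / ‖v‖ := by
      field_simp
      ring
    rw [h3]
    apply div_le_div_of_nonneg_right _ hv0.le
    have h4 : inner ℝ c v ≤ ‖c‖ * ‖v‖ := real_inner_le_norm c v
    have h5 : -|α| ≤ α := neg_abs_le α
    have h6 : |α| ≤ |α| * ‖v‖ := le_mul_of_one_le_right (abs_nonneg _) hv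
    nlinarith

lemma desc_lift (L : T2 → E → ℝ) (c : E) (α : ℝ) :
    desc (lift L c α) = fun z => L z.1 z.2 - inner ℝ c z.2 + α := by
  funext z
  obtain ⟨x, v⟩ := z
  unfold desc lift
  simp only [Function.surjInv_eq isOpenQuotientMap_q.surjective]

lemma IsTonelli.compat (hL : IsTonelli L) {φ : Flow ℝ (T2 × E)} (hφ : IsELFlow L φ) (c : E)
    (α : ℝ) : Compat (lift L c α) φ := by
  intro x v
  obtain ⟨γ, γ', h0, h0', hγ, hz⟩ := hφ x v
  have hcont : Continuous γ' := by
    have h1 : Continuous (fun t : ℝ => (φ t (q x, v)).2) :=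
      continuous_snd.comp (φ.continuous continuous_id continuous_const)
    have h2 : (fun t : ℝ => (φ t (q x, v)).2) = γ' := by
      funext t
      rw [hz t]
    rwa [h2] at h1
  refine ⟨γ, γ', h0, h0', ⟨hγ.velocity, ?_, hcont⟩, hz⟩
  intro t
  have h1 : (fun s => dv (lift L c α) (γ s, γ' s)) =
      fun s => fderiv ℝ (L (q (γ s))) (γ' s) - innerSL ℝ c := by
    funext s
    rw [hL.dv_lift]
  rw [h1, hL.dx_lift]
  exact (hγ.eulerLagrange t).sub_const _

lemma IsTonelli.inv_iff (hL : IsTonelli L) {φ : Flow ℝ (T2 × E)} (c : E) (α : ℝ)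
    (μ : Measure (T2 × E)) : Inv (desc (lift L c α)) φ μ ↔ IsInvProb L φ μ := by
  constructor
  · intro h
    have := h.prob
    have hv := (hL.tl_lift c α).integrable_vel h
    refine ⟨h.prob, h.inv, ?_⟩
    have h1 := (h.int.add (hv.const_inner c)).sub (integrable_const α)
    refine h1.congr (Eventually.of_forall (fun z => ?_))
    rw [desc_lift]
    simp only [Pi.sub_apply, Pi.add_apply]
    ring
  · intro h
    have := h.prob
    have h0 : Inv (desc (lift L 0 0)) φ μ := by
      refine ⟨h.prob, h.invariant, ?_⟩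
      rw [desc_lift]
      refine h.finiteAction.congr (Eventually.of_forall (fun z => ?_))
      simp
    have hv := (hL.tl_lift 0 0).integrable_vel h0
    refine ⟨h.prob, h.invariant, ?_⟩
    rw [desc_lift]
    exact (h.finiteAction.sub (hv.const_inner c)).add (integrable_const α)

lemma IsTonelli.integral_lift (hL : IsTonelli L) {φ : Flow ℝ (T2 × E)} (c : E) (α : ℝ)
    {μ : Measure (T2 × E)} (hμ : IsInvProb L φ μ) :
    ∫ z, desc (lift L c α) z ∂μ = (∫ z, (L z.1 z.2 - inner ℝ c z.2) ∂μ) + α ∧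
      ∫ z, desc (lift L c α) z ∂μ = (∫ z, L z.1 z.2 ∂μ) - inner ℝ c (rotation μ) + α := by
  have := hμ.prob
  have hv := (hL.tl_lift c α).integrable_vel ((hL.inv_iff c α μ).mpr hμ)
  have hci : Integrable (fun z : T2 × E => inner ℝ c z.2) μ := hv.const_inner c
  have h1 : Integrable (fun z : T2 × E => L z.1 z.2 - inner ℝ c z.2) μ := hμ.finiteAction.sub hci
  have e1 : ∫ z, desc (lift L c α) z ∂μ = (∫ z, (L z.1 z.2 - inner ℝ c z.2) ∂μ) + α := by
    rw [desc_lift, integral_add h1 (integrable_const α), integral_const]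
    simp
  refine ⟨e1, ?_⟩
  rw [e1, integral_sub hμ.finiteAction hci, integral_inner hv]
  rfl

end

lemma fderiv_eq_of_le {β : E → ℝ} {D : E →L[ℝ] ℝ} (hD : HasFDerivAt β D 0) {a : E}
    (ha : ∀ h, β 0 + inner ℝ a h ≤ β h) : D = innerSL ℝ a := by
  have h1 : HasFDerivAt (fun h => β h - inner ℝ a h) (D - innerSL ℝ a) 0 :=
    hD.sub (innerSL ℝ a).hasFDerivAt
  have h2 : IsLocalMin (fun h => β h - inner ℝ a h) 0 := by
    apply Eventually.of_forall
    intro h
    simp only [inner_zero_right, sub_zero]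
    linarith [ha h]
  exact sub_eq_zero.mp (h2.hasFDerivAt_eq_zero h1)

/-- a fixed point of the flow has zero velocity -/
lemma fixed_vel {L : T2 → E → ℝ} {φ : Flow ℝ (T2 × E)} (hφ : IsELFlow L φ) {z : T2 × E}
    (hz : ∀ t, φ t z = z) : z.2 = 0 := by
  obtain ⟨x, v⟩ := z
  obtain ⟨x, rfl⟩ := q_surj x
  obtain ⟨γ, γ', h0, h0', hγ, hφz⟩ := hφ x v
  have h1 : ∀ t, γ' t = v := by
    intro t
    have := hφz t
    rw [hz t] at this
    exact (Prod.mk.inj this).2.symm
  have h2 : ∀ t, q (γ t) = q x := by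
    intro t
    have := hφz t
    rw [hz t] at this
    exact (Prod.mk.inj this).1.symm
  have h3 : ∀ t, γ t = x + t • v := by
    intro t
    have hd : ∀ s, HasDerivAt (fun s => γ s - s • v) (0 : E) s := by
      intro s
      have a1 := hγ.velocity s
      rw [h1] at a1
      have a2 := (hasDerivAt_id s).smul_const v
      rw [one_smul] at a2
      have a3 := a1.sub a2
      rw [sub_self] at a3
      exact a3
    have hc : (fun s => γ s - s • v) t = (fun s => γ s - s • v) 0 :=
      is_const_of_deriv_eq_zero (fun s => (hd s).differentiableAt) (fun s => (hd s).deriv) t 0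
    simp only [zero_smul, sub_zero, h0] at hc
    rw [← hc]; abel
  by_contra hv
  simp only at hv
  have : ∃ i, v i ≠ 0 := by
    by_contra hcon
    push Not at hcon
    exact hv (by ext i; simp [hcon i])
  obtain ⟨i, hi⟩ := this
  obtain ⟨k, hk⟩ := (q_eq_iff _ _).mp (h2 (1 / (2 * v i))).symm
  rw [h3] at hk
  have h4 : x i + (1 / (2 * v i)) * v i = x i + (k i : ℝ) := by
    have := congrArg (fun y : E => y i) hk
    simpa using this
  have h5 : (1 / (2 * v i)) * v i = 1 / 2 := by field_simp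
  rw [h5] at h4
  have h6 : (1 : ℝ) = 2 * (k i : ℝ) := by linarith
  have h7 : (1 : ℤ) = 2 * k i := by exact_mod_cast h6
  omega

/-- **Main theorem.** If `β` is differentiable at `0` then no Mather set contains both a fixed
point and a nonempty compact invariant set without fixed points and periodic orbits. -/
theorem main {L : T2 → E → ℝ} (hL : IsTonelli L) {φ : Flow ℝ (T2 × E)} (hφ : IsELFlow L φ)
    {β : E → ℝ} (hβ : IsBeta L φ β) (hd : DifferentiableAt ℝ β 0) (c : E) :
    ¬ ((∃ z ∈ matherSet L φ c, ∀ t, φ t z = z) ∧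
      ∃ K ⊆ matherSet L φ c, IsCompact K ∧ K.Nonempty ∧ (∀ t, ∀ z ∈ K, φ t z ∈ K) ∧
        ∀ z ∈ K, ∀ t > 0, φ t z ≠ z) := by
  rintro ⟨⟨zs, hzs, hfix⟩, K, hKM, hK, hKne, hKinv, hKnp⟩
  obtain ⟨μ0, hμ0⟩ : ∃ μ0, IsMinimizing L φ c μ0 := by
    have h1 : (matherSet L φ c).Nonempty := ⟨zs, hzs⟩
    unfold matherSet at h1
    rw [closure_nonempty_iff] at h1
    obtain ⟨z, hz⟩ := h1
    rw [mem_iUnion₂] at hz
    obtain ⟨μ0, hμ0, -⟩ := hz
    exact ⟨μ0, hμ0⟩
  set α : ℝ := -∫ z, (L z.1 z.2 - inner ℝ c z.2) ∂μ0 with hα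
  have hT := hL.tl_lift c α
  have hC := hL.compat hφ c α
  have hN : ∀ μ, Inv (desc (lift L c α)) φ μ → 0 ≤ ∫ z, desc (lift L c α) z ∂μ := by
    intro μ hμ
    have hμ' := (hL.inv_iff c α μ).mp hμ
    rw [(hL.integral_lift c α hμ').1, hα]
    linarith [hμ0.2 μ hμ']
  have hM : matherSet L φ c ⊆ closure (⋃ μ ∈ {μ | Inv (desc (lift L c α)) φ μ ∧
      ∫ z, desc (lift L c α) z ∂μ = 0}, μ.support) := by
    unfold matherSet
    apply closure_mono
    apply iUnion₂_subset
    intro μ hμ z hz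
    rw [mem_iUnion₂]
    refine ⟨μ, ⟨(hL.inv_iff c α μ).mpr hμ.1, ?_⟩, hz⟩
    rw [(hL.integral_lift c α hμ.1).1, hα]
    have h1 := hμ0.2 μ hμ.1
    have h2 := hμ.2 μ0 hμ0.1
    linarith
  obtain ⟨hzero, c1, hc1, hineq⟩ := core_main hT hC hN hM hKM hK hKne hKinv hKnp
  have hz0 := hzero zs hzs hfix
  have hv0 := fixed_vel hφ hfix
  -- the Dirac mass
  have hmap : ∀ t, (Measure.dirac zs).map (φ t) = Measure.dirac zs := by
    intro t
    rw [Measure.map_dirac' (measurable_flow φ t), hfix]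
  have hgc : Continuous (fun z : T2 × E => L z.1 z.2) :=
    continuous_of_q hL.smooth.continuous
  have hdir : IsInvProb L φ (Measure.dirac zs) := by
    refine ⟨inferInstance, hmap, ?_⟩
    exact integrable_dirac (by simp)
  have hrot : rotation (Measure.dirac zs) = 0 := by
    unfold rotation
    rw [integral_dirac, hv0]
  have hint : ∫ z, L z.1 z.2 ∂(Measure.dirac zs) = -α := by
    rw [integral_dirac]
    rw [desc_lift] at hz0
    simp only [hv0, inner_zero_right] at hz0
    rw [hv0]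
    linarith
  have hβ0 : β 0 ≤ -α := (hβ 0).2 ⟨_, hdir, hrot, hint⟩
  have hlow : ∀ h, inner ℝ c h - α ≤ β h ∧ inner ℝ (c + c1) h - α ≤ β h := by
    intro h
    obtain ⟨μ, hμ, hμr, hμi⟩ := (hβ h).1
    have hμ' := (hL.inv_iff c α μ).mpr hμ
    have h1 := hN μ hμ'
    have h2 := hineq μ hμ'
    have h3 := (hL.integral_lift c α hμ).2
    have h4 : ∫ z, z.2 ∂μ = h := hμr
    rw [hμr, hμi] at h3
    rw [h3] at h1 h2
    rw [h4] at h2
    rw [inner_add_left]
    constructor <;> linarith
  have hβ0' : β 0 = -α := by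
    apply le_antisymm hβ0
    have := (hlow 0).1
    rw [inner_zero_right] at this
    linarith
  have hD := hd.hasFDerivAt
  have e1 := fderiv_eq_of_le hD (a := c) (fun h => by rw [hβ0']; linarith [(hlow h).1])
  have e2 := fderiv_eq_of_le hD (a := c + c1) (fun h => by rw [hβ0']; linarith [(hlow h).2])
  rw [e1] at e2
  have e3 := congrArg (fun l : E →L[ℝ] ℝ => l c1) e2
  simp only [innerSL_apply_apply, inner_add_left] at e3
  have e4 : inner ℝ c1 c1 = (0 : ℝ) := by linarith
  exact hc1 (inner_self_eq_zero.mp e4)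

end Pool.Agent.Work.MP_c99f5e_an
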